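import Mathlib

/-!
The divisor bound `d(n) ≤ C n^ε`.
-/

set_option autoImplicit false

namespace Pool.Agent.LibHLP

open Finset

/-- The number of divisors of `n` is at most `C n^ε`. -/
theorem exists_card_divisors_le (ε : ℝ) (hε : 0 < ε) :
    ∃ C : ℝ, 1 ≤ C ∧ ∀ n : ℕ, n ≠ 0 → (n.divisors.card : ℝ) ≤ C * (n : ℝ) ^ ε := by
  have hl2 : 0 < Real.log 2 := Real.log_pos (by norm_num)
  obtain ⟨N, hN⟩ := exists_nat_ge ((2 : ℝ) ^ (1 / ε))
  set M : ℝ := max 1 (1 / (ε * Real.log 2)) with hM
  have hM1 : 1 ≤ M := le_max_left _ _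
  have hM0 : 0 < M := lt_of_lt_of_le one_pos hM1
  refine ⟨M ^ N, one_le_pow₀ hM1, fun n hn => ?_⟩
  -- one prime factor
  have key : ∀ p k : ℕ, p.Prime → ((k : ℝ) + 1) ≤
      (if p < N then M else 1) * ((p : ℝ) ^ k) ^ ε := by
    intro p k hp
    have hp2 : (2 : ℝ) ≤ p := by exact_mod_cast hp.two_le
    have hp0 : (0 : ℝ) < p := by linarith
    have hpe : ((p : ℝ) ^ k) ^ ε = ((p : ℝ) ^ ε) ^ k := by
      rw [← Real.rpow_natCast, ← Real.rpow_mul hp0.le, ← Real.rpow_natCast, ← Real.rpow_mul hp0.le,
        mul_comm]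
    rw [hpe]
    split_ifs with h
    · -- small primes
      have h1 : (2 : ℝ) ^ ε ≤ (p : ℝ) ^ ε := Real.rpow_le_rpow (by norm_num) hp2 hε.le
      have h2 : 1 + ε * Real.log 2 * k ≤ ((2 : ℝ) ^ ε) ^ k := by
        have h3 : 1 + ε * Real.log 2 ≤ (2 : ℝ) ^ ε := by
          rw [Real.rpow_def_of_pos (by norm_num)]
          have := Real.add_one_le_exp (Real.log 2 * ε)
          linarith [mul_comm (Real.log 2) ε]
        have h4 := one_add_mul_le_pow (a := ε * Real.log 2) (by nlinarith [mul_pos hε hl2]) k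
        have h5 : (1 + ε * Real.log 2) ^ k ≤ ((2 : ℝ) ^ ε) ^ k := by
          apply pow_le_pow_left₀ _ h3
          nlinarith [mul_pos hε hl2]
        linarith [mul_comm (k : ℝ) (ε * Real.log 2)]
      have h3 : ((2 : ℝ) ^ ε) ^ k ≤ ((p : ℝ) ^ ε) ^ k :=
        pow_le_pow_left₀ (by positivity) h1 k
      have h4 : (1 : ℝ) ≤ M := hM1
      have h5 : 1 ≤ M * (ε * Real.log 2) := by
        have : 1 / (ε * Real.log 2) ≤ M := le_max_right _ _
        rwa [div_le_iff₀ (mul_pos hε hl2)] at this
      have hk : (0 : ℝ) ≤ k := Nat.cast_nonneg k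
      calc (k : ℝ) + 1 ≤ M * (ε * Real.log 2) * k + M := by nlinarith
        _ = M * (1 + ε * Real.log 2 * k) := by ring
        _ ≤ M * ((p : ℝ) ^ ε) ^ k := by gcongr; linarith
    · -- large primes
      rw [one_mul]
      have h1 : (2 : ℝ) ^ (1 / ε) ≤ p := by
        refine hN.trans ?_
        exact_mod_cast not_lt.1 h
      have h2 : (2 : ℝ) ≤ (p : ℝ) ^ ε := by
        have := Real.rpow_le_rpow (by positivity) h1 hε.le
        rwa [← Real.rpow_mul (by norm_num), one_div, inv_mul_cancel₀ hε.ne', Real.rpow_one] at this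
      calc (k : ℝ) + 1 ≤ (2 : ℝ) ^ k := by
            have := Nat.lt_two_pow_self (n := k)
            exact_mod_cast this
        _ ≤ ((p : ℝ) ^ ε) ^ k := pow_le_pow_left₀ (by norm_num) h2 k
  rw [Nat.card_divisors hn]
  push_cast
  calc ∏ p ∈ n.primeFactors, ((n.factorization p : ℝ) + 1)
      ≤ ∏ p ∈ n.primeFactors, ((if p < N then M else 1) * ((p : ℝ) ^ (n.factorization p)) ^ ε) := by
        apply Finset.prod_le_prod
        · intro i _; positivity
        · intro p hp
          exact key p _ (Nat.prime_of_mem_primeFactors hp)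
    _ = (∏ p ∈ n.primeFactors, (if p < N then M else 1)) *
        ∏ p ∈ n.primeFactors, ((p : ℝ) ^ (n.factorization p)) ^ ε := Finset.prod_mul_distrib
    _ ≤ M ^ N * (n : ℝ) ^ ε := by
        gcongr
        · rw [Finset.prod_ite, Finset.prod_const, Finset.prod_const_one, mul_one]
          apply pow_le_pow_right₀ hM1
          calc (n.primeFactors.filter (fun p => p < N)).card ≤ (Finset.range N).card := by
                apply Finset.card_le_card
                intro p hp
                rw [Finset.mem_filter] at hp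
                exact Finset.mem_range.2 hp.2
            _ = N := Finset.card_range N
        · rw [Real.finsetProd_rpow _ _ (fun p _ => by positivity)]
          apply le_of_eq
          congr 1
          have := Nat.prod_factorization_pow_eq_self hn
          conv_rhs => rw [← this]
          rw [Finsupp.prod]
          push_cast
          rfl

end Pool.Agent.LibHLP
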