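import Pool.Agent.LibHLP.DyadicU

set_option autoImplicit false

namespace Pool.Agent.LibHLP

/-- Multiplicities: the abstract counting lemma. -/
theorem mult_count {α β : Type} [DecidableEq α] [DecidableEq β] (T : Finset α) (N B : ℝ)
    (hN : 0 < N) (F : α → ℕ → β)
    (hF : ∀ p ∈ T, ∀ n n' : ℕ, F p n = F p n' → n = n')
    (hB : ∀ S : Finset (α × β), (∀ s ∈ S, s.1 ∈ T ∧ ∃ n : ℕ, (n : ℝ) * N ^ 2 ≤ 1 ∧ s.2 = F s.1 n) →
      (S.card : ℝ) ≤ B) :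
    (T.card : ℝ) ≤ N ^ 2 * B := by
  classical
  have hN2 : 0 < N ^ 2 := by positivity
  set M : ℕ := ⌊(N ^ 2)⁻¹⌋₊ with hM
  set S : Finset (α × β) := (T ×ˢ Finset.range (M + 1)).image (fun q => (q.1, F q.1 q.2)) with hS
  have hcard : S.card = T.card * (M + 1) := by
    rw [hS, Finset.card_image_of_injOn, Finset.card_product, Finset.card_range]
    rintro ⟨p, n⟩ hp ⟨p', n'⟩ hp' h
    have h1 : p = p' := congrArg Prod.fst h
    have h2 : F p n = F p' n' := congrArg Prod.snd h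
    subst h1
    have hpT : p ∈ T := (Finset.mem_product.1 (Finset.mem_coe.1 hp)).1
    rw [hF p hpT n n' h2]
  have hle : (S.card : ℝ) ≤ B := by
    apply hB
    intro s hs
    rw [hS, Finset.mem_image] at hs
    obtain ⟨⟨p, n⟩, hpn, rfl⟩ := hs
    rw [Finset.mem_product, Finset.mem_range] at hpn
    refine ⟨hpn.1, n, ?_, rfl⟩
    have h1 : (n : ℝ) ≤ (N ^ 2)⁻¹ := by
      have h2 : n ≤ M := Nat.lt_succ_iff.1 hpn.2
      have h3 : ((M : ℕ) : ℝ) ≤ (N ^ 2)⁻¹ := Nat.floor_le (by positivity)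
      have h4 : (n : ℝ) ≤ (M : ℝ) := by exact_mod_cast h2
      linarith
    calc (n : ℝ) * N ^ 2 ≤ (N ^ 2)⁻¹ * N ^ 2 := mul_le_mul_of_nonneg_right h1 hN2.le
      _ = 1 := inv_mul_cancel₀ hN2.ne'
  rw [hcard] at hle
  push_cast at hle
  have h5 : (N ^ 2)⁻¹ ≤ (M : ℝ) + 1 := (Nat.lt_floor_add_one _).le
  have h6 : (T.card : ℝ) * (N ^ 2)⁻¹ ≤ B := by
    have : (0 : ℝ) ≤ (T.card : ℝ) := Nat.cast_nonneg _
    calc (T.card : ℝ) * (N ^ 2)⁻¹ ≤ (T.card : ℝ) * ((M : ℝ) + 1) :=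
          mul_le_mul_of_nonneg_left h5 this
      _ ≤ B := hle
  calc (T.card : ℝ) = N ^ 2 * ((T.card : ℝ) * (N ^ 2)⁻¹) := by field_simp
    _ ≤ N ^ 2 * B := mul_le_mul_of_nonneg_left h6 hN2.le

/-- The sizes of the translated coefficients. -/
theorem translate_bounds {H L : ℝ} {a b c d e : ℝ} {n : ℕ} (hH : 0 < H) (hL : 0 < L)
    (hn : (n : ℝ) * L ^ 2 ≤ 1) (ha : |a| ≤ 5152 * H * L ^ 4) (hb : |b| ≤ 5152 * H * L ^ 2)
    (hc : |c| ≤ 5152 * H) (hd : |d| ≤ 4 * 5152 * H * L⁻¹ ^ 2)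
    (he : |e| ≤ 16 * 5152 * H * L⁻¹ ^ 4) :
    |b + n * a| ≤ 2 * (5152 * H * L ^ 2) ∧ |c + 2 * n * b + n ^ 2 * a| ≤ 4 * (5152 * H) ∧
    |d + 3 * n * c + 3 * n ^ 2 * b + n ^ 3 * a| ≤ 11 * (5152 * H * L⁻¹ ^ 2) ∧
    |e + 4 * n * d + 6 * n ^ 2 * c + 4 * n ^ 3 * b + n ^ 4 * a| ≤
      43 * (5152 * H * L⁻¹ ^ 4) := by
  have hn0 : (0 : ℝ) ≤ n := Nat.cast_nonneg n
  have hi : (n : ℝ) ≤ L⁻¹ ^ 2 := by
    rw [inv_pow, ← one_div, le_div_iff₀ (by positivity)]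
    exact hn
  have hl0 : 0 < L⁻¹ := by positivity
  have hLL : L * L⁻¹ = 1 := mul_inv_cancel₀ hL.ne'
  have h2 : (n : ℝ) ^ 2 ≤ (L⁻¹ ^ 2) ^ 2 := pow_le_pow_left₀ hn0 hi 2
  have h3 : (n : ℝ) ^ 3 ≤ (L⁻¹ ^ 2) ^ 3 := pow_le_pow_left₀ hn0 hi 3
  have h4 : (n : ℝ) ^ 4 ≤ (L⁻¹ ^ 2) ^ 4 := pow_le_pow_left₀ hn0 hi 4
  have m1a : n * |a| ≤ 5152 * H * L ^ 2 := by
    calc n * |a| ≤ L⁻¹ ^ 2 * (5152 * H * L ^ 4) := mul_le_mul hi ha (abs_nonneg _) (by positivity)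
      _ = 5152 * H * L ^ 2 * (L * L⁻¹) ^ 2 := by ring
      _ = 5152 * H * L ^ 2 := by rw [hLL]; ring
  have m2a : n ^ 2 * |a| ≤ 5152 * H := by
    calc n ^ 2 * |a| ≤ (L⁻¹ ^ 2) ^ 2 * (5152 * H * L ^ 4) :=
          mul_le_mul h2 ha (abs_nonneg _) (by positivity)
      _ = 5152 * H * (L * L⁻¹) ^ 4 := by ring
      _ = 5152 * H := by rw [hLL]; ring
  have m3a : n ^ 3 * |a| ≤ 5152 * H * L⁻¹ ^ 2 := by
    calc n ^ 3 * |a| ≤ (L⁻¹ ^ 2) ^ 3 * (5152 * H * L ^ 4) :=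
          mul_le_mul h3 ha (abs_nonneg _) (by positivity)
      _ = 5152 * H * L⁻¹ ^ 2 * (L * L⁻¹) ^ 4 := by ring
      _ = 5152 * H * L⁻¹ ^ 2 := by rw [hLL]; ring
  have m4a : n ^ 4 * |a| ≤ 5152 * H * L⁻¹ ^ 4 := by
    calc n ^ 4 * |a| ≤ (L⁻¹ ^ 2) ^ 4 * (5152 * H * L ^ 4) :=
          mul_le_mul h4 ha (abs_nonneg _) (by positivity)
      _ = 5152 * H * L⁻¹ ^ 4 * (L * L⁻¹) ^ 4 := by ring
      _ = 5152 * H * L⁻¹ ^ 4 := by rw [hLL]; ring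
  have m1b : n * |b| ≤ 5152 * H := by
    calc n * |b| ≤ L⁻¹ ^ 2 * (5152 * H * L ^ 2) := mul_le_mul hi hb (abs_nonneg _) (by positivity)
      _ = 5152 * H * (L * L⁻¹) ^ 2 := by ring
      _ = 5152 * H := by rw [hLL]; ring
  have m2b : n ^ 2 * |b| ≤ 5152 * H * L⁻¹ ^ 2 := by
    calc n ^ 2 * |b| ≤ (L⁻¹ ^ 2) ^ 2 * (5152 * H * L ^ 2) :=
          mul_le_mul h2 hb (abs_nonneg _) (by positivity)
      _ = 5152 * H * L⁻¹ ^ 2 * (L * L⁻¹) ^ 2 := by ring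
      _ = 5152 * H * L⁻¹ ^ 2 := by rw [hLL]; ring
  have m3b : n ^ 3 * |b| ≤ 5152 * H * L⁻¹ ^ 4 := by
    calc n ^ 3 * |b| ≤ (L⁻¹ ^ 2) ^ 3 * (5152 * H * L ^ 2) :=
          mul_le_mul h3 hb (abs_nonneg _) (by positivity)
      _ = 5152 * H * L⁻¹ ^ 4 * (L * L⁻¹) ^ 2 := by ring
      _ = 5152 * H * L⁻¹ ^ 4 := by rw [hLL]; ring
  have m1c : n * |c| ≤ 5152 * H * L⁻¹ ^ 2 := by
    calc n * |c| ≤ L⁻¹ ^ 2 * (5152 * H) := mul_le_mul hi hc (abs_nonneg _) (by positivity)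
      _ = 5152 * H * L⁻¹ ^ 2 := by ring
  have m2c : n ^ 2 * |c| ≤ 5152 * H * L⁻¹ ^ 4 := by
    calc n ^ 2 * |c| ≤ (L⁻¹ ^ 2) ^ 2 * (5152 * H) :=
          mul_le_mul h2 hc (abs_nonneg _) (by positivity)
      _ = 5152 * H * L⁻¹ ^ 4 := by ring
  have m1d : n * |d| ≤ 4 * (5152 * H * L⁻¹ ^ 4) := by
    calc n * |d| ≤ L⁻¹ ^ 2 * (4 * 5152 * H * L⁻¹ ^ 2) :=
          mul_le_mul hi hd (abs_nonneg _) (by positivity)
      _ = 4 * (5152 * H * L⁻¹ ^ 4) := by ring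
  have ab : ∀ (k : ℝ) (j : ℕ) (z : ℝ), 0 ≤ k → |k * n ^ j * z| = k * (n ^ j * |z|) := by
    intro k j z hk
    rw [abs_mul, abs_mul, abs_of_nonneg hk, abs_of_nonneg (by positivity : (0 : ℝ) ≤ n ^ j)]
    ring
  refine ⟨?_, ?_, ?_, ?_⟩
  · have t1 := abs_add_le b (n * a)
    have t2 : |(n : ℝ) * a| = n * |a| := by rw [abs_mul, abs_of_nonneg hn0]
    linarith
  · have t1 := abs_add_le (c + 2 * n * b) (n ^ 2 * a)
    have t2 := abs_add_le c (2 * n * b)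
    have t3 : |2 * (n : ℝ) * b| = 2 * (n * |b|) := by simpa using ab 2 1 b (by norm_num)
    have t4 : |(n : ℝ) ^ 2 * a| = n ^ 2 * |a| := by simpa using ab 1 2 a one_pos.le
    linarith
  · have t1 := abs_add_le (d + 3 * n * c + 3 * n ^ 2 * b) (n ^ 3 * a)
    have t2 := abs_add_le (d + 3 * n * c) (3 * n ^ 2 * b)
    have t3 := abs_add_le d (3 * n * c)
    have t4 : |3 * (n : ℝ) * c| = 3 * (n * |c|) := by simpa using ab 3 1 c (by norm_num)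
    have t5 : |3 * (n : ℝ) ^ 2 * b| = 3 * (n ^ 2 * |b|) := ab 3 2 b (by norm_num)
    have t6 : |(n : ℝ) ^ 3 * a| = n ^ 3 * |a| := by simpa using ab 1 3 a one_pos.le
    linarith
  · have t1 := abs_add_le (e + 4 * n * d + 6 * n ^ 2 * c + 4 * n ^ 3 * b) (n ^ 4 * a)
    have t2 := abs_add_le (e + 4 * n * d + 6 * n ^ 2 * c) (4 * n ^ 3 * b)
    have t3 := abs_add_le (e + 4 * n * d) (6 * n ^ 2 * c)
    have t4 := abs_add_le e (4 * n * d)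
    have t5 : |4 * (n : ℝ) * d| = 4 * (n * |d|) := by simpa using ab 4 1 d (by norm_num)
    have t6 : |6 * (n : ℝ) ^ 2 * c| = 6 * (n ^ 2 * |c|) := ab 6 2 c (by norm_num)
    have t7 : |4 * (n : ℝ) ^ 3 * b| = 4 * (n ^ 3 * |b|) := ab 4 3 b (by norm_num)
    have t8 : |(n : ℝ) ^ 4 * a| = n ^ 4 * |a| := by simpa using ab 1 4 a one_pos.le
    linarith

/-- The pairs `(A, B)` with a bounded form with invariants `-4 A`, `-4 B` and `lam` in a dyadic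
interval. -/
def multSet (H L : ℝ) : Set (ℤ × ℤ) :=
  {p : ℤ × ℤ | ∃ lam : ℝ, L / 2 < lam ∧ lam ≤ L ∧ ∃ a b c d e : ℤ,
    Bounds 5152 H lam a b c d e ∧ Inv p.1 p.2 a b c d e}

/-- The invariants as a map. -/
def invMap (F : ℤ × ℤ × ℤ × ℤ × ℤ) : ℤ × ℤ :=
  ((F.1 * F.2.2.2.2 - 4 * F.2.1 * F.2.2.2.1 + 3 * F.2.2.1 ^ 2) / (-4),
    (F.1 * F.2.2.1 * F.2.2.2.2 + 2 * F.2.1 * F.2.2.1 * F.2.2.2.1
      - F.1 * F.2.2.2.1 ^ 2 - F.2.1 ^ 2 * F.2.2.2.2 - F.2.2.1 ^ 3) / (-4))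

/-- The translated form. -/
def translate (F : ℤ × ℤ × ℤ × ℤ × ℤ) (n : ℕ) : ℤ × ℤ × ℤ × ℤ × ℤ :=
  (F.1, F.2.1 + n * F.1, F.2.2.1 + 2 * n * F.2.1 + n ^ 2 * F.1,
    F.2.2.2.1 + 3 * n * F.2.2.1 + 3 * n ^ 2 * F.2.1 + n ^ 3 * F.1,
    F.2.2.2.2 + 4 * n * F.2.2.2.1 + 6 * n ^ 2 * F.2.2.1 + 4 * n ^ 3 * F.2.1 + n ^ 4 * F.1)

theorem Inv_translate {A B a b c d e : ℤ} (h : Inv A B a b c d e) (n : ℕ) :
    Inv A B a (b + n * a) (c + 2 * n * b + n ^ 2 * a)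
      (d + 3 * n * c + 3 * n ^ 2 * b + n ^ 3 * a)
      (e + 4 * n * d + 6 * n ^ 2 * c + 4 * n ^ 3 * b + n ^ 4 * a) := by
  obtain ⟨h1, h2⟩ := h
  refine ⟨?_, ?_⟩
  · rw [← h1]; ring
  · rw [← h2]; ring

theorem invMap_of_Inv {A B a b c d e : ℤ} (h : Inv A B a b c d e) :
    invMap (a, b, c, d, e) = (A, B) := by
  obtain ⟨h1, h2⟩ := h
  simp only [invMap, Prod.mk.injEq]
  rw [h1, h2]
  constructor <;> omega

theorem mult_countU : ∃ K : ℝ, 0 ≤ K ∧ ∀ H : ℝ, 1 ≤ H → ∀ L : ℝ, 0 < L → L ≤ 1 →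
    (multSet H L).Finite ∧ ((multSet H L).ncard : ℝ) ≤ K * H ^ 5 * L ^ 2 := by
  classical
  refine ⟨2 * 5 * 9 * 23 * 87 * 5152 ^ 5, by positivity, ?_⟩
  intro H hH L hL hL1
  have hHpos : 0 < H := by linarith
  have hl : (1 : ℝ) ≤ L⁻¹ := (one_le_inv₀ hL).2 hL1
  -- choose a form for each pair
  have hch : ∀ p : ℤ × ℤ, ∃ F : ℤ × ℤ × ℤ × ℤ × ℤ, p ∈ multSet H L → ∃ lam : ℝ, L / 2 < lam ∧
      lam ≤ L ∧ Bounds 5152 H lam F.1 F.2.1 F.2.2.1 F.2.2.2.1 F.2.2.2.2 ∧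
      Inv p.1 p.2 F.1 F.2.1 F.2.2.1 F.2.2.2.1 F.2.2.2.2 := by
    intro p
    by_cases hp : p ∈ multSet H L
    · obtain ⟨lam, h1, h2, a, b, c, d, e, hB, hI⟩ := hp
      exact ⟨(a, b, c, d, e), fun _ => ⟨lam, h1, h2, hB, hI⟩⟩
    · exact ⟨(0, 0, 0, 0, 0), fun h => absurd h hp⟩
  choose φ hφ using hch
  set box : Finset (ℤ × ℤ × ℤ × ℤ × ℤ) := (ball (5152 * H * L ^ 4)).erase 0 ×ˢ
    ball (2 * (5152 * H * L ^ 2)) ×ˢ ball (4 * (5152 * H)) ×ˢ ball (11 * (5152 * H * L⁻¹ ^ 2)) ×ˢ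
      ball (43 * (5152 * H * L⁻¹ ^ 4)) with hbox
  have hmem : ∀ p ∈ multSet H L, ∀ n : ℕ, (n : ℝ) * L ^ 2 ≤ 1 → translate (φ p) n ∈ box := by
    intro p hp n hn
    obtain ⟨lam, h1, h2, hB, hI⟩ := hφ p hp
    obtain ⟨ha0, ha, hb, hc, hd, he, _⟩ := dyU_bounds (X := 0) hH hL h1 h2 hB
    obtain ⟨k1, k2, k3, k4⟩ := translate_bounds hHpos hL hn ha hb hc hd he
    simp only [hbox, translate, Finset.mem_product, Finset.mem_erase, mem_ball]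
    push_cast
    exact ⟨⟨ha0, ha⟩, k1, k2, k3, k4⟩
  have hinv : ∀ p ∈ multSet H L, ∀ n : ℕ, invMap (translate (φ p) n) = p := by
    intro p hp n
    obtain ⟨lam, h1, h2, hB, hI⟩ := hφ p hp
    exact invMap_of_Inv (Inv_translate hI n)
  have hfin : (multSet H L).Finite := by
    refine ((box.image invMap).finite_toSet).subset ?_
    intro p hp
    rw [Finset.mem_coe, Finset.mem_image]
    exact ⟨translate (φ p) 0, hmem p hp 0 (by norm_num), hinv p hp 0⟩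
  refine ⟨hfin, ?_⟩
  rw [Set.ncard_eq_toFinset_card _ hfin]
  have key := mult_count hfin.toFinset L (box.card : ℝ) hL (fun p n => translate (φ p) n) ?_ ?_
  · by_cases hbig : 1 ≤ 5152 * H * L ^ 4
    · have hL2 : L ^ 4 ≤ L ^ 2 := pow_le_pow_of_le_one hL.le hL1 (by norm_num)
      have hbig2 : 5152 * H * L ^ 4 ≤ 5152 * H * L ^ 2 :=
        mul_le_mul_of_nonneg_left hL2 (by positivity)
      have hl2 : (1 : ℝ) ≤ L⁻¹ ^ 2 := one_le_pow₀ hl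
      have hl4 : (1 : ℝ) ≤ L⁻¹ ^ 4 := one_le_pow₀ hl
      have hH5 : (1 : ℝ) ≤ 5152 * H := by linarith
      have g2 : 5152 * H * 1 ≤ 5152 * H * L⁻¹ ^ 2 :=
        mul_le_mul_of_nonneg_left hl2 (by positivity)
      have g4 : 5152 * H * 1 ≤ 5152 * H * L⁻¹ ^ 4 :=
        mul_le_mul_of_nonneg_left hl4 (by positivity)
      have c1 := card_ball_erase (5152 * H * L ^ 4) (by positivity)
      have c2 : ((ball (2 * (5152 * H * L ^ 2))).card : ℝ) ≤ 5 * (5152 * H * L ^ 2) := by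
        have := card_ball (2 * (5152 * H * L ^ 2)) (by positivity)
        linarith
      have c3 : ((ball (4 * (5152 * H))).card : ℝ) ≤ 9 * (5152 * H) := by
        have := card_ball (4 * (5152 * H)) (by positivity)
        linarith
      have c4 : ((ball (11 * (5152 * H * L⁻¹ ^ 2))).card : ℝ) ≤ 23 * (5152 * H * L⁻¹ ^ 2) := by
        have := card_ball (11 * (5152 * H * L⁻¹ ^ 2)) (by positivity)
        linarith
      have c5 : ((ball (43 * (5152 * H * L⁻¹ ^ 4))).card : ℝ) ≤ 87 * (5152 * H * L⁻¹ ^ 4) := by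
        have := card_ball (43 * (5152 * H * L⁻¹ ^ 4)) (by positivity)
        linarith
      have hcard : (box.card : ℝ) ≤ 2 * 5 * 9 * 23 * 87 * 5152 ^ 5 * H ^ 5 := by
        rw [hbox, Finset.card_product, Finset.card_product, Finset.card_product,
          Finset.card_product]
        push_cast
        calc (((ball (5152 * H * L ^ 4)).erase 0).card : ℝ) *
            ((ball (2 * (5152 * H * L ^ 2))).card * ((ball (4 * (5152 * H))).card *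
              ((ball (11 * (5152 * H * L⁻¹ ^ 2))).card *
                (ball (43 * (5152 * H * L⁻¹ ^ 4))).card)))
            ≤ (2 * (5152 * H * L ^ 4)) * ((5 * (5152 * H * L ^ 2)) * ((9 * (5152 * H)) *
              ((23 * (5152 * H * L⁻¹ ^ 2)) * (87 * (5152 * H * L⁻¹ ^ 4))))) := by gcongr
          _ = 2 * 5 * 9 * 23 * 87 * 5152 ^ 5 * H ^ 5 * (L * L⁻¹) ^ 6 := by ring
          _ = 2 * 5 * 9 * 23 * 87 * 5152 ^ 5 * H ^ 5 := by
              rw [mul_inv_cancel₀ hL.ne', one_pow, mul_one]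
      calc (hfin.toFinset.card : ℝ) ≤ L ^ 2 * (box.card : ℝ) := key
        _ ≤ L ^ 2 * (2 * 5 * 9 * 23 * 87 * 5152 ^ 5 * H ^ 5) := by gcongr
        _ = _ := by ring
    · have hemp : hfin.toFinset = ∅ := by
        rw [Finset.eq_empty_iff_forall_notMem]
        intro p hp
        rw [Set.Finite.mem_toFinset] at hp
        obtain ⟨lam, h1, h2, a, b, c, d, e, hB, _⟩ := hp
        obtain ⟨ha0, ha, _⟩ := dyU_bounds (X := 0) hH hL h1 h2 hB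
        have h3 : (1 : ℝ) ≤ |(a : ℝ)| := by
          have := Int.one_le_abs ha0
          exact_mod_cast this
        exact hbig (h3.trans ha)
      rw [hemp, Finset.card_empty]
      push_cast
      positivity
  · intro p hp n n' h
    rw [Set.Finite.mem_toFinset] at hp
    obtain ⟨lam, h1, h2, hB, _⟩ := hφ p hp
    have ha0 : (φ p).1 ≠ 0 := hB.1
    have h5 : (φ p).2.1 + n * (φ p).1 = (φ p).2.1 + n' * (φ p).1 :=
      congrArg (fun F : ℤ × ℤ × ℤ × ℤ × ℤ => F.2.1) h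
    have h6 : (n : ℤ) * (φ p).1 = n' * (φ p).1 := by linarith
    have h7 := mul_right_cancel₀ ha0 h6
    exact_mod_cast h7
  · intro S hS
    have hinj : Set.InjOn (fun s : (ℤ × ℤ) × (ℤ × ℤ × ℤ × ℤ × ℤ) => s.2) (S : Set _) := by
      intro s hs t ht hst
      obtain ⟨h1, n, hn, h2⟩ := hS s (Finset.mem_coe.1 hs)
      obtain ⟨h3, m, hm, h4⟩ := hS t (Finset.mem_coe.1 ht)
      rw [Set.Finite.mem_toFinset] at h1 h3
      have h5 := hinv s.1 h1 n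
      have h6 := hinv t.1 h3 m
      have h7 : s.2 = t.2 := hst
      apply Prod.ext _ h7
      rw [← h5, ← h6, ← h2, ← h4, h7]
    have hmap : ∀ s ∈ S, s.2 ∈ box := by
      intro s hs
      obtain ⟨h1, n, hn, h2⟩ := hS s hs
      rw [Set.Finite.mem_toFinset] at h1
      rw [h2]
      exact hmem s.1 h1 n hn
    exact_mod_cast Finset.card_le_card_of_injOn _ hmap hinj

end Pool.Agent.LibHLP
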