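import Pool.Agent.LibHLP.Defs

set_option autoImplicit false

namespace Pool.Agent.LibHLP

/-- The bounds for a reduced quartic form `a X^4 + 4 b X^3 Y + 6 c X^2 Y^2 + 4 d X Y^3 + e Y^4`. -/
def Bounds (C H lam : ℝ) (a b c d e : ℤ) : Prop :=
  a ≠ 0 ∧ |(a : ℝ)| ≤ C * H * lam ^ 4 ∧ |(b : ℝ)| ≤ C * H * lam ^ 2 ∧
    |(c : ℝ)| ≤ C * H ∧ |(d : ℝ)| * lam ^ 2 ≤ C * H ∧ |(e : ℝ)| * lam ^ 4 ≤ C * H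

/-- The form represents `1` at a point `(P, Q)` with `0 < |Q| ≤ X` and `|P| |a| ≤ C H lam^2 |Q|`. -/
def Rep (C H lam X : ℝ) (a b c d e : ℤ) : Prop :=
  ∃ P Q : ℤ, Q ≠ 0 ∧ |(Q : ℝ)| ≤ X ∧ |(P : ℝ)| * |(a : ℝ)| ≤ C * H * lam ^ 2 * |(Q : ℝ)| ∧
    a * P ^ 4 + 4 * b * P ^ 3 * Q + 6 * c * P ^ 2 * Q ^ 2 + 4 * d * P * Q ^ 3 + e * Q ^ 4 = 1

/-- The invariants of the form are `-4 A` and `-4 B`. -/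
def Inv (A B a b c d e : ℤ) : Prop :=
  a * e - 4 * b * d + 3 * c ^ 2 = -4 * A ∧
    a * c * e + 2 * b * c * d - a * d ^ 2 - b ^ 2 * e - c ^ 3 = -4 * B

end Pool.Agent.LibHLP
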