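import Pool.Agent.LibHLP.Defs

set_option autoImplicit false

namespace Pool.Agent.LibHLP

theorem inv_I (x y A : ℤ) (u v : ℤ × ℤ) (h : u.1 * v.2 - v.1 * u.2 = 1) :
    T4 x y A u u u u * T4 x y A v v v v - 4 * T4 x y A u u u v * T4 x y A u v v v
      + 3 * T4 x y A u u v v ^ 2 = -4 * A := by
  obtain ⟨p, q⟩ := u
  obtain ⟨r, t⟩ := v
  simp only at h
  have key : T4 x y A (p, q) (p, q) (p, q) (p, q) * T4 x y A (r, t) (r, t) (r, t) (r, t)
      - 4 * T4 x y A (p, q) (p, q) (p, q) (r, t) * T4 x y A (p, q) (r, t) (r, t) (r, t)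
      + 3 * T4 x y A (p, q) (p, q) (r, t) (r, t) ^ 2 = (p * t - r * q) ^ 4 * (-4 * A) := by
    unfold T4
    ring
  rw [key, h]
  ring

theorem inv_J (x y A B : ℤ) (u v : ℤ × ℤ) (h : u.1 * v.2 - v.1 * u.2 = 1)
    (hE : y ^ 2 = x ^ 3 + A * x + B) :
    T4 x y A u u u u * T4 x y A u u v v * T4 x y A v v v v
      + 2 * T4 x y A u u u v * T4 x y A u u v v * T4 x y A u v v v
      - T4 x y A u u u u * T4 x y A u v v v ^ 2 - T4 x y A u u u v ^ 2 * T4 x y A v v v v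
      - T4 x y A u u v v ^ 3 = -4 * B := by
  obtain ⟨p, q⟩ := u
  obtain ⟨r, t⟩ := v
  simp only at h
  have key : T4 x y A (p, q) (p, q) (p, q) (p, q) * T4 x y A (p, q) (p, q) (r, t) (r, t)
        * T4 x y A (r, t) (r, t) (r, t) (r, t)
      + 2 * T4 x y A (p, q) (p, q) (p, q) (r, t) * T4 x y A (p, q) (p, q) (r, t) (r, t)
        * T4 x y A (p, q) (r, t) (r, t) (r, t)
      - T4 x y A (p, q) (p, q) (p, q) (p, q) * T4 x y A (p, q) (r, t) (r, t) (r, t) ^ 2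
      - T4 x y A (p, q) (p, q) (p, q) (r, t) ^ 2 * T4 x y A (r, t) (r, t) (r, t) (r, t)
      - T4 x y A (p, q) (p, q) (r, t) (r, t) ^ 3
      = (p * t - r * q) ^ 6 * (4 * (x ^ 3 + A * x - y ^ 2)) := by
    unfold T4
    ring
  rw [key, h, hE]
  ring

theorem value_one (x y A : ℤ) (u v : ℤ × ℤ) (h : u.1 * v.2 - v.1 * u.2 = 1) :
    T4 x y A u u u u * v.2 ^ 4 + 4 * T4 x y A u u u v * v.2 ^ 3 * (-u.2)
      + 6 * T4 x y A u u v v * v.2 ^ 2 * (-u.2) ^ 2 + 4 * T4 x y A u v v v * v.2 * (-u.2) ^ 3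
      + T4 x y A v v v v * (-u.2) ^ 4 = 1 := by
  obtain ⟨p, q⟩ := u
  obtain ⟨r, t⟩ := v
  simp only at h
  have key : T4 x y A (p, q) (p, q) (p, q) (p, q) * t ^ 4
      + 4 * T4 x y A (p, q) (p, q) (p, q) (r, t) * t ^ 3 * (-q)
      + 6 * T4 x y A (p, q) (p, q) (r, t) (r, t) * t ^ 2 * (-q) ^ 2
      + 4 * T4 x y A (p, q) (r, t) (r, t) (r, t) * t * (-q) ^ 3
      + T4 x y A (r, t) (r, t) (r, t) (r, t) * (-q) ^ 4 = (p * t - r * q) ^ 4 := by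
    unfold T4
    ring
  rw [key, h]
  ring

end Pool.Agent.LibHLP
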