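import Pool.Agent.LibHLP.Defs

set_option autoImplicit false

namespace Pool.Agent.LibHLP

private lemma noRoot_core (u v A B x H : ℝ) (hH : 1 ≤ H) (hx : 16 * H ^ 4 < x)
    (hA : |A| ≤ H ^ 2) (hB : |B| ≤ H ^ 3) (hv1 : 1 ≤ v ^ 2) (hv2 : v ^ 2 ≤ 31 * H ^ 6)
    (hvu : v ^ 2 = u ^ 3 + A * u + B)
    (hxx : 4 * v ^ 2 * x = u ^ 4 - 2 * A * u ^ 2 - 8 * B * u + A ^ 2) : False := by
  have hA' := abs_le.mp hA
  have hB' := abs_le.mp hB
  have hH2 : 1 ≤ H ^ 2 := one_le_pow₀ hH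
  have hH24 : H ^ 2 ≤ H ^ 4 := pow_le_pow_right₀ hH (by norm_num)
  have hA2 : A ^ 2 ≤ H ^ 4 := by
    have : A ^ 2 = |A| ^ 2 := (sq_abs A).symm
    rw [this]
    calc |A| ^ 2 ≤ (H ^ 2) ^ 2 := pow_le_pow_left₀ (abs_nonneg _) hA 2
      _ = H ^ 4 := by ring
  have hxpos : 0 < x := lt_trans (by positivity) hx
  have hAu : |A * u ^ 2| ≤ H ^ 2 * |u| ^ 2 := by
    rw [abs_mul, abs_pow]
    exact mul_le_mul_of_nonneg_right hA (by positivity)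
  have hBu : |B * u| ≤ H ^ 3 * |u| := by
    rw [abs_mul]
    exact mul_le_mul_of_nonneg_right hB (by positivity)
  have hu4 : u ^ 4 = |u| ^ 4 := by
    have : |u| ^ 4 = |u ^ 4| := (abs_pow u 4).symm
    rw [this, abs_of_nonneg (by positivity)]
  have hup : 4 * v ^ 2 * x ≤ |u| ^ 4 + 2 * (H ^ 2 * |u| ^ 2) + 8 * (H ^ 3 * |u|) + H ^ 4 := by
    rw [hxx, hu4]
    have h1 := (abs_le.mp hAu).1
    have h2 := (abs_le.mp hBu).1
    linarith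
  obtain ⟨w, hw⟩ : ∃ w : ℝ, w = |u| := ⟨_, rfl⟩
  have hw0 : 0 ≤ w := by rw [hw]; exact abs_nonneg u
  rw [← hw] at hup
  rcases le_total w (2 * H) with hu | hu
  · have h1 : 4 * x ≤ 4 * v ^ 2 * x := by nlinarith
    have h2 : w ^ 2 ≤ 4 * H ^ 2 := by nlinarith
    have h4 : w ^ 4 ≤ 16 * H ^ 4 := by
      have : w ^ 4 = (w ^ 2) ^ 2 := by ring
      rw [this]
      calc (w ^ 2) ^ 2 ≤ (4 * H ^ 2) ^ 2 := pow_le_pow_left₀ (by positivity) h2 2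
        _ = _ := by ring
    have h5 : H ^ 2 * w ^ 2 ≤ 4 * H ^ 4 := by
      calc H ^ 2 * w ^ 2 ≤ H ^ 2 * (4 * H ^ 2) := by gcongr
        _ = _ := by ring
    have h6 : H ^ 3 * w ≤ 2 * H ^ 4 := by
      calc H ^ 3 * w ≤ H ^ 3 * (2 * H) := by gcongr
        _ = _ := by ring
    linarith
  · have hH0 : 0 < H := by linarith
    have hw1 : 0 < w := by linarith
    -- `H ≤ w / 2`
    have hHw : H ≤ w / 2 := by linarith
    have hH2w : H ^ 2 ≤ w ^ 2 / 4 := by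
      calc H ^ 2 ≤ (w / 2) ^ 2 := pow_le_pow_left₀ hH0.le hHw 2
        _ = _ := by ring
    have hH3w : H ^ 3 ≤ w ^ 3 / 8 := by
      calc H ^ 3 ≤ (w / 2) ^ 3 := pow_le_pow_left₀ hH0.le hHw 3
        _ = _ := by ring
    have hH4w : H ^ 4 ≤ w ^ 4 / 16 := by
      calc H ^ 4 ≤ (w / 2) ^ 4 := pow_le_pow_left₀ hH0.le hHw 4
        _ = _ := by ring
    -- lower bound for `v ^ 2`
    have hlow : 5 / 8 * w ^ 3 ≤ v ^ 2 := by
      have h1 : |A * u| ≤ w ^ 3 / 4 := by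
        rw [abs_mul, ← hw]
        calc |A| * w ≤ H ^ 2 * w := mul_le_mul_of_nonneg_right hA hw0
          _ ≤ w ^ 2 / 4 * w := mul_le_mul_of_nonneg_right hH2w hw0
          _ = _ := by ring
      have h2 : |B| ≤ w ^ 3 / 8 := hB.trans hH3w
      have h3 : |u ^ 3| = w ^ 3 := by rw [abs_pow, hw]
      have h1' := abs_le.mp h1
      have h2' := abs_le.mp h2
      rcases abs_cases (u ^ 3) with ⟨h4, h5⟩ | ⟨h4, h5⟩
      · rw [hvu]; linarith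
      · exfalso
        have h6 : 0 < w ^ 3 := by positivity
        have h7 : v ^ 2 ≤ -(5 / 8) * w ^ 3 := by rw [hvu]; linarith
        have h8 : 0 ≤ v ^ 2 := by positivity
        linarith
    have h5 : H ^ 2 * w ^ 2 ≤ w ^ 4 / 4 := by
      calc H ^ 2 * w ^ 2 ≤ w ^ 2 / 4 * w ^ 2 := by gcongr
        _ = _ := by ring
    have h6 : H ^ 3 * w ≤ w ^ 4 / 8 := by
      calc H ^ 3 * w ≤ w ^ 3 / 8 * w := by gcongr
        _ = _ := by ring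
    have h7 : 4 * v ^ 2 * x ≤ 41 / 16 * w ^ 4 := by linarith
    have h8 : 5 / 2 * w ^ 3 * x ≤ 41 / 16 * w ^ 4 := by
      have : 5 / 2 * w ^ 3 * x ≤ 4 * v ^ 2 * x := by
        have h9 : 5 / 2 * w ^ 3 ≤ 4 * v ^ 2 := by linarith
        exact mul_le_mul_of_nonneg_right h9 hxpos.le
      linarith
    have h9 : x ≤ 41 / 40 * w := by
      have hw3 : 0 < w ^ 3 := by positivity
      have : w ^ 3 * x ≤ w ^ 3 * (41 / 40 * w) := by nlinarith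
      exact le_of_mul_le_mul_left this hw3
    have h10 : w < 4 * H ^ 2 := by
      by_contra hcon
      push Not at hcon
      have h11 : (4 * H ^ 2) ^ 3 ≤ w ^ 3 := pow_le_pow_left₀ (by positivity) hcon 3
      have h12 : (4 * H ^ 2) ^ 3 = 64 * H ^ 6 := by ring
      have h13 : 0 < H ^ 6 := by positivity
      linarith
    linarith

/-- A point which is twice an integral point is small: the quartic has no rational root. -/
theorem no_root (x y A B : ℤ) (H : ℝ) (hH : 1 ≤ H) (hx : 16 * H ^ 4 < (x : ℝ))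
    (hA : |(A : ℝ)| ≤ H ^ 2) (hB : |(B : ℝ)| ≤ H ^ 3) (hd : 4 * A ^ 3 + 27 * B ^ 2 ≠ 0)
    (hE : y ^ 2 = x ^ 3 + A * x + B) (p q : ℤ) (hpq : IsCoprime p q) (hq : 0 < q) :
    T4 x y A (p, q) (p, q) (p, q) (p, q) ≠ 0 := by
  intro h0
  have hT : p ^ 4 - 6 * x * p ^ 2 * q ^ 2 + 8 * y * p * q ^ 3 - (3 * x ^ 2 + 4 * A) * q ^ 4 = 0 := by
    rw [← h0]; unfold T4; ring
  have hqp : q ∣ p ^ 4 := ⟨6 * x * p ^ 2 * q - 8 * y * p * q ^ 2 + (3 * x ^ 2 + 4 * A) * q ^ 3, by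
    linear_combination hT⟩
  have hq1 : q = 1 := by
    have h1 : IsCoprime (p ^ 4) q := hpq.pow_left
    have h2 : IsUnit q := h1.isUnit_of_dvd' hqp dvd_rfl
    rcases Int.isUnit_iff.mp h2 with h | h
    · exact h
    · omega
  subst hq1
  have hT1 : p ^ 4 - 6 * x * p ^ 2 + 8 * y * p - 3 * x ^ 2 - 4 * A = 0 := by
    linear_combination hT
  have h4 : (4 : ℤ) ∣ (p ^ 2 + x) ^ 2 :=
    ⟨2 * x * p ^ 2 + x ^ 2 - 2 * y * p + A, by linear_combination hT1⟩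
  have h2 : (2 : ℤ) ∣ p ^ 2 + x := by
    have h3 : (2 : ℤ) ∣ (p ^ 2 + x) ^ 2 := dvd_trans ⟨2, by norm_num⟩ h4
    exact Int.prime_two.dvd_of_dvd_pow h3
  obtain ⟨u, hu⟩ : ∃ u : ℤ, x = p ^ 2 - 2 * u := by
    obtain ⟨k, hk⟩ := h2
    exact ⟨p ^ 2 - k, by linear_combination hk⟩
  obtain ⟨v, hv⟩ : ∃ v : ℤ, v = y - p ^ 3 + 3 * u * p := ⟨_, rfl⟩
  have hAv : A = 2 * p * v - 3 * u ^ 2 := by
    have h5 : 4 * A = 4 * (2 * p * v - 3 * u ^ 2) := by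
      rw [hv]
      rw [hu] at hT1
      linear_combination -hT1
    omega
  have hBv : B = v ^ 2 - u * A - u ^ 3 := by
    have h5 : B = y ^ 2 - x ^ 3 - A * x := by linear_combination -hE
    rw [h5]
    have h6 : y = v + p ^ 3 - 3 * u * p := by linear_combination -hv
    rw [hAv, h6, hu]
    ring
  have hv0 : v ≠ 0 := by
    intro hv0
    apply hd
    rw [hBv, hAv, hv0]
    ring
  have hdiv : v ^ 2 ∣ 4 * A ^ 3 + 27 * B ^ 2 := by
    refine ⟨(3 * u ^ 2 + 4 * A) * 4 * p ^ 2 - 27 * (u ^ 3 + A * u - B), ?_⟩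
    have h7 : u ^ 3 + A * u + B = v ^ 2 := by rw [hBv]; ring
    have h8 : 3 * u ^ 2 + A = 2 * p * v := by rw [hAv]; ring
    have h9 : 4 * A ^ 3 + 27 * B ^ 2 = (3 * u ^ 2 + 4 * A) * (3 * u ^ 2 + A) ^ 2 -
        27 * (u ^ 3 + A * u - B) * (u ^ 3 + A * u + B) := by ring
    rw [h9, h7, h8]
    ring
  have hle : v ^ 2 ≤ |4 * A ^ 3 + 27 * B ^ 2| :=
    Int.le_of_dvd (abs_pos.mpr hd) ((dvd_abs _ _).mpr hdiv)
  have hvR2 : (v : ℝ) ^ 2 ≤ 31 * H ^ 6 := by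
    have h10 : ((v : ℝ)) ^ 2 ≤ |4 * (A : ℝ) ^ 3 + 27 * (B : ℝ) ^ 2| := by exact_mod_cast hle
    have h11 : |4 * (A : ℝ) ^ 3 + 27 * (B : ℝ) ^ 2| ≤ 4 * |(A : ℝ)| ^ 3 + 27 * |(B : ℝ)| ^ 2 := by
      refine (abs_add_le _ _).trans ?_
      rw [abs_mul, abs_mul, abs_pow, abs_pow]
      norm_num
    have h12 : |(A : ℝ)| ^ 3 ≤ H ^ 6 := by
      calc |(A : ℝ)| ^ 3 ≤ (H ^ 2) ^ 3 := pow_le_pow_left₀ (abs_nonneg _) hA 3
        _ = _ := by ring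
    have h13 : |(B : ℝ)| ^ 2 ≤ H ^ 6 := by
      calc |(B : ℝ)| ^ 2 ≤ (H ^ 3) ^ 2 := pow_le_pow_left₀ (abs_nonneg _) hB 2
        _ = _ := by ring
    linarith
  have hvR1 : 1 ≤ (v : ℝ) ^ 2 := by
    have : 1 ≤ v ^ 2 := by
      have : 0 < v ^ 2 := by positivity
      omega
    exact_mod_cast this
  have hvu : (v : ℝ) ^ 2 = (u : ℝ) ^ 3 + A * u + B := by
    have : v ^ 2 = u ^ 3 + A * u + B := by rw [hBv]; ring
    exact_mod_cast this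
  have hxx : 4 * (v : ℝ) ^ 2 * x = (u : ℝ) ^ 4 - 2 * A * u ^ 2 - 8 * B * u + A ^ 2 := by
    have : 4 * v ^ 2 * x = u ^ 4 - 2 * A * u ^ 2 - 8 * B * u + A ^ 2 := by
      rw [hBv, hAv, hu]
      ring
    exact_mod_cast this
  exact noRoot_core u v A B x H hH hx hA hB hvR1 hvR2 hvu hxx

end Pool.Agent.LibHLP
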