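import Pool.Agent.LibHLP.Fibre

set_option autoImplicit false

namespace Pool.Agent.LibHLP

/-- the integers at distance at most `ρ` from `c` -/
private noncomputable def near (c ρ : ℝ) : Finset ℤ := Finset.Icc ⌈c - ρ⌉ ⌊c + ρ⌋

private theorem mem_near (c ρ : ℝ) (n : ℤ) (h : |(n : ℝ) - c| ≤ ρ) : n ∈ near c ρ := by
  rw [abs_le] at h
  rw [near, Finset.mem_Icc]
  exact ⟨Int.ceil_le.2 (by linarith [h.1]), Int.le_floor.2 (by linarith [h.2])⟩

private theorem card_near (c ρ : ℝ) (hρ : 0 ≤ ρ) : ((near c ρ).card : ℝ) ≤ 2 * ρ + 1 := by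
  rw [near, Int.card_Icc]
  by_cases h : 0 ≤ ⌊c + ρ⌋ + 1 - ⌈c - ρ⌉
  · have h1 : (((⌊c + ρ⌋ + 1 - ⌈c - ρ⌉).toNat : ℤ) : ℝ) = (⌊c + ρ⌋ : ℝ) + 1 - (⌈c - ρ⌉ : ℝ) := by
      rw [Int.toNat_of_nonneg h]
      push_cast
      ring
    have h2 : (((⌊c + ρ⌋ + 1 - ⌈c - ρ⌉).toNat : ℕ) : ℝ)
        = (⌊c + ρ⌋ : ℝ) + 1 - (⌈c - ρ⌉ : ℝ) := by
      rw [← h1]
      exact (Int.cast_natCast _).symm
    rw [h2]
    have h3 := Int.floor_le (c + ρ)
    have h4 := Int.le_ceil (c - ρ)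
    linarith
  · rw [Int.toNat_of_nonpos (by omega)]
    push_cast
    linarith

/-- the pairs with a point of abscissa `x`, all `y` in a given set -/
private noncomputable def pairs (H : ℝ) (Y : Finset ℤ) (x : ℤ) (c : ℤ → ℝ) (ρ : ℝ) :
    Finset (ℤ × ℤ) :=
  Y.biUnion fun y => (near (c y) ρ).image fun A => (A, y ^ 2 - x ^ 3 - A * x)

private theorem card_pairs (H : ℝ) (Y : Finset ℤ) (x : ℤ) (c : ℤ → ℝ) (ρ : ℝ) (hρ : 0 ≤ ρ) :
    ((pairs H Y x c ρ).card : ℝ) ≤ Y.card * (2 * ρ + 1) := by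
  have h1 : (pairs H Y x c ρ).card ≤ ∑ y ∈ Y, (near (c y) ρ).card := by
    refine Finset.card_biUnion_le.trans ?_
    exact Finset.sum_le_sum fun y _ => Finset.card_image_le
  calc ((pairs H Y x c ρ).card : ℝ) ≤ ((∑ y ∈ Y, (near (c y) ρ).card : ℕ) : ℝ) := by
        exact_mod_cast h1
    _ = ∑ y ∈ Y, ((near (c y) ρ).card : ℝ) := by push_cast; rfl
    _ ≤ ∑ _y ∈ Y, (2 * ρ + 1) := Finset.sum_le_sum fun y _ => card_near _ _ hρ
    _ = Y.card * (2 * ρ + 1) := by rw [Finset.sum_const, nsmul_eq_mul]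

private theorem mem_pairs (H : ℝ) (Y : Finset ℤ) (x : ℤ) (c : ℤ → ℝ) (ρ : ℝ) (A B y : ℤ)
    (hy : y ∈ Y) (hA : |(A : ℝ) - c y| ≤ ρ) (h : y ^ 2 = x ^ 3 + A * x + B) :
    (A, B) ∈ pairs H Y x c ρ := by
  rw [pairs, Finset.mem_biUnion]
  refine ⟨y, hy, Finset.mem_image.2 ⟨A, mem_near _ _ _ hA, ?_⟩⟩
  rw [Prod.mk.injEq]
  exact ⟨rfl, by rw [h]; ring⟩

/-- the values of `y` for a given `x > 2 H` -/
private noncomputable def Yx (H : ℝ) (x : ℤ) : Finset ℤ :=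
  near (Real.sqrt x ^ 3) (2 * H ^ 2 / Real.sqrt x) ∪
    near (-(Real.sqrt x ^ 3)) (2 * H ^ 2 / Real.sqrt x)

private theorem large_fibre (H : ℝ) (hH : 1 ≤ H) (x : ℤ) (hx : 2 * H < x)
    (hx2 : (x : ℝ) ≤ 16 * H ^ 4) :
    ((pairs H (Yx H x) x (fun y => ((y : ℝ) ^ 2 - x ^ 3) / x) (H ^ 3 / x)).card : ℝ)
      ≤ 96 * Real.sqrt H ^ 9 * (1 / x) := by
  have hx0 : (0 : ℝ) < x := by linarith
  set r := Real.sqrt x with hr
  set h := Real.sqrt H with hh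
  have hr2 : r ^ 2 = x := Real.sq_sqrt hx0.le
  have hh2 : h ^ 2 = H := Real.sq_sqrt (by linarith)
  have hrpos : 0 < r := Real.sqrt_pos.2 hx0
  have hh1 : 1 ≤ h := Real.one_le_sqrt.2 hH
  have hrh : h ≤ r := Real.sqrt_le_sqrt (by linarith)
  have hr4 : r ≤ 4 * H ^ 2 := by
    have h1 : r ^ 2 ≤ (4 * H ^ 2) ^ 2 := by rw [hr2]; linarith [hx2]
    exact le_of_pow_le_pow_left₀ (by norm_num) (by positivity) h1
  have hYcard : ((Yx H x).card : ℝ) ≤ 16 * H ^ 2 / r := by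
    have h1 : ((Yx H x).card : ℝ) ≤ (2 * (2 * H ^ 2 / r) + 1) + (2 * (2 * H ^ 2 / r) + 1) := by
      have h2 : ((Yx H x).card : ℝ) ≤ ((near (r ^ 3) (2 * H ^ 2 / r)).card : ℝ)
          + ((near (-(r ^ 3)) (2 * H ^ 2 / r)).card : ℝ) := by
        exact_mod_cast Finset.card_union_le _ _
      have h3 := card_near (r ^ 3) (2 * H ^ 2 / r) (by positivity)
      have h4 := card_near (-(r ^ 3)) (2 * H ^ 2 / r) (by positivity)
      linarith
    have h5 : 1 ≤ 4 * H ^ 2 / r := by rw [le_div_iff₀ hrpos]; linarith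
    calc ((Yx H x).card : ℝ) ≤ (2 * (2 * H ^ 2 / r) + 1) + (2 * (2 * H ^ 2 / r) + 1) := h1
      _ = 2 * (4 * H ^ 2 / r) + 2 := by ring
      _ ≤ 2 * (4 * H ^ 2 / r) + 2 * (4 * H ^ 2 / r) := by linarith
      _ = 16 * H ^ 2 / r := by ring
  refine (card_pairs H (Yx H x) x _ (H ^ 3 / x) (by positivity)).trans ?_
  have h6 : (Yx H x).card * (2 * (H ^ 3 / x) + 1) ≤ (16 * H ^ 2 / r) * (2 * (H ^ 3 / x) + 1) :=
    mul_le_mul_of_nonneg_right hYcard (by positivity)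
  refine h6.trans ?_
  -- first part
  have hH2 : H ^ 2 = h ^ 4 := by rw [← hh2]; ring
  have hH3 : H ^ 3 = h ^ 6 := by rw [← hh2]; ring
  have hr4' : r ≤ 4 * h ^ 4 := by rw [← hH2]; exact hr4
  rw [hH2, hH3, ← hr2]
  have e1 : 16 * h ^ 4 / r * (2 * (h ^ 6 / r ^ 2) + 1)
      = (32 * h ^ 10 / r + 16 * h ^ 4 * r) * (1 / r ^ 2) := by
    field_simp
    ring
  rw [e1]
  refine mul_le_mul_of_nonneg_right ?_ (by positivity)
  have e2 : 32 * h ^ 10 / r ≤ 32 * h ^ 9 := by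
    rw [div_le_iff₀ hrpos]
    have : h ^ 9 * h ≤ h ^ 9 * r := mul_le_mul_of_nonneg_left hrh (by positivity)
    calc 32 * h ^ 10 = 32 * (h ^ 9 * h) := by ring
      _ ≤ 32 * (h ^ 9 * r) := by linarith
      _ = 32 * h ^ 9 * r := by ring
  have e3 : 16 * h ^ 4 * r ≤ 64 * h ^ 9 := by
    have e4 : h ^ 8 ≤ h ^ 9 := pow_le_pow_right₀ hh1 (by norm_num)
    calc 16 * h ^ 4 * r ≤ 16 * h ^ 4 * (4 * h ^ 4) :=
          mul_le_mul_of_nonneg_left hr4' (by positivity)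
      _ = 64 * h ^ 8 := by ring
      _ ≤ 64 * h ^ 9 := by linarith
  linarith

private theorem mem_large (H : ℝ) (hH : 1 ≤ H) (x A B y : ℤ) (hx : 2 * H < x)
    (hA : |(A : ℝ)| ≤ H ^ 2) (hB : |(B : ℝ)| ≤ H ^ 3) (h : y ^ 2 = x ^ 3 + A * x + B) :
    (A, B) ∈ pairs H (Yx H x) x (fun y => ((y : ℝ) ^ 2 - x ^ 3) / x) (H ^ 3 / x) := by
  have hx0 : (0 : ℝ) < x := by linarith
  have hR : (y : ℝ) ^ 2 = x ^ 3 + A * x + B := by exact_mod_cast h
  set r := Real.sqrt x with hr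
  have hr2 : r ^ 2 = x := Real.sq_sqrt hx0.le
  have hrpos : 0 < r := Real.sqrt_pos.2 hx0
  have hyr : |(y : ℝ) ^ 2 - x ^ 3| ≤ 2 * H ^ 2 * x := by
    have h1 : (y : ℝ) ^ 2 - x ^ 3 = A * x + B := by rw [hR]; ring
    rw [h1]
    have h2 : |(A : ℝ) * x| ≤ H ^ 2 * x := by
      rw [abs_mul, abs_of_pos hx0]
      exact mul_le_mul_of_nonneg_right hA hx0.le
    have h3 : |(B : ℝ)| ≤ H ^ 2 * x := by
      have : H ^ 3 ≤ H ^ 2 * x := by
        have : H ^ 2 * H ≤ H ^ 2 * x := mul_le_mul_of_nonneg_left (by linarith) (by positivity)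
        calc H ^ 3 = H ^ 2 * H := by ring
          _ ≤ _ := this
      linarith
    have := abs_add_le ((A : ℝ) * x) B
    linarith
  have hx3 : (x : ℝ) ^ 3 = (r ^ 3) ^ 2 := by rw [← hr2]; ring
  have hkey : |(y : ℝ) ^ 2 - (r ^ 3) ^ 2| ≤ 2 * H ^ 2 * r ^ 2 := by
    rw [← hx3, hr2]; exact hyr
  have hr3 : 0 < r ^ 3 := by positivity
  refine mem_pairs H _ x _ _ A B y ?_ ?_ h
  · -- y is close to a square root
    rw [Yx, Finset.mem_union, ← hr]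
    rcases le_total 0 (y : ℝ) with hy | hy
    · left
      apply mem_near
      have h1 : |(y : ℝ) ^ 2 - (r ^ 3) ^ 2| = |(y : ℝ) - r ^ 3| * (y + r ^ 3) := by
        rw [sq_sub_sq, abs_mul, abs_of_pos (by linarith : (0 : ℝ) < y + r ^ 3)]
        ring
      rw [h1] at hkey
      rw [le_div_iff₀ hrpos]
      have h2 : |(y : ℝ) - r ^ 3| * r ^ 3 ≤ |(y : ℝ) - r ^ 3| * (y + r ^ 3) :=
        mul_le_mul_of_nonneg_left (by linarith) (abs_nonneg _)
      have h3 : (|(y : ℝ) - r ^ 3| * r) * r ^ 2 ≤ (2 * H ^ 2) * r ^ 2 := by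
        calc (|(y : ℝ) - r ^ 3| * r) * r ^ 2 = |(y : ℝ) - r ^ 3| * r ^ 3 := by ring
          _ ≤ _ := h2
          _ ≤ _ := hkey
      exact le_of_mul_le_mul_right h3 (by positivity)
    · right
      apply mem_near
      have h1 : |(y : ℝ) ^ 2 - (r ^ 3) ^ 2| = |(y : ℝ) - -(r ^ 3)| * (-y + r ^ 3) := by
        have : (y : ℝ) ^ 2 - (r ^ 3) ^ 2 = -((y - -(r ^ 3)) * (-y + r ^ 3)) := by ring
        rw [this, abs_neg, abs_mul, abs_of_pos (by linarith : (0 : ℝ) < -y + r ^ 3)]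
      rw [h1] at hkey
      rw [le_div_iff₀ hrpos]
      have h2 : |(y : ℝ) - -(r ^ 3)| * r ^ 3 ≤ |(y : ℝ) - -(r ^ 3)| * (-y + r ^ 3) :=
        mul_le_mul_of_nonneg_left (by linarith) (abs_nonneg _)
      have h3 : (|(y : ℝ) - -(r ^ 3)| * r) * r ^ 2 ≤ (2 * H ^ 2) * r ^ 2 := by
        calc (|(y : ℝ) - -(r ^ 3)| * r) * r ^ 2 = |(y : ℝ) - -(r ^ 3)| * r ^ 3 := by ring
          _ ≤ _ := h2
          _ ≤ _ := hkey
      exact le_of_mul_le_mul_right h3 (by positivity)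
  · have h1 : (A : ℝ) - ((y : ℝ) ^ 2 - x ^ 3) / x = -(B / x) := by
      rw [hR]
      field_simp
      ring
    show |(A : ℝ) - ((y : ℝ) ^ 2 - x ^ 3) / x| ≤ H ^ 3 / x
    rw [h1, abs_neg, abs_div, abs_of_pos hx0]
    exact div_le_div_of_nonneg_right hB hx0.le

private theorem log_bound (H : ℝ) (hH : 1 ≤ H) (M : ℕ) (hM : (M : ℝ) ≤ 16 * H ^ 4)
    (hM0 : 0 < M) : 1 + Real.log M ≤ 44 * H ^ (1 / 10 : ℝ) := by
  have hHpos : 0 < H := by linarith
  have h1 : Real.log M ≤ Real.log (16 * H ^ 4) :=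
    Real.log_le_log (by exact_mod_cast hM0) hM
  have h2 : Real.log (16 * H ^ 4) = 4 * Real.log 2 + 4 * Real.log H := by
    rw [Real.log_mul (by norm_num) (by positivity), Real.log_pow,
      show (16 : ℝ) = 2 ^ 4 by norm_num, Real.log_pow]
    push_cast
    ring
  have h3 : Real.log 2 ≤ 3 / 4 := by
    have := Real.log_two_lt_d9
    linarith
  have h4 : Real.log H ≤ H ^ (1 / 10 : ℝ) / (1 / 10) :=
    Real.log_le_rpow_div hHpos.le (by norm_num)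
  have h5 : (1 : ℝ) ≤ H ^ (1 / 10 : ℝ) := Real.one_le_rpow hH (by norm_num)
  have h6 : H ^ (1 / 10 : ℝ) / (1 / 10) = 10 * H ^ (1 / 10 : ℝ) := by ring
  rw [h6] at h4
  linarith

/-- Few curves have an integral point with `x ≤ 16 H^4`. -/
theorem small_count : ∃ K : ℝ, 0 ≤ K ∧ ∀ H : ℝ, 1 ≤ H →
    {p : ℤ × ℤ | |(p.1 : ℝ)| ≤ H ^ 2 ∧ |(p.2 : ℝ)| ≤ H ^ 3 ∧
      ∃ x y : ℤ, y ^ 2 = x ^ 3 + p.1 * x + p.2 ∧ (x : ℝ) ≤ 16 * H ^ 4}.Finite ∧
    ({p : ℤ × ℤ | |(p.1 : ℝ)| ≤ H ^ 2 ∧ |(p.2 : ℝ)| ≤ H ^ 3 ∧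
      ∃ x y : ℤ, y ^ 2 = x ^ 3 + p.1 * x + p.2 ∧ (x : ℝ) ≤ 16 * H ^ 4}.ncard : ℝ)
        ≤ K * H ^ (499 / 100 : ℝ) := by
  classical
  refine ⟨135 + 96 * 44, by norm_num, ?_⟩
  intro H hH
  have hHpos : 0 < H := by linarith
  set h := Real.sqrt H with hh
  have hh2 : h ^ 2 = H := Real.sq_sqrt (by linarith)
  have hh1 : 1 ≤ h := Real.one_le_sqrt.2 hH
  set M : ℕ := ⌊16 * H ^ 4⌋₊ with hM
  have hM1 : (M : ℝ) ≤ 16 * H ^ 4 := Nat.floor_le (by positivity)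
  have hM0 : 0 < M := Nat.floor_pos.2 (by
    have : (1 : ℝ) ≤ H ^ 4 := one_le_pow₀ hH
    linarith)
  -- the two finite sets
  set T1 : Finset (ℤ × ℤ) := (near 0 (2 * H)).biUnion fun x =>
    pairs H (near 0 (4 * h ^ 3)) x (fun _ => 0) (H ^ 2) with hT1
  set T2 : Finset (ℤ × ℤ) := ((Finset.range M).filter fun n : ℕ => 2 * H < ((n + 1 : ℕ) : ℝ)).biUnion
    fun n => pairs H (Yx H ((n + 1 : ℕ) : ℤ)) ((n + 1 : ℕ) : ℤ)
      (fun y => ((y : ℝ) ^ 2 - (((n + 1 : ℕ) : ℤ) : ℝ) ^ 3) / (((n + 1 : ℕ) : ℤ) : ℝ))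
      (H ^ 3 / (((n + 1 : ℕ) : ℤ) : ℝ)) with hT2
  set S := {p : ℤ × ℤ | |(p.1 : ℝ)| ≤ H ^ 2 ∧ |(p.2 : ℝ)| ≤ H ^ 3 ∧
      ∃ x y : ℤ, y ^ 2 = x ^ 3 + p.1 * x + p.2 ∧ (x : ℝ) ≤ 16 * H ^ 4} with hS
  have hsub : S ⊆ ((T1 ∪ T2 : Finset (ℤ × ℤ)) : Set (ℤ × ℤ)) := by
    rintro ⟨A, B⟩ ⟨hA, hB, x, y, hxy, hx16⟩
    simp only at hA hB hxy
    rw [Finset.mem_coe, Finset.mem_union]
    have hR : (y : ℝ) ^ 2 = x ^ 3 + A * x + B := by exact_mod_cast hxy
    by_cases hx : 2 * H < x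
    · right
      have hx0 : (0 : ℝ) < x := by linarith
      have hx0' : 0 < x := by exact_mod_cast hx0
      obtain ⟨n, hn⟩ : ∃ n : ℕ, x = ((n + 1 : ℕ) : ℤ) := ⟨(x - 1).toNat, by omega⟩
      rw [hT2, Finset.mem_biUnion]
      refine ⟨n, ?_, ?_⟩
      · rw [Finset.mem_filter, Finset.mem_range]
        constructor
        · have h1 : ((n + 1 : ℕ) : ℝ) ≤ 16 * H ^ 4 := by
            have : ((x : ℤ) : ℝ) = ((n + 1 : ℕ) : ℝ) := by rw [hn]; simp
            rw [← this]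
            exact hx16
          exact Nat.le_floor h1
        · have : ((x : ℤ) : ℝ) = ((n + 1 : ℕ) : ℝ) := by rw [hn]; simp
          rw [← this]
          exact hx
      · have := mem_large H hH x A B y hx hA hB hxy
        rw [hn] at this
        exact this
    · left
      have hxle : (x : ℝ) ≤ 2 * H := not_lt.1 hx
      have hxge : -(2 * H) ≤ (x : ℝ) := by
        by_contra hc
        have hc' : (x : ℝ) < -(2 * H) := not_le.1 hc
        set t : ℝ := -x with ht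
        have ht1 : 2 * H < t := by rw [ht]; linarith
        have hxt : (x : ℝ) = -t := by rw [ht]; ring
        have h1 : 0 ≤ (y : ℝ) ^ 2 := sq_nonneg _
        rw [hR, hxt] at h1
        rw [abs_le] at hA hB
        have h2 : -(A : ℝ) * t ≤ H ^ 2 * t := by
          have h3 : -(A : ℝ) ≤ H ^ 2 := by linarith [hA.1]
          exact mul_le_mul_of_nonneg_right h3 (by linarith)
        have h4 : t ^ 3 > 4 * H ^ 2 * t := by
          have h5 : t ^ 2 > 4 * H ^ 2 := by nlinarith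
          have h6 : 0 < t := by linarith
          nlinarith
        have h7 : H ^ 2 * t > 2 * H ^ 3 := by
          have h8 : 0 < H ^ 2 := by positivity
          nlinarith
        nlinarith [hB.2]
      rw [hT1, Finset.mem_biUnion]
      refine ⟨x, ?_, ?_⟩
      · apply mem_near
        rw [sub_zero, abs_le]
        exact ⟨hxge, hxle⟩
      · refine mem_pairs H _ x _ _ A B y ?_ ?_ hxy
        · apply mem_near
          rw [sub_zero]
          have h1 : (y : ℝ) ^ 2 ≤ 11 * H ^ 3 := by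
            rw [hR]
            rw [abs_le] at hA hB
            have h2 : (x : ℝ) ^ 3 ≤ 8 * H ^ 3 := by
              have : (x : ℝ) ^ 3 ≤ (2 * H) ^ 3 := Odd.strictMono_pow (by decide) |>.monotone hxle
              calc (x : ℝ) ^ 3 ≤ (2 * H) ^ 3 := this
                _ = 8 * H ^ 3 := by ring
            have h3 : (A : ℝ) * x ≤ 2 * H ^ 3 := by
              have h4 : |(A : ℝ) * x| ≤ H ^ 2 * (2 * H) := by
                rw [abs_mul]
                refine mul_le_mul (abs_le.2 hA) (abs_le.2 ⟨hxge, hxle⟩) (abs_nonneg _) (by positivity)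
              calc (A : ℝ) * x ≤ |(A : ℝ) * x| := le_abs_self _
                _ ≤ H ^ 2 * (2 * H) := h4
                _ = 2 * H ^ 3 := by ring
            linarith [hB.2]
          have h5 : |(y : ℝ)| ^ 2 ≤ (4 * h ^ 3) ^ 2 := by
            rw [sq_abs]
            calc (y : ℝ) ^ 2 ≤ 11 * H ^ 3 := h1
              _ ≤ 16 * H ^ 3 := by
                have : 0 ≤ H ^ 3 := by positivity
                linarith
              _ = (4 * h ^ 3) ^ 2 := by rw [← hh2]; ring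
          exact le_of_pow_le_pow_left₀ (by norm_num) (by positivity) h5
        · simpa using hA
  refine ⟨(Finset.finite_toSet _).subset hsub, ?_⟩
  have hle : (S.ncard : ℝ) ≤ T1.card + T2.card := by
    have h1 := Set.ncard_le_ncard hsub (Finset.finite_toSet _)
    rw [Set.ncard_coe_finset] at h1
    exact_mod_cast h1.trans (Finset.card_union_le _ _)
  have hc1 : (T1.card : ℝ) ≤ 135 * h ^ 9 := by
    have h1 : (T1.card : ℝ) ≤ ∑ x ∈ near 0 (2 * H),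
        ((pairs H (near 0 (4 * h ^ 3)) x (fun _ => 0) (H ^ 2)).card : ℝ) := by
      exact_mod_cast Finset.card_biUnion_le
    have h2 : ∀ x ∈ near 0 (2 * H),
        ((pairs H (near 0 (4 * h ^ 3)) x (fun _ => 0) (H ^ 2)).card : ℝ) ≤ 27 * h ^ 7 := by
      intro x _
      refine (card_pairs H _ x _ _ (by positivity)).trans ?_
      have h3 := card_near 0 (4 * h ^ 3) (by positivity)
      have h4 : (1 : ℝ) ≤ h ^ 3 := one_le_pow₀ hh1
      have h5 : (1 : ℝ) ≤ H ^ 2 := one_le_pow₀ hH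
      calc ((near 0 (4 * h ^ 3)).card : ℝ) * (2 * H ^ 2 + 1) ≤ (9 * h ^ 3) * (3 * H ^ 2) :=
            mul_le_mul (by linarith) (by linarith) (by positivity) (by positivity)
        _ = 27 * h ^ 7 := by rw [← hh2]; ring
    refine (h1.trans (Finset.sum_le_sum h2)).trans ?_
    rw [Finset.sum_const, nsmul_eq_mul]
    have h3 := card_near 0 (2 * H) (by positivity)
    calc ((near 0 (2 * H)).card : ℝ) * (27 * h ^ 7) ≤ (5 * H) * (27 * h ^ 7) :=
          mul_le_mul_of_nonneg_right (by linarith) (by positivity)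
      _ = 135 * h ^ 9 := by rw [← hh2]; ring
  have hc2 : (T2.card : ℝ) ≤ 96 * h ^ 9 * (44 * H ^ (1 / 10 : ℝ)) := by
    have h1 : (T2.card : ℝ) ≤ ∑ n ∈ (Finset.range M).filter fun n : ℕ => 2 * H < ((n + 1 : ℕ) : ℝ),
        ((pairs H (Yx H ((n + 1 : ℕ) : ℤ)) ((n + 1 : ℕ) : ℤ)
          (fun y => ((y : ℝ) ^ 2 - (((n + 1 : ℕ) : ℤ) : ℝ) ^ 3) / (((n + 1 : ℕ) : ℤ) : ℝ))
          (H ^ 3 / (((n + 1 : ℕ) : ℤ) : ℝ))).card : ℝ) := by
      refine (Nat.cast_le.2 Finset.card_biUnion_le).trans (le_of_eq ?_)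
      exact Nat.cast_sum _ _
    have h2 : ∀ n ∈ (Finset.range M).filter fun n : ℕ => 2 * H < ((n + 1 : ℕ) : ℝ),
        ((pairs H (Yx H ((n + 1 : ℕ) : ℤ)) ((n + 1 : ℕ) : ℤ)
          (fun y => ((y : ℝ) ^ 2 - (((n + 1 : ℕ) : ℤ) : ℝ) ^ 3) / (((n + 1 : ℕ) : ℤ) : ℝ))
          (H ^ 3 / (((n + 1 : ℕ) : ℤ) : ℝ))).card : ℝ)
          ≤ 96 * h ^ 9 * (((n : ℝ) + 1)⁻¹) := by
      intro n hn
      rw [Finset.mem_filter, Finset.mem_range] at hn
      have h3 : ((((n + 1 : ℕ) : ℤ)) : ℝ) = (n : ℝ) + 1 := by push_cast; ring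
      have h4 := large_fibre H hH ((n + 1 : ℕ) : ℤ) (by
        have := hn.2
        rw [h3]
        push_cast at this
        exact this) (by
        rw [h3]
        have h5 : ((n + 1 : ℕ) : ℝ) ≤ M := by exact_mod_cast hn.1
        push_cast at h5
        linarith)
      rw [← hh] at h4
      refine h4.trans (le_of_eq ?_)
      rw [h3, one_div]
    refine (h1.trans (Finset.sum_le_sum h2)).trans ?_
    rw [← Finset.mul_sum]
    refine mul_le_mul_of_nonneg_left ?_ (by positivity)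
    refine le_trans ?_ (log_bound H hH M hM1 hM0)
    refine le_trans ?_ (harmonic_le_one_add_log M)
    have h3 : ((harmonic M : ℚ) : ℝ) = ∑ n ∈ Finset.range M, ((n : ℝ) + 1)⁻¹ := by
      rw [harmonic]
      push_cast
      rfl
    rw [h3]
    exact Finset.sum_le_sum_of_subset_of_nonneg (Finset.filter_subset _ _)
      (fun _ _ _ => by positivity)
  have hh9 : h ^ 9 = H ^ (9 / 2 : ℝ) := by
    rw [hh, Real.sqrt_eq_rpow, ← Real.rpow_natCast, ← Real.rpow_mul hHpos.le]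
    norm_num
  have hp1 : h ^ 9 ≤ H ^ (499 / 100 : ℝ) := by
    rw [hh9]
    exact Real.rpow_le_rpow_of_exponent_le hH (by norm_num)
  have hp2 : h ^ 9 * H ^ (1 / 10 : ℝ) ≤ H ^ (499 / 100 : ℝ) := by
    rw [hh9, ← Real.rpow_add hHpos]
    exact Real.rpow_le_rpow_of_exponent_le hH (by norm_num)
  calc (S.ncard : ℝ) ≤ T1.card + T2.card := hle
    _ ≤ 135 * h ^ 9 + 96 * h ^ 9 * (44 * H ^ (1 / 10 : ℝ)) := add_le_add hc1 hc2
    _ = 135 * h ^ 9 + 96 * 44 * (h ^ 9 * H ^ (1 / 10 : ℝ)) := by ring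
    _ ≤ 135 * H ^ (499 / 100 : ℝ) + 96 * 44 * H ^ (499 / 100 : ℝ) := by linarith
    _ = (135 + 96 * 44) * H ^ (499 / 100 : ℝ) := by ring

end Pool.Agent.LibHLP
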