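import Pool.Agent.LibHLP.DyadicV
import Pool.Agent.LibHLP.MultU
import Pool.Agent.LibHLP.Small
import Pool.Agent.LibHLP.ReductionU

set_option autoImplicit false

namespace Pool.Agent.LibHLP

theorem lam_inv_le {H lam : ℝ} {a b c d e : ℤ} (hH : 1 ≤ H) (h0 : 0 < lam)
    (h1 : lam ≤ 1) (h : Bounds 5152 H lam a b c d e) : 1 / lam ≤ 5152 * H := by
  obtain ⟨ha, ha2, -⟩ := h
  have h2 : (1 : ℝ) ≤ |(a : ℝ)| := by
    have := Int.one_le_abs ha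
    exact_mod_cast this
  have h3 : lam ^ 4 ≤ lam := by
    have := pow_le_pow_of_le_one h0.le h1 (show 1 ≤ 4 by norm_num)
    simpa using this
  have h4 : 5152 * H * lam ^ 4 ≤ 5152 * H * lam := by gcongr
  rw [div_le_iff₀ h0]
  linarith

/-- The number of dyadic ranges. -/
theorem dyadic_number : ∃ c0 : ℝ, 0 ≤ c0 ∧ ∀ H : ℝ, 1 ≤ H → ∃ n : ℕ,
    (n : ℝ) ≤ c0 * H ^ (1 / 249000 : ℝ) ∧
    ∀ (lam : ℝ) (a b c d e : ℤ), 0 < lam → lam ≤ 1 → Bounds 5152 H lam a b c d e →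
      ∃ i < n, (1 / 2 : ℝ) ^ i / 2 < lam ∧ lam ≤ (1 / 2 : ℝ) ^ i := by
  obtain ⟨c0, hc0⟩ : ∃ c0 : ℝ, c0 = Real.log 5152 / Real.log 2 + 1 + 249000 / Real.log 2 :=
    ⟨_, rfl⟩
  have hl2 : 0 < Real.log 2 := Real.log_pos (by norm_num)
  have hl5 : 0 < Real.log 5152 := Real.log_pos (by norm_num)
  have hc00 : 0 ≤ c0 := by rw [hc0]; positivity
  refine ⟨c0, hc00, ?_⟩
  intro H hH1
  have hHpos : 0 < H := by linarith
  obtain ⟨n, hn⟩ : ∃ n : ℕ, n = ⌊Real.log (5152 * H) / Real.log 2⌋₊ + 1 := ⟨_, rfl⟩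
  have hlog0 : 0 ≤ Real.log (5152 * H) / Real.log 2 := by
    apply div_nonneg _ hl2.le
    exact Real.log_nonneg (by linarith)
  refine ⟨n, ?_, ?_⟩
  · have h1 : (n : ℝ) ≤ Real.log (5152 * H) / Real.log 2 + 1 := by
      rw [hn]; push_cast
      have := Nat.floor_le hlog0
      linarith
    have h2 : Real.log (5152 * H) = Real.log 5152 + Real.log H :=
      Real.log_mul (by norm_num) hHpos.ne'
    have h3 : Real.log H ≤ H ^ (1 / 249000 : ℝ) / (1 / 249000) :=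
      Real.log_le_rpow_div hHpos.le (by norm_num)
    have h4 : (1 : ℝ) ≤ H ^ (1 / 249000 : ℝ) := Real.one_le_rpow hH1 (by norm_num)
    have h5 : Real.log (5152 * H) / Real.log 2 ≤
        Real.log 5152 / Real.log 2 * H ^ (1 / 249000 : ℝ) +
          249000 / Real.log 2 * H ^ (1 / 249000 : ℝ) := by
      rw [h2, add_div]
      apply add_le_add
      · exact le_mul_of_one_le_right (by positivity) h4
      · rw [div_mul_eq_mul_div]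
        apply div_le_div_of_nonneg_right _ hl2.le
        linarith
    rw [hc0]
    nlinarith
  · intro lam a b c d e h0 h1 hg
    have h2 := lam_inv_le hH1 h0 h1 hg
    have h3 : 1 ≤ 1 / lam := by rw [le_div_iff₀ h0]; linarith
    obtain ⟨i, hi1, hi2⟩ := exists_nat_pow_near h3 (show (1 : ℝ) < 2 by norm_num)
    refine ⟨i, ?_, ?_, ?_⟩
    · rw [hn, Nat.lt_add_one_iff]
      apply Nat.le_floor
      rw [le_div_iff₀ hl2, ← Real.log_pow]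
      apply Real.log_le_log (by positivity)
      exact hi1.trans h2
    · rw [div_lt_iff₀ h0] at hi2
      rw [one_div, inv_pow, div_lt_iff₀ (by norm_num : (0 : ℝ) < 2), inv_lt_iff_one_lt_mul₀
        (by positivity)]
      calc (1 : ℝ) < 2 ^ (i + 1) * lam := hi2
        _ = lam * 2 * 2 ^ i := by ring
    · rw [le_div_iff₀ h0] at hi1
      rw [one_div, inv_pow]
      rw [le_inv_comm₀ h0 (by positivity), ← one_div, le_div_iff₀ h0]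
      linarith

/-- The curves with an integral point with `log |x| ≤ H^(1/250)`. -/
theorem final_countU : ∃ K : ℝ, ∀ H : ℝ, 1 ≤ H →
    {p : ℤ × ℤ | |(p.1 : ℝ)| ≤ H ^ 2 ∧ |(p.2 : ℝ)| ≤ H ^ 3 ∧ 4 * p.1 ^ 3 + 27 * p.2 ^ 2 ≠ 0 ∧
      ∃ x y : ℤ, y ^ 2 = x ^ 3 + p.1 * x + p.2 ∧
        |(x : ℝ)| ≤ Real.exp (H ^ (1 / 250 : ℝ))}.Finite ∧
    ({p : ℤ × ℤ | |(p.1 : ℝ)| ≤ H ^ 2 ∧ |(p.2 : ℝ)| ≤ H ^ 3 ∧ 4 * p.1 ^ 3 + 27 * p.2 ^ 2 ≠ 0 ∧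
      ∃ x y : ℤ, y ^ 2 = x ^ 3 + p.1 * x + p.2 ∧
        |(x : ℝ)| ≤ Real.exp (H ^ (1 / 250 : ℝ))}.ncard : ℝ)
        ≤ K * H ^ (4999 / 1000 : ℝ) := by
  obtain ⟨H0, K1, hH0, hK1, hdy⟩ := dyadic_countU
  obtain ⟨K2, hK2, hsmall⟩ := small_count
  obtain ⟨K3, hK3, hmult⟩ := mult_countU
  obtain ⟨c0, hc0, hnum⟩ := dyadic_number
  refine ⟨c0 * (K1 + K3) + K2 + 9 * H0, fun H hH => ?_⟩
  have hHpos : 0 < H := by linarith
  have hp0 : 0 < H ^ (4999 / 1000 : ℝ) := Real.rpow_pos_of_pos hHpos _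
  -- the trivial bound
  have hbox : {p : ℤ × ℤ | |(p.1 : ℝ)| ≤ H ^ 2 ∧ |(p.2 : ℝ)| ≤ H ^ 3 ∧
      4 * p.1 ^ 3 + 27 * p.2 ^ 2 ≠ 0 ∧
      ∃ x y : ℤ, y ^ 2 = x ^ 3 + p.1 * x + p.2 ∧
        |(x : ℝ)| ≤ Real.exp (H ^ (1 / 250 : ℝ))} ⊆
      ((ball (H ^ 2) ×ˢ ball (H ^ 3) : Finset (ℤ × ℤ)) : Set (ℤ × ℤ)) := by
    rintro p ⟨h1, h2, _⟩
    rw [Finset.mem_coe, Finset.mem_product, mem_ball, mem_ball]
    exact ⟨h1, h2⟩
  have hfin := (Finset.finite_toSet _).subset hbox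
  refine ⟨hfin, ?_⟩
  rcases lt_or_ge H H0 with hlt | hge
  · have h1 : ({p : ℤ × ℤ | |(p.1 : ℝ)| ≤ H ^ 2 ∧ |(p.2 : ℝ)| ≤ H ^ 3 ∧
        4 * p.1 ^ 3 + 27 * p.2 ^ 2 ≠ 0 ∧
        ∃ x y : ℤ, y ^ 2 = x ^ 3 + p.1 * x + p.2 ∧
          |(x : ℝ)| ≤ Real.exp (H ^ (1 / 250 : ℝ))}.ncard : ℝ) ≤
        ((ball (H ^ 2)).card : ℝ) * ((ball (H ^ 3)).card : ℝ) := by
      have h2 := Set.ncard_le_ncard hbox (Finset.finite_toSet _)
      rw [Set.ncard_coe_finset, Finset.card_product] at h2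
      exact_mod_cast h2
    have hH2 : (1 : ℝ) ≤ H ^ 2 := one_le_pow₀ hH
    have hH3 : (1 : ℝ) ≤ H ^ 3 := one_le_pow₀ hH
    have h3 : ((ball (H ^ 2)).card : ℝ) ≤ 3 * H ^ 2 := by
      have := card_ball (H ^ 2) (by positivity)
      linarith
    have h4 : ((ball (H ^ 3)).card : ℝ) ≤ 3 * H ^ 3 := by
      have := card_ball (H ^ 3) (by positivity)
      linarith
    have h5 : H ^ (5 : ℕ) ≤ H0 * H ^ (4999 / 1000 : ℝ) := by
      have h6 : H ^ (5 : ℕ) = H ^ (1 / 1000 : ℝ) * H ^ (4999 / 1000 : ℝ) := by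
        rw [← Real.rpow_add hHpos, ← Real.rpow_natCast]
        norm_num
      rw [h6]
      apply mul_le_mul_of_nonneg_right _ hp0.le
      calc H ^ (1 / 1000 : ℝ) ≤ H ^ (1 : ℝ) :=
            Real.rpow_le_rpow_of_exponent_le hH (by norm_num)
        _ = H := Real.rpow_one H
        _ ≤ H0 := hlt.le
    calc _ ≤ ((ball (H ^ 2)).card : ℝ) * ((ball (H ^ 3)).card : ℝ) := h1
      _ ≤ (3 * H ^ 2) * (3 * H ^ 3) := mul_le_mul h3 h4 (Nat.cast_nonneg _) (by positivity)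
      _ = 9 * H ^ (5 : ℕ) := by ring
      _ ≤ 9 * (H0 * H ^ (4999 / 1000 : ℝ)) := by linarith
      _ = (9 * H0) * H ^ (4999 / 1000 : ℝ) := by ring
      _ ≤ (c0 * (K1 + K3) + K2 + 9 * H0) * H ^ (4999 / 1000 : ℝ) := by
          apply mul_le_mul_of_nonneg_right _ hp0.le
          have : 0 ≤ c0 * (K1 + K3) := by positivity
          linarith
  · obtain ⟨hs1, hs2⟩ := hsmall H hH
    obtain ⟨n, hn1, hn2⟩ := hnum H hH
    set X : ℝ := Real.exp (H ^ (1 / 250 : ℝ)) with hX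
    set S2 : Set (ℤ × ℤ) := {p | |(p.1 : ℝ)| ≤ H ^ 2 ∧ |(p.2 : ℝ)| ≤ H ^ 3 ∧
      ∃ x y : ℤ, y ^ 2 = x ^ 3 + p.1 * x + p.2 ∧ (x : ℝ) ≤ 16 * H ^ 4} with hS2
    set ψ : (ℤ × ℤ × ℤ × ℤ) × ℤ → ℤ × ℤ := fun F =>
      invMap (F.1.1, F.1.2.1, F.1.2.2.1, F.1.2.2.2, F.2) with hψ
    -- the sets of pairs for one dyadic interval
    set Z : ℕ → Set (ℤ × ℤ) := fun i =>
      {p | p ∈ multSet H ((1 / 2 : ℝ) ^ i) ∧
        (H ^ (-(1 / 10) : ℝ) ≤ (1 / 2 : ℝ) ^ i → p ∈ ψ '' dyU_S H ((1 / 2 : ℝ) ^ i) X)} with hZ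
    have hZb : ∀ i < n, (Z i).Finite ∧
        ((Z i).ncard : ℝ) ≤ (K1 + K3) * H ^ (5 - 1 / 996 : ℝ) := by
      intro i _
      have hL0 : (0 : ℝ) < (1 / 2 : ℝ) ^ i := by positivity
      have hL1 : (1 / 2 : ℝ) ^ i ≤ 1 := pow_le_one₀ (by norm_num) (by norm_num)
      obtain ⟨hm1, hm2⟩ := hmult H hH _ hL0 hL1
      have hq0 : 0 < H ^ (5 - 1 / 996 : ℝ) := Real.rpow_pos_of_pos hHpos _
      have hZm : Z i ⊆ multSet H ((1 / 2 : ℝ) ^ i) := fun p hp => hp.1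
      refine ⟨hm1.subset hZm, ?_⟩
      by_cases hlow : H ^ (-(1 / 10) : ℝ) ≤ (1 / 2 : ℝ) ^ i
      · obtain ⟨hd1, hd2⟩ := hdy H hge ((1 / 2 : ℝ) ^ i) X hL0 hL1 hlow le_rfl
        have hZd : Z i ⊆ ψ '' dyU_S H ((1 / 2 : ℝ) ^ i) X := fun p hp => hp.2 hlow
        have h1 : (Z i).ncard ≤ (dyU_S H ((1 / 2 : ℝ) ^ i) X).ncard :=
          (Set.ncard_le_ncard hZd (hd1.image ψ)).trans (Set.ncard_image_le hd1)
        calc ((Z i).ncard : ℝ) ≤ ((dyU_S H ((1 / 2 : ℝ) ^ i) X).ncard : ℝ) := by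
              exact_mod_cast h1
          _ ≤ K1 * H ^ (5 - 1 / 996 : ℝ) := hd2
          _ ≤ (K1 + K3) * H ^ (5 - 1 / 996 : ℝ) := by
              apply mul_le_mul_of_nonneg_right _ hq0.le
              linarith
      · have h1 := Set.ncard_le_ncard hZm hm1
        have h2 : ((1 / 2 : ℝ) ^ i) ^ 2 ≤ H ^ (-(1 / 5) : ℝ) := by
          calc ((1 / 2 : ℝ) ^ i) ^ 2 ≤ (H ^ (-(1 / 10) : ℝ)) ^ 2 :=
                pow_le_pow_left₀ hL0.le (not_le.1 hlow).le 2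
            _ = H ^ (-(1 / 5) : ℝ) := by
                rw [← Real.rpow_natCast, ← Real.rpow_mul hHpos.le]
                norm_num
        have h3 : H ^ 5 * H ^ (-(1 / 5) : ℝ) ≤ H ^ (5 - 1 / 996 : ℝ) := by
          rw [← Real.rpow_natCast, ← Real.rpow_add hHpos]
          exact Real.rpow_le_rpow_of_exponent_le hH (by norm_num)
        calc ((Z i).ncard : ℝ) ≤ ((multSet H ((1 / 2 : ℝ) ^ i)).ncard : ℝ) := by
              exact_mod_cast h1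
          _ ≤ K3 * H ^ 5 * ((1 / 2 : ℝ) ^ i) ^ 2 := hm2
          _ ≤ K3 * H ^ 5 * H ^ (-(1 / 5) : ℝ) := by gcongr
          _ = K3 * (H ^ 5 * H ^ (-(1 / 5) : ℝ)) := by ring
          _ ≤ K3 * H ^ (5 - 1 / 996 : ℝ) := by gcongr
          _ ≤ (K1 + K3) * H ^ (5 - 1 / 996 : ℝ) := by
              apply mul_le_mul_of_nonneg_right _ hq0.le
              linarith
    obtain ⟨hU1, hU2⟩ := ncard_iUnion n Z _ hZb
    have hcover : {p : ℤ × ℤ | |(p.1 : ℝ)| ≤ H ^ 2 ∧ |(p.2 : ℝ)| ≤ H ^ 3 ∧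
        4 * p.1 ^ 3 + 27 * p.2 ^ 2 ≠ 0 ∧
        ∃ x y : ℤ, y ^ 2 = x ^ 3 + p.1 * x + p.2 ∧ |(x : ℝ)| ≤ X} ⊆
        (⋃ i ∈ Finset.range n, Z i) ∪ S2 := by
      rintro ⟨A, B⟩ ⟨hA, hB, hd, x, y, hE, hx⟩
      by_cases hx4 : (x : ℝ) ≤ 16 * H ^ 4
      · exact Or.inr ⟨hA, hB, x, y, hE, hx4⟩
      · left
        push Not at hx4
        have hE' : |y| ^ 2 = x ^ 3 + A * x + B := by rw [sq_abs]; exact hE
        obtain ⟨lam, a, b, c, d, e, hl0, hl1, hbd, hrep, hinv⟩ := reductionU x |y| A B H X hH hx4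
          ((le_abs_self _).trans hx) (abs_nonneg y) hA hB hd hE'
        obtain ⟨i, hin, hi1, hi2⟩ := hn2 lam a b c d e hl0 hl1 hbd
        simp only [Set.mem_iUnion, Finset.mem_range]
        refine ⟨i, hin, ⟨lam, hi1, hi2, a, b, c, d, e, hbd, hinv⟩, fun _ => ?_⟩
        exact ⟨((a, b, c, d), e), ⟨lam, hi1, hi2, hbd, hrep⟩, invMap_of_Inv hinv⟩
    have h1 : ({p : ℤ × ℤ | |(p.1 : ℝ)| ≤ H ^ 2 ∧ |(p.2 : ℝ)| ≤ H ^ 3 ∧
        4 * p.1 ^ 3 + 27 * p.2 ^ 2 ≠ 0 ∧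
        ∃ x y : ℤ, y ^ 2 = x ^ 3 + p.1 * x + p.2 ∧ |(x : ℝ)| ≤ X}.ncard : ℝ) ≤
        ((⋃ i ∈ Finset.range n, Z i).ncard : ℝ) + (S2.ncard : ℝ) := by
      have h2 := Set.ncard_le_ncard hcover (hU1.union hs1)
      have h3 := Set.ncard_union_le (⋃ i ∈ Finset.range n, Z i) S2
      exact_mod_cast h2.trans h3
    have hH0pos : 0 < H0 := by linarith
    have e1 : H ^ (1 / 249000 : ℝ) * H ^ (5 - 1 / 996 : ℝ) = H ^ (4999 / 1000 : ℝ) := by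
      rw [← Real.rpow_add hHpos]
      norm_num
    have e2 : H ^ (499 / 100 : ℝ) ≤ H ^ (4999 / 1000 : ℝ) :=
      Real.rpow_le_rpow_of_exponent_le hH (by norm_num)
    calc _ ≤ ((⋃ i ∈ Finset.range n, Z i).ncard : ℝ) + (S2.ncard : ℝ) := h1
      _ ≤ n * ((K1 + K3) * H ^ (5 - 1 / 996 : ℝ)) + K2 * H ^ (499 / 100 : ℝ) :=
          add_le_add hU2 hs2
      _ ≤ (c0 * H ^ (1 / 249000 : ℝ)) * ((K1 + K3) * H ^ (5 - 1 / 996 : ℝ)) +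
          K2 * H ^ (4999 / 1000 : ℝ) := by gcongr
      _ = c0 * (K1 + K3) * (H ^ (1 / 249000 : ℝ) * H ^ (5 - 1 / 996 : ℝ)) +
          K2 * H ^ (4999 / 1000 : ℝ) := by ring
      _ = (c0 * (K1 + K3) + K2) * H ^ (4999 / 1000 : ℝ) := by rw [e1]; ring
      _ ≤ (c0 * (K1 + K3) + K2 + 9 * H0) * H ^ (4999 / 1000 : ℝ) := by
          apply mul_le_mul_of_nonneg_right _ hp0.le
          linarith

end Pool.Agent.LibHLP
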