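import Pool.Agent.LibHLP.AuxPairU

set_option autoImplicit false

open Polynomial

namespace Pool.Agent.LibHLP

/-- The auxiliary pair of polynomials on a patch. -/
theorem aux_pair (N : ℕ) : ∃ G0 : ℝ, 1 < G0 ∧ ∀ G : ℝ, G0 ≤ G → ∀ s : ℕ, 7 ≤ s → s ≤ N →
    ∀ R : ℝ, 1 ≤ R → R ≤ G ^ 5 → ∀ θ0 : ℝ, |θ0| ≤ R → ∀ T : ℝ[X], l1 T ≤ 27 * G ^ 20 →
    l1 (T.comp (C (G ^ 20)⁻¹ * X)) ≤ 27 →
    ∃ (m : ℕ) (u v : ℕ → ℤ), m ≤ N ∧ (∃ i ≤ m, u i ≠ 0 ∨ v i ≠ 0) ∧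
      (∀ i ≤ m, |(u i : ℝ)| ≤ G ^ (3 * N) ∧ |(v i : ℝ)| ≤ G ^ (3 * N)) ∧
      ∀ y r : ℝ, |y| * G ^ 19 ≤ 1 → |r| * G ^ (4 * s) ≤ 1 →
        |∑ i ∈ Finset.range (m + 1), (T.eval y + r) ^ i * ((u i : ℝ) * (θ0 + R * y) + (v i : ℝ))|
          * G ^ (s + 1) < 1 := by
  refine ⟨10000 ^ 10, by norm_num, ?_⟩
  intro G hG s hs hsN R hR hRG θ0 hθ T hT1 hT2
  have hG0 : (0 : ℝ) ≤ G := le_trans (by positivity) hG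
  have hG1 : (1 : ℝ) ≤ G := le_trans (by norm_num) hG
  obtain ⟨g, hg0, rfl⟩ : ∃ g : ℝ, 0 ≤ g ∧ G = g ^ 10 := by
    refine ⟨G ^ ((10 : ℝ)⁻¹), by positivity, ?_⟩
    rw [← Real.rpow_natCast, ← Real.rpow_mul hG0]
    norm_num
  have hg : 10000 ≤ g := le_of_pow_le_pow_left₀ (by norm_num) hg0 hG
  simp only [← pow_mul] at hRG hT1 hT2 ⊢
  obtain ⟨m, u, v, hm, hne, hb, hmain⟩ := aux_pairU g hg s hs R hR hRG θ0 hθ T hT1 hT2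
  have hsN' : g ^ (30 * s) ≤ g ^ (10 * (3 * N)) :=
    pow_le_pow_right₀ (by linarith) (by omega)
  refine ⟨m, u, v, hm.trans hsN, hne, fun i hi => ⟨(hb i hi).1.trans hsN', (hb i hi).2.trans hsN'⟩, ?_⟩
  intro y r hy hr
  refine hmain y r hy ?_
  rwa [show 40 * s = 10 * (4 * s) by ring]

end Pool.Agent.LibHLP
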