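import Pool.Agent.LibHLP.L1

set_option autoImplicit false

open Polynomial

namespace Pool.Agent.LibHLP

theorem l1_comp_le (p : ℝ[X]) (r : ℝ) (h0 : 0 ≤ r) (h1 : r ≤ 1) :
    l1 (p.comp (C r * X)) ≤ l1 p := by
  have hd : (p.comp (C r * X)).natDegree < p.natDegree + 1 := by
    have h2 : (p.comp (C r * X)).natDegree ≤ p.natDegree * (C r * X).natDegree :=
      natDegree_comp_le
    have h3 : (C r * X : ℝ[X]).natDegree ≤ 1 := (natDegree_C_mul_le r X).trans natDegree_X_le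
    have h4 : p.natDegree * (C r * X : ℝ[X]).natDegree ≤ p.natDegree * 1 :=
      Nat.mul_le_mul_left _ h3
    omega
  rw [l1_eq _ _ hd, l1_eq p (p.natDegree + 1) (by omega)]
  refine Finset.sum_le_sum fun i _ => ?_
  rw [comp_C_mul_X_coeff, abs_mul, abs_pow, abs_of_nonneg h0]
  exact mul_le_of_le_one_right (abs_nonneg _) (pow_le_one₀ h0 h1)

theorem l1_pow_mul_le (T L : ℝ[X]) (D c : ℝ) (hD : 1 ≤ D) (hT1 : l1 T ≤ 27 * D)
    (hL : l1 L ≤ c) (i : ℕ) : l1 (T ^ i * L) ≤ (27 * D) ^ i * c := by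
  calc l1 (T ^ i * L) ≤ l1 (T ^ i) * l1 L := l1_mul_le _ _
    _ ≤ l1 T ^ i * l1 L := mul_le_mul_of_nonneg_right (l1_pow_le _ _) (l1_nonneg _)
    _ ≤ (27 * D) ^ i * c := by
        have h1 := l1_nonneg T
        have h2 := l1_nonneg L
        gcongr

/-- The coefficients of `T^i L`, for `T` with `|T_0| + ∑ |T_j| D^(-j)` and `∑ |T_j| / D`
at most `27`. -/
theorem coeff_pow_mul_le (T L : ℝ[X]) (D c : ℝ) (hD : 1 ≤ D) (hT1 : l1 T ≤ 27 * D)
    (hT2 : l1 (T.comp (C D⁻¹ * X)) ≤ 27) (hL : l1 L ≤ c) (i j : ℕ) :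
    |(T ^ i * L).coeff j| ≤ 27 ^ i * c * D ^ (min j i) := by
  have hD0 : 0 < D := by linarith
  rcases le_total j i with hji | hij
  · rw [min_eq_left hji]
    have h1 : (T ^ i * L).coeff j = ((T ^ i * L).comp (C D⁻¹ * X)).coeff j * D ^ j := by
      rw [comp_C_mul_X_coeff, mul_assoc, ← mul_pow, inv_mul_cancel₀ hD0.ne', one_pow, mul_one]
    rw [h1, abs_mul, abs_of_pos (by positivity : 0 < D ^ j)]
    refine mul_le_mul_of_nonneg_right ?_ (by positivity)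
    calc |((T ^ i * L).comp (C D⁻¹ * X)).coeff j| ≤ l1 ((T ^ i * L).comp (C D⁻¹ * X)) :=
          abs_coeff_le_l1 _ _
      _ = l1 ((T.comp (C D⁻¹ * X)) ^ i * (L.comp (C D⁻¹ * X))) := by
          rw [mul_comp, pow_comp]
      _ ≤ l1 ((T.comp (C D⁻¹ * X)) ^ i) * l1 (L.comp (C D⁻¹ * X)) := l1_mul_le _ _
      _ ≤ l1 (T.comp (C D⁻¹ * X)) ^ i * l1 (L.comp (C D⁻¹ * X)) :=
          mul_le_mul_of_nonneg_right (l1_pow_le _ _) (l1_nonneg _)
      _ ≤ 27 ^ i * c := by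
          have h2 := l1_nonneg (T.comp (C D⁻¹ * X))
          have h3 := l1_nonneg (L.comp (C D⁻¹ * X))
          have h4 : l1 (L.comp (C D⁻¹ * X)) ≤ c :=
            (l1_comp_le L D⁻¹ (by positivity) (inv_le_one_of_one_le₀ hD)).trans hL
          gcongr
  · rw [min_eq_right hij]
    calc |(T ^ i * L).coeff j| ≤ l1 (T ^ i * L) := abs_coeff_le_l1 _ _
      _ ≤ (27 * D) ^ i * c := l1_pow_mul_le T L D c hD hT1 hL i
      _ = 27 ^ i * c * D ^ i := by rw [mul_pow]; ring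

theorem eval_T_le (T : ℝ[X]) (D τ y : ℝ) (hD : 1 ≤ D) (hT1 : l1 T ≤ 27 * D)
    (hT2 : l1 (T.comp (C D⁻¹ * X)) ≤ 27) (hy : |y| ≤ τ) (hτ : τ ≤ 1) :
    |T.eval y| ≤ 27 + 27 * D * τ := by
  have hτ0 : 0 ≤ τ := (abs_nonneg y).trans hy
  have h1 := eval_bound T τ y hτ0 hτ hy 1
  rw [Finset.sum_range_one, pow_zero, mul_one, pow_one] at h1
  have h2 : |T.coeff 0| ≤ 27 := by
    have h3 : T.coeff 0 = (T.comp (C D⁻¹ * X)).coeff 0 := by
      rw [comp_C_mul_X_coeff, pow_zero, mul_one]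
    rw [h3]
    exact (abs_coeff_le_l1 _ _).trans hT2
  calc |T.eval y| ≤ |T.coeff 0| + l1 T * τ := h1
    _ ≤ 27 + 27 * D * τ := add_le_add h2 (mul_le_mul_of_nonneg_right hT1 hτ0)

end Pool.Agent.LibHLP
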