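import Pool.Agent.LibHLP.Box
import Pool.Agent.LibHLP.Coeff

/-! The auxiliary pair of polynomials on a patch, uniformly in the size of the denominators. -/

set_option autoImplicit false

open Polynomial

namespace Pool.Agent.LibHLP

private theorem AU_sum1 (A m : ℕ) :
    ∑ j ∈ Finset.range m, ((A : ℤ) + 10 * j) = m * A + 5 * m * (m - 1) := by
  induction m with
  | zero => simp
  | succ m ih => rw [Finset.sum_range_succ, ih]; push_cast; ring

private theorem AU_sum2 (a : ℤ) (n : ℕ) :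
    ∑ i ∈ Finset.range n, (a - 190 * i) = n * a - 95 * n * (n - 1) := by
  induction n with
  | zero => simp
  | succ n ih => rw [Finset.sum_range_succ, ih]; push_cast; ring

theorem arithU (s : ℕ) (hs : 7 ≤ s) : ∃ m W J : ℕ, 1 ≤ m ∧ m ≤ s ∧ W + 11 * m + 1 = 30 * s ∧
    56 ≤ W ∧ J ≤ 2 * m + 3 ∧ W + 201 * m + 10 * s + 12 ≤ 190 * J ∧
    (∀ j < J, 190 * j ≤ W + 200 * min j m + 10 * s + 12 + m) ∧
    ∑ j ∈ Finset.range J, (W + 200 * min j m + 10 * s + 12 + 2 * m - 190 * j) + 1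
      ≤ (2 * W - 50) * (m + 1) := by
  obtain ⟨m, δ, hm, hδ⟩ : ∃ m δ : ℕ, s = 2 * m + 2 + δ ∧ (δ = 0 ∨ δ = 1) := by
    refine ⟨(s - 2) / 2, (s - 2) % 2, by omega, by omega⟩
  have hm2 : 2 ≤ m := by omega
  obtain ⟨W, hW⟩ : ∃ W : ℕ, W + 11 * m + 1 = 30 * s := ⟨30 * s - 11 * m - 1, by omega⟩
  obtain ⟨J, hJ1, hJ2⟩ : ∃ J : ℕ, W + 201 * m + 10 * s + 12 ≤ 190 * J ∧
      190 * J ≤ W + 201 * m + 10 * s + 12 + 189 :=
    ⟨(W + 201 * m + 10 * s + 12 + 189) / 190, by omega, by omega⟩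
  obtain ⟨n, hn⟩ : ∃ n : ℕ, J = m + n := ⟨J - m, by omega⟩
  have hcond : ∀ j < J, 190 * j ≤ W + 200 * min j m + 10 * s + 12 + m := by
    intro j hj
    rcases le_total j m with h | h
    · rw [min_eq_left h]; omega
    · rw [min_eq_right h]; omega
  refine ⟨m, W, J, by omega, by omega, hW, by omega, by omega, hJ1, hcond, ?_⟩
  have h1 : ∑ j ∈ Finset.range m, ((W + 200 * min j m + 10 * s + 12 + 2 * m - 190 * j : ℕ) : ℤ)
      = m * (W + 10 * s + 12 + 2 * m : ℕ) + 5 * m * (m - 1) := by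
    rw [← AU_sum1]
    refine Finset.sum_congr rfl fun j hj => ?_
    have hj' := Finset.mem_range.1 hj
    rw [min_eq_left hj'.le]
    omega
  have h2 : ∑ i ∈ Finset.range n,
      ((W + 200 * min (m + i) m + 10 * s + 12 + 2 * m - 190 * (m + i) : ℕ) : ℤ)
      = n * (W + 12 * m + 10 * s + 12 : ℕ) - 95 * n * (n - 1) := by
    rw [← AU_sum2]
    refine Finset.sum_congr rfl fun i hi => ?_
    have hi' := Finset.mem_range.1 hi
    have h3 := hcond (m + i) (by omega)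
    rw [min_eq_right (Nat.le_add_right m i)] at h3 ⊢
    omega
  have h3 : ((∑ j ∈ Finset.range J, (W + 200 * min j m + 10 * s + 12 + 2 * m - 190 * j) : ℕ) : ℤ)
      = m * (W + 10 * s + 12 + 2 * m : ℕ) + 5 * m * (m - 1)
        + (n * (W + 12 * m + 10 * s + 12 : ℕ) - 95 * n * (n - 1)) := by
    rw [hn, Nat.cast_sum, Finset.sum_range_add, h1, h2]
  have h4 : ((∑ j ∈ Finset.range J, (W + 200 * min j m + 10 * s + 12 + 2 * m - 190 * j) + 1 : ℕ)
      : ℤ) ≤ ((2 * W - 50) * (m + 1) : ℕ) := by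
    rw [Nat.cast_add, h3]
    have hW' : (W : ℤ) = 30 * s - 11 * m - 1 := by omega
    have h5 : ((2 * W - 50 : ℕ) : ℤ) = 2 * W - 50 := by omega
    push_cast
    rw [h5, hW', hm]
    push_cast
    have hm' : (2 : ℤ) ≤ m := by exact_mod_cast hm2
    rcases hδ with h | h
    · have hm3 : (3 : ℤ) ≤ m := by
        have : 3 ≤ m := by omega
        exact_mod_cast this
      subst h
      push_cast
      nlinarith [sq_nonneg ((81 * m + 186 : ℤ) - 190 * n)]
    · subst h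
      push_cast
      nlinarith [sq_nonneg ((81 * m + 226 : ℤ) - 190 * n)]
  exact_mod_cast h4

private theorem AU_const1 (m : ℕ) (hm : 1 ≤ m) :
    12 * (2 * m + 4) * (m + 1) * 27 ^ m ≤ 10000 ^ m := by
  induction m, hm using Nat.le_induction with
  | base => norm_num
  | succ m hm ih =>
    have h1 : 12 * (2 * (m + 1) + 4) * (m + 1 + 1) * 27 ^ (m + 1)
        ≤ 10000 * (12 * (2 * m + 4) * (m + 1) * 27 ^ m) := by
      have h2 : 12 * (2 * (m + 1) + 4) * (m + 1 + 1) * 27 ≤ 10000 * (12 * (2 * m + 4) * (m + 1)) := by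
        nlinarith
      calc 12 * (2 * (m + 1) + 4) * (m + 1 + 1) * 27 ^ (m + 1)
          = (12 * (2 * (m + 1) + 4) * (m + 1 + 1) * 27) * 27 ^ m := by ring
        _ ≤ (10000 * (12 * (2 * m + 4) * (m + 1))) * 27 ^ m := Nat.mul_le_mul_right _ h2
        _ = _ := by ring
    calc _ ≤ _ := h1
      _ ≤ 10000 * 10000 ^ m := Nat.mul_le_mul_left _ ih
      _ = _ := by ring

private theorem AU_const2 (m : ℕ) (hm : 1 ≤ m) :
    3 * (m + 1) * m * 55 ^ m ≤ 10000 ^ m := by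
  induction m, hm using Nat.le_induction with
  | base => norm_num
  | succ m hm ih =>
    have h1 : 3 * (m + 1 + 1) * (m + 1) * 55 ^ (m + 1)
        ≤ 10000 * (3 * (m + 1) * m * 55 ^ m) := by
      have h2 : 3 * (m + 1 + 1) * (m + 1) * 55 ≤ 10000 * (3 * (m + 1) * m) := by
        nlinarith
      calc 3 * (m + 1 + 1) * (m + 1) * 55 ^ (m + 1)
          = (3 * (m + 1 + 1) * (m + 1) * 55) * 55 ^ m := by ring
        _ ≤ (10000 * (3 * (m + 1) * m)) * 55 ^ m := Nat.mul_le_mul_right _ h2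
        _ = _ := by ring
    calc _ ≤ _ := h1
      _ ≤ 10000 * 10000 ^ m := Nat.mul_le_mul_left _ ih
      _ = _ := by ring

/-- The auxiliary pair of polynomials on a patch, uniform version (`g` is the tenth root of the
parameter of `aux_pair`). -/
theorem aux_pairU (g : ℝ) (hg : 10000 ≤ g) (s : ℕ) (hs : 7 ≤ s) (R : ℝ) (hR : 1 ≤ R)
    (hRg : R ≤ g ^ 50) (θ0 : ℝ) (hθ : |θ0| ≤ R) (T : ℝ[X]) (hT1 : l1 T ≤ 27 * g ^ 200)
    (hT2 : l1 (T.comp (C (g ^ 200)⁻¹ * X)) ≤ 27) :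
    ∃ (m : ℕ) (u v : ℕ → ℤ), m ≤ s ∧ (∃ i ≤ m, u i ≠ 0 ∨ v i ≠ 0) ∧
      (∀ i ≤ m, |(u i : ℝ)| ≤ g ^ (30 * s) ∧ |(v i : ℝ)| ≤ g ^ (30 * s)) ∧
      ∀ y r : ℝ, |y| * g ^ 190 ≤ 1 → |r| * g ^ (40 * s) ≤ 1 →
        |∑ i ∈ Finset.range (m + 1), (T.eval y + r) ^ i * ((u i : ℝ) * (θ0 + R * y) + (v i : ℝ))|
          * g ^ (10 * (s + 1)) < 1 := by
  obtain ⟨m, W, J, hm1, hms, hW, hW56, hJ, hJ1, hcond, hsum⟩ := arithU s hs
  have hg0 : (0 : ℝ) < g := by linarith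
  have hg1 : (1 : ℝ) ≤ g := by linarith
  have hR0 : 0 < R := by linarith
  have hD : (1 : ℝ) ≤ g ^ 200 := one_le_pow₀ hg1
  have hgm1 : (12 * (2 * m + 4) * (m + 1) * 27 ^ m : ℝ) ≤ g ^ m := by
    have h1 : ((12 * (2 * m + 4) * (m + 1) * 27 ^ m : ℕ) : ℝ) ≤ ((10000 ^ m : ℕ) : ℝ) := by
      exact_mod_cast AU_const1 m hm1
    push_cast at h1
    exact h1.trans (pow_le_pow_left₀ (by norm_num) hg m)
  have hgm2 : (3 * (m + 1) * m * 55 ^ m : ℝ) ≤ g ^ m := by
    have h1 : ((3 * (m + 1) * m * 55 ^ m : ℕ) : ℝ) ≤ ((10000 ^ m : ℕ) : ℝ) := by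
      exact_mod_cast AU_const2 m hm1
    push_cast at h1
    exact h1.trans (pow_le_pow_left₀ (by norm_num) hg m)
  have hJm : (J : ℝ) + 1 ≤ 2 * m + 4 := by
    have : ((J : ℕ) : ℝ) ≤ ((2 * m + 3 : ℕ) : ℝ) := by exact_mod_cast hJ
    push_cast at this
    linarith
  have hmR : (1 : ℝ) ≤ m := by exact_mod_cast hm1
  -- the linear factor
  set L : ℝ[X] := C θ0 + C R * X with hL
  have hLl : l1 L ≤ 2 * R := by
    refine (l1_add_le _ _).trans ?_
    have h1 := l1_mul_le (C R) X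
    rw [l1_C, l1_X, abs_of_pos hR0] at h1
    rw [l1_C]
    linarith
  have h1l : l1 (1 : ℝ[X]) ≤ 1 := by
    rw [← C_1, l1_C, abs_one]
  -- the forms
  let M : Fin J → (Fin (m + 1) ⊕ Fin (m + 1)) → ℝ := fun j =>
    Sum.elim (fun i => (T ^ (i : ℕ) * L).coeff j) (fun i => (T ^ (i : ℕ) * 1).coeff j)
  let H : (Fin (m + 1) ⊕ Fin (m + 1)) → ℕ :=
    Sum.elim (fun _ => ⌊g ^ W / R⌋₊) (fun _ => ⌊g ^ W⌋₊)
  let Wj : Fin J → ℝ := fun j => 3 * (m + 1) * 27 ^ m * (g ^ 200) ^ (min (j : ℕ) m) * g ^ W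
  let ω : Fin J → ℝ := fun j => g ^ (190 * (j : ℕ)) / g ^ (10 * (s + 1)) / (4 * (J + 1))
  have hω : ∀ j, 0 < ω j := fun j => by
    change 0 < g ^ (190 * (j : ℕ)) / g ^ (10 * (s + 1)) / (4 * (J + 1))
    positivity
  have hM1 : ∀ (j : Fin J) (i : Fin (m + 1)), |(T ^ (i : ℕ) * L).coeff j| ≤
      27 ^ m * (2 * R) * (g ^ 200) ^ (min (j : ℕ) m) := by
    intro j i
    refine (coeff_pow_mul_le T L (g ^ 200) (2 * R) hD hT1 hT2 hLl i j).trans ?_
    have hi : (i : ℕ) ≤ m := by omega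
    gcongr
    norm_num
  have hM2 : ∀ (j : Fin J) (i : Fin (m + 1)), |(T ^ (i : ℕ) * 1).coeff j| ≤
      27 ^ m * 1 * (g ^ 200) ^ (min (j : ℕ) m) := by
    intro j i
    refine (coeff_pow_mul_le T 1 (g ^ 200) 1 hD hT1 hT2 h1l i j).trans ?_
    have hi : (i : ℕ) ≤ m := by omega
    gcongr
    norm_num
  have hHu : ((⌊g ^ W / R⌋₊ : ℕ) : ℝ) ≤ g ^ W / R := Nat.floor_le (by positivity)
  have hHv : ((⌊g ^ W⌋₊ : ℕ) : ℝ) ≤ g ^ W := Nat.floor_le (by positivity)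
  have hW1 : ∀ j, ∑ i, |M j i| * H i ≤ Wj j := by
    intro j
    rw [Fintype.sum_sum_type]
    change ∑ i : Fin (m + 1), |(T ^ (i : ℕ) * L).coeff j| * ((⌊g ^ W / R⌋₊ : ℕ) : ℝ)
      + ∑ i : Fin (m + 1), |(T ^ (i : ℕ) * 1).coeff j| * ((⌊g ^ W⌋₊ : ℕ) : ℝ)
      ≤ 3 * (m + 1) * 27 ^ m * (g ^ 200) ^ (min (j : ℕ) m) * g ^ W
    have e1 : ∑ i : Fin (m + 1), |(T ^ (i : ℕ) * L).coeff j| * ((⌊g ^ W / R⌋₊ : ℕ) : ℝ) ≤
        ∑ i : Fin (m + 1), 27 ^ m * (2 * R) * (g ^ 200) ^ (min (j : ℕ) m) * (g ^ W / R) :=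
      Finset.sum_le_sum fun i _ => mul_le_mul (hM1 j i) hHu (by positivity) (by positivity)
    have e2 : ∑ i : Fin (m + 1), |(T ^ (i : ℕ) * 1).coeff j| * ((⌊g ^ W⌋₊ : ℕ) : ℝ) ≤
        ∑ i : Fin (m + 1), 27 ^ m * 1 * (g ^ 200) ^ (min (j : ℕ) m) * (g ^ W) :=
      Finset.sum_le_sum fun i _ => mul_le_mul (hM2 j i) hHv (by positivity) (by positivity)
    rw [Finset.sum_const, Finset.card_univ, Fintype.card_fin, nsmul_eq_mul] at e1 e2
    have e3 : ((m + 1 : ℕ) : ℝ) * (27 ^ m * (2 * R) * (g ^ 200) ^ (min (j : ℕ) m) * (g ^ W / R))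
        = ((m + 1 : ℕ) : ℝ) * (2 * (27 ^ m * (g ^ 200) ^ (min (j : ℕ) m) * g ^ W)) := by
      field_simp
    rw [e3] at e1
    calc _ ≤ _ := add_le_add e1 e2
      _ = _ := by push_cast; ring
  -- the count
  have hprod1 : ∀ j : Fin J, Wj j / ω j + 1 ≤
      g ^ (W + 200 * min (j : ℕ) m + 10 * s + 12 + 2 * m - 190 * (j : ℕ)) := by
    intro j
    have hc := hcond j j.2
    obtain ⟨e, he⟩ : ∃ e : ℕ, W + 200 * min (j : ℕ) m + 10 * s + 12 + m = 190 * (j : ℕ) + e :=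
      ⟨W + 200 * min (j : ℕ) m + 10 * s + 12 + m - 190 * (j : ℕ), by omega⟩
    have e1 : W + 200 * min (j : ℕ) m + 10 * s + 12 + 2 * m - 190 * (j : ℕ) = e + m := by omega
    rw [e1]
    have e2 : Wj j / ω j * g ^ (m + 2) = 12 * (J + 1) * (m + 1) * 27 ^ m * g ^ e := by
      change (3 * (m + 1) * 27 ^ m * (g ^ 200) ^ (min (j : ℕ) m) * g ^ W) /
        (g ^ (190 * (j : ℕ)) / g ^ (10 * (s + 1)) / (4 * (J + 1))) * g ^ (m + 2) = _
      have e3 : (g ^ 200) ^ (min (j : ℕ) m) * g ^ W * g ^ (10 * (s + 1)) * g ^ (m + 2)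
          = g ^ (190 * (j : ℕ)) * g ^ e := by
        rw [← pow_mul, ← pow_add, ← pow_add, ← pow_add, ← pow_add]
        congr 1
        omega
      rw [div_div_eq_mul_div, div_div_eq_mul_div, div_mul_eq_mul_div, div_eq_iff (by positivity)]
      linear_combination (12 * ((J : ℝ) + 1) * (m + 1) * 27 ^ m) * e3
    have e5 : Wj j / ω j * g ^ (m + 2) ≤ g ^ m * g ^ e := by
      rw [e2]
      refine mul_le_mul_of_nonneg_right ?_ (by positivity)
      refine le_trans ?_ hgm1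
      gcongr
    have e6 : Wj j / ω j ≤ g ^ e / g ^ 2 := by
      rw [le_div_iff₀ (by positivity)]
      have e7 : Wj j / ω j * g ^ 2 * g ^ m ≤ g ^ e * g ^ m := by
        calc _ = Wj j / ω j * g ^ (m + 2) := by ring
          _ ≤ g ^ m * g ^ e := e5
          _ = _ := by ring
      exact le_of_mul_le_mul_right e7 (by positivity)
    have e8 : g ^ e / g ^ 2 ≤ g ^ e / 2 := by
      gcongr
      nlinarith
    have e9 : (1 : ℝ) ≤ g ^ e := one_le_pow₀ hg1
    have e10 : (2 : ℝ) ≤ g ^ m := by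
      calc (2 : ℝ) ≤ g := by linarith
        _ = g ^ 1 := (pow_one g).symm
        _ ≤ g ^ m := pow_le_pow_right₀ hg1 hm1
    rw [pow_add]
    nlinarith
  have hcount : ∏ j, (Wj j / ω j + 1) < ∏ i, ((H i : ℝ) + 1) := by
    have a1 : ∏ j, (Wj j / ω j + 1) ≤ ∏ j : Fin J,
        g ^ (W + 200 * min (j : ℕ) m + 10 * s + 12 + 2 * m - 190 * (j : ℕ)) := by
      refine Finset.prod_le_prod (fun j _ => ?_) fun j _ => hprod1 j
      have : 0 ≤ Wj j / ω j := div_nonneg (by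
        change 0 ≤ 3 * (m + 1) * 27 ^ m * (g ^ 200) ^ (min (j : ℕ) m) * g ^ W
        positivity) (hω j).le
      linarith
    have a2 : ∏ j : Fin J, g ^ (W + 200 * min (j : ℕ) m + 10 * s + 12 + 2 * m - 190 * (j : ℕ)) =
        g ^ (∑ j ∈ Finset.range J,
          (W + 200 * min j m + 10 * s + 12 + 2 * m - 190 * j)) := by
      rw [Finset.prod_pow_eq_pow_sum]
      congr 1
      exact Fin.sum_univ_eq_sum_range
        (fun j => W + 200 * min j m + 10 * s + 12 + 2 * m - 190 * j) J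
    have a3 : g ^ (∑ j ∈ Finset.range J,
          (W + 200 * min j m + 10 * s + 12 + 2 * m - 190 * j)) <
        g ^ ((2 * W - 50) * (m + 1)) :=
      pow_lt_pow_right₀ (by linarith) (by omega)
    have a4 : g ^ ((2 * W - 50) * (m + 1)) ≤ ∏ i, ((H i : ℝ) + 1) := by
      rw [Fintype.prod_sum_type]
      change _ ≤ (∏ _i : Fin (m + 1), (((⌊g ^ W / R⌋₊ : ℕ) : ℝ) + 1)) *
        ∏ _i : Fin (m + 1), (((⌊g ^ W⌋₊ : ℕ) : ℝ) + 1)
      rw [Finset.prod_const, Finset.prod_const, Finset.card_univ, Fintype.card_fin, ← mul_pow,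
        pow_mul]
      refine pow_le_pow_left₀ (by positivity) ?_ _
      have b1 : g ^ W / R ≤ ((⌊g ^ W / R⌋₊ : ℕ) : ℝ) + 1 := (Nat.lt_floor_add_one _).le
      have b2 : g ^ W ≤ ((⌊g ^ W⌋₊ : ℕ) : ℝ) + 1 := (Nat.lt_floor_add_one _).le
      have b3 : g ^ (W - 50) ≤ g ^ W / R := by
        rw [le_div_iff₀ hR0]
        calc g ^ (W - 50) * R ≤ g ^ (W - 50) * g ^ 50 := by gcongr
          _ = g ^ W := by rw [← pow_add]; congr 1; omega
      calc g ^ (2 * W - 50) = g ^ (W - 50) * g ^ W := by rw [← pow_add]; congr 1; omega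
        _ ≤ _ := mul_le_mul (b3.trans b1) b2 (by positivity) (by positivity)
    rw [a2] at a1
    exact a1.trans_lt (a3.trans_le a4)
  obtain ⟨vv, hv0, hvH, hvω⟩ := box_principle M H Wj ω hω hW1 hcount
  -- the polynomials
  let u : ℕ → ℤ := fun i => if h : i < m + 1 then vv (Sum.inl ⟨i, h⟩) else 0
  let v : ℕ → ℤ := fun i => if h : i < m + 1 then vv (Sum.inr ⟨i, h⟩) else 0
  have hu : ∀ i : Fin (m + 1), u i = vv (Sum.inl i) := fun i => by
    change (if h : (i : ℕ) < m + 1 then vv (Sum.inl ⟨i, h⟩) else 0) = _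
    rw [dif_pos i.2]
  have hv : ∀ i : Fin (m + 1), v i = vv (Sum.inr i) := fun i => by
    change (if h : (i : ℕ) < m + 1 then vv (Sum.inr ⟨i, h⟩) else 0) = _
    rw [dif_pos i.2]
  have hub : ∀ i ≤ m, |(u i : ℝ)| ≤ g ^ W / R := by
    intro i hi
    have h1 := hvH (Sum.inl ⟨i, by omega⟩)
    rw [← hu ⟨i, by omega⟩] at h1
    have h2 : |(u i : ℝ)| ≤ ((⌊g ^ W / R⌋₊ : ℕ) : ℝ) := by exact_mod_cast h1
    exact h2.trans hHu
  have hvb : ∀ i ≤ m, |(v i : ℝ)| ≤ g ^ W := by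
    intro i hi
    have h1 := hvH (Sum.inr ⟨i, by omega⟩)
    rw [← hv ⟨i, by omega⟩] at h1
    have h2 : |(v i : ℝ)| ≤ ((⌊g ^ W⌋₊ : ℕ) : ℝ) := by exact_mod_cast h1
    exact h2.trans hHv
  have hWs : g ^ W ≤ g ^ (30 * s) := pow_le_pow_right₀ hg1 (by omega)
  have hWR : g ^ W / R ≤ g ^ W := div_le_self (by positivity) hR
  refine ⟨m, u, v, hms, ?_, fun i hi => ⟨(hub i hi).trans (hWR.trans hWs), (hvb i hi).trans hWs⟩, ?_⟩
  · by_contra hcon
    push Not at hcon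
    apply hv0
    funext i
    rcases i with i | i
    · rw [← hu i]; exact (hcon i (by omega)).1
    · rw [← hv i]; exact (hcon i (by omega)).2
  intro y r hy hr
  have hGs : 0 < g ^ (10 * (s + 1)) := by positivity
  have hy190 : |y| ≤ (g ^ 190)⁻¹ := by
    rw [← one_div, le_div_iff₀ (by positivity)]
    exact hy
  have hτ1 : (g ^ 190)⁻¹ ≤ 1 := inv_le_one_of_one_le₀ (one_le_pow₀ hg1)
  have hτ0 : 0 ≤ (g ^ 190)⁻¹ := by positivity
  have hr1 : |r| ≤ 1 := by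
    have : |r| * 1 ≤ |r| * g ^ (40 * s) :=
      mul_le_mul_of_nonneg_left (one_le_pow₀ hg1) (abs_nonneg r)
    linarith
  have hy1 : |y| ≤ 1 := hy190.trans hτ1
  have hlin : ∀ i ≤ m, |(u i : ℝ) * (θ0 + R * y) + (v i : ℝ)| ≤ 3 * g ^ W := by
    intro i hi
    have h1 : |θ0 + R * y| ≤ 2 * R := by
      refine (abs_add_le _ _).trans ?_
      rw [abs_mul, abs_of_pos hR0]
      nlinarith [abs_nonneg y]
    have h2 : |(u i : ℝ) * (θ0 + R * y)| ≤ g ^ W / R * (2 * R) := by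
      rw [abs_mul]
      exact mul_le_mul (hub i hi) h1 (abs_nonneg _) (by positivity)
    have h3 : g ^ W / R * (2 * R) = 2 * g ^ W := by field_simp
    refine (abs_add_le _ _).trans ?_
    have h4 := hvb i hi
    linarith
  -- the polynomial h
  let h : ℝ[X] := ∑ i ∈ Finset.range (m + 1),
    (C (u i : ℝ) * (T ^ i * L) + C (v i : ℝ) * (T ^ i * 1))
  have hheval : h.eval y = ∑ i ∈ Finset.range (m + 1),
      (T.eval y) ^ i * ((u i : ℝ) * (θ0 + R * y) + (v i : ℝ)) := by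
    change (∑ i ∈ Finset.range (m + 1),
      (C (u i : ℝ) * (T ^ i * L) + C (v i : ℝ) * (T ^ i * 1))).eval y = _
    rw [eval_finsetSum]
    refine Finset.sum_congr rfl fun i _ => ?_
    rw [hL]
    simp only [eval_add, eval_mul, eval_C, eval_pow, eval_X, eval_one]
    ring
  have hcoeff : ∀ j < J, |h.coeff j| ≤ g ^ (190 * j) / g ^ (10 * (s + 1)) / (4 * (J + 1)) := by
    intro j hj
    have h1 := hvω ⟨j, hj⟩
    have h2 : ∑ i, M ⟨j, hj⟩ i * (vv i : ℝ) = h.coeff j := by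
      rw [Fintype.sum_sum_type]
      change ∑ i : Fin (m + 1), (T ^ (i : ℕ) * L).coeff j * (vv (Sum.inl i) : ℝ)
        + ∑ i : Fin (m + 1), (T ^ (i : ℕ) * 1).coeff j * (vv (Sum.inr i) : ℝ)
        = (∑ i ∈ Finset.range (m + 1),
          (C (u i : ℝ) * (T ^ i * L) + C (v i : ℝ) * (T ^ i * 1))).coeff j
      rw [finsetSum_coeff, ← Finset.sum_add_distrib, ← Fin.sum_univ_eq_sum_range (fun i =>
        (C (u i : ℝ) * (T ^ i * L) + C (v i : ℝ) * (T ^ i * 1)).coeff j)]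
      refine Finset.sum_congr rfl fun i _ => ?_
      rw [coeff_add, coeff_C_mul, coeff_C_mul, hu i, hv i]
      ring
    rw [h2] at h1
    exact h1
  have hl1h : l1 h ≤ 3 * (m + 1) * 27 ^ m * g ^ (200 * m + W) := by
    refine (l1_sum_le _ _).trans ?_
    have h1 : ∀ i ∈ Finset.range (m + 1),
        l1 (C (u i : ℝ) * (T ^ i * L) + C (v i : ℝ) * (T ^ i * 1)) ≤
          3 * (27 ^ m * g ^ (200 * m + W)) := by
      intro i hi
      have him : i ≤ m := by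
        have := Finset.mem_range.1 hi
        omega
      have b1 : l1 (C (u i : ℝ) * (T ^ i * L)) ≤ g ^ W / R * ((27 * g ^ 200) ^ m * (2 * R)) := by
        refine (l1_mul_le _ _).trans ?_
        rw [l1_C]
        refine mul_le_mul (hub i him) ?_ (l1_nonneg _) (by positivity)
        refine (l1_pow_mul_le T L (g ^ 200) (2 * R) hD hT1 hLl i).trans ?_
        refine mul_le_mul_of_nonneg_right ?_ (by positivity)
        refine pow_le_pow_right₀ ?_ him
        linarith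
      have b2 : l1 (C (v i : ℝ) * (T ^ i * 1)) ≤ g ^ W * ((27 * g ^ 200) ^ m * 1) := by
        refine (l1_mul_le _ _).trans ?_
        rw [l1_C]
        refine mul_le_mul (hvb i him) ?_ (l1_nonneg _) (by positivity)
        refine (l1_pow_mul_le T 1 (g ^ 200) 1 hD hT1 h1l i).trans ?_
        refine mul_le_mul_of_nonneg_right ?_ (by positivity)
        refine pow_le_pow_right₀ ?_ him
        linarith
      have b3 : g ^ W / R * ((27 * g ^ 200) ^ m * (2 * R)) = 2 * (27 ^ m * g ^ (200 * m + W)) := by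
        rw [pow_add, pow_mul, mul_pow]
        field_simp
      have b4 : g ^ W * ((27 * g ^ 200) ^ m * 1) = 27 ^ m * g ^ (200 * m + W) := by
        rw [pow_add, pow_mul, mul_pow]
        ring
      refine (l1_add_le _ _).trans ?_
      rw [b3] at b1
      rw [b4] at b2
      linarith
    refine (Finset.sum_le_sum h1).trans (le_of_eq ?_)
    rw [Finset.sum_const, Finset.card_range, nsmul_eq_mul]
    push_cast
    ring
  have hG : g ^ (10 * (s + 1)) * (g ^ (10 * (s + 1)))⁻¹ = 1 := mul_inv_cancel₀ hGs.ne'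
  -- first piece
  have hp1 : |h.eval y| ≤ (g ^ (10 * (s + 1)))⁻¹ / 4 + (g ^ (10 * (s + 1)))⁻¹ / 4 := by
    refine (eval_bound h _ y hτ0 hτ1 hy190 J).trans (add_le_add ?_ ?_)
    · have h1 : ∀ l ∈ Finset.range J, |h.coeff l| * ((g ^ 190)⁻¹) ^ l ≤
          (g ^ (10 * (s + 1)))⁻¹ / (4 * (J + 1)) := by
        intro l hl
        have h2 := hcoeff l (Finset.mem_range.1 hl)
        calc |h.coeff l| * ((g ^ 190)⁻¹) ^ l
            ≤ g ^ (190 * l) / g ^ (10 * (s + 1)) / (4 * (J + 1)) * ((g ^ 190)⁻¹) ^ l :=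
              mul_le_mul_of_nonneg_right h2 (by positivity)
          _ = (g ^ (10 * (s + 1)))⁻¹ / (4 * (J + 1)) := by
              rw [inv_pow, ← pow_mul]
              field_simp
      refine (Finset.sum_le_sum h1).trans ?_
      rw [Finset.sum_const, Finset.card_range, nsmul_eq_mul]
      have h3 : (0 : ℝ) < J + 1 := by positivity
      have h4 : (J : ℝ) * ((g ^ (10 * (s + 1)))⁻¹ / (4 * (J + 1))) =
          (g ^ (10 * (s + 1)))⁻¹ / 4 * (J / (J + 1)) := by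
        field_simp
      rw [h4]
      have h5 : (J : ℝ) / (J + 1) ≤ 1 := by
        rw [div_le_one h3]
        linarith
      exact mul_le_of_le_one_right (by positivity) h5
    · have h1 : l1 h * ((g ^ 190)⁻¹) ^ J ≤
          3 * (m + 1) * 27 ^ m * g ^ (200 * m + W) * ((g ^ 190)⁻¹) ^ J :=
        mul_le_mul_of_nonneg_right hl1h (by positivity)
      refine h1.trans ?_
      have h2 : g ^ (200 * m + W) * g ^ (10 * (s + 1)) * g ^ (m + 2) ≤ g ^ (190 * J) := by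
        rw [← pow_add, ← pow_add]
        exact pow_le_pow_right₀ hg1 (by omega)
      have h3 : (3 * (m + 1) * 27 ^ m : ℝ) * 4 ≤ g ^ (m + 2) := by
        have h4 : (3 * (m + 1) * 27 ^ m : ℝ) * 4 ≤ 12 * (2 * m + 4) * (m + 1) * 27 ^ m := by
          have h5 : (1 : ℝ) ≤ 2 * m + 4 := by linarith
          calc (3 * (m + 1) * 27 ^ m : ℝ) * 4 = 12 * 1 * (m + 1) * 27 ^ m := by ring
            _ ≤ 12 * (2 * m + 4) * (m + 1) * 27 ^ m := by gcongr
        refine h4.trans (hgm1.trans ?_)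
        exact pow_le_pow_right₀ hg1 (by omega)
      rw [inv_pow, ← pow_mul, ← div_eq_mul_inv, div_le_iff₀ (by positivity)]
      have h6 : 3 * (m + 1) * 27 ^ m * g ^ (200 * m + W) * 4 * g ^ (10 * (s + 1)) ≤
          g ^ (190 * J) := by
        calc 3 * (m + 1) * 27 ^ m * g ^ (200 * m + W) * 4 * g ^ (10 * (s + 1))
            = (3 * (m + 1) * 27 ^ m * 4) * (g ^ (200 * m + W) * g ^ (10 * (s + 1))) := by ring
          _ ≤ g ^ (m + 2) * (g ^ (200 * m + W) * g ^ (10 * (s + 1))) := by gcongr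
          _ = g ^ (200 * m + W) * g ^ (10 * (s + 1)) * g ^ (m + 2) := by ring
          _ ≤ _ := h2
      rw [div_mul_eq_mul_div, le_div_iff₀ (by norm_num : (0 : ℝ) < 4),
        inv_mul_eq_div, le_div_iff₀ hGs]
      exact h6
  -- second piece
  have hTy : |T.eval y| ≤ 27 + 27 * g ^ 10 := by
    refine (eval_T_le T (g ^ 200) ((g ^ 190)⁻¹) y hD hT1 hT2 hy190 hτ1).trans (le_of_eq ?_)
    have : g ^ 200 * (g ^ 190)⁻¹ = g ^ 10 := by
      rw [show (200 : ℕ) = 190 + 10 from rfl, pow_add]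
      field_simp
    rw [mul_assoc, this]
  have hg10 : (28 : ℝ) ≤ 28 * g ^ 10 := by
    have : (1 : ℝ) ≤ g ^ 10 := one_le_pow₀ hg1
    linarith
  have hmax : max |T.eval y + r| |T.eval y| ≤ 55 * g ^ 10 := by
    refine max_le ?_ (by linarith)
    refine (abs_add_le _ _).trans (by linarith)
  have hp2 : |∑ i ∈ Finset.range (m + 1), (T.eval y + r) ^ i *
      ((u i : ℝ) * (θ0 + R * y) + (v i : ℝ)) - h.eval y| ≤ (g ^ (10 * (s + 1)))⁻¹ / 4 := by
    rw [hheval, ← Finset.sum_sub_distrib]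
    refine (Finset.abs_sum_le_sum_abs _ _).trans ?_
    have h1 : ∀ i ∈ Finset.range (m + 1), |(T.eval y + r) ^ i *
        ((u i : ℝ) * (θ0 + R * y) + (v i : ℝ)) - (T.eval y) ^ i *
        ((u i : ℝ) * (θ0 + R * y) + (v i : ℝ))| ≤
        |r| * m * (55 * g ^ 10) ^ (m - 1) * (3 * g ^ W) := by
      intro i hi
      have him : i ≤ m := by
        have := Finset.mem_range.1 hi
        omega
      rw [← sub_mul, abs_mul]
      refine mul_le_mul ?_ (hlin i him) (abs_nonneg _) (by positivity)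
      refine (abs_pow_sub_pow_le _ _ _).trans ?_
      rw [add_sub_cancel_left]
      have h2 : (i : ℝ) ≤ m := by exact_mod_cast him
      have h3 : max |T.eval y + r| |T.eval y| ^ (i - 1) ≤ (55 * g ^ 10) ^ (m - 1) := by
        refine (pow_le_pow_left₀ (by positivity) hmax _).trans ?_
        exact pow_le_pow_right₀ (by linarith) (by omega)
      gcongr
    refine (Finset.sum_le_sum h1).trans ?_
    rw [Finset.sum_const, Finset.card_range, nsmul_eq_mul]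
    have h4 : |r| ≤ (g ^ (40 * s))⁻¹ := by
      rw [← one_div, le_div_iff₀ (by positivity)]
      exact hr
    have h5 : ((m + 1 : ℕ) : ℝ) * (|r| * m * (55 * g ^ 10) ^ (m - 1) * (3 * g ^ W)) ≤
        ((m + 1 : ℕ) : ℝ) * ((g ^ (40 * s))⁻¹ * m * (55 * g ^ 10) ^ (m - 1) * (3 * g ^ W)) := by
      gcongr
    refine h5.trans ?_
    have h6 : (3 * (m + 1) * m * 55 ^ (m - 1) : ℝ) * 4 ≤ g ^ m := by
      obtain ⟨k, rfl⟩ : ∃ k, m = k + 1 := ⟨m - 1, by omega⟩
      rw [Nat.add_sub_cancel]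
      refine le_trans ?_ hgm2
      have : (0 : ℝ) ≤ 3 * (((k + 1 : ℕ) : ℝ) + 1) * ((k + 1 : ℕ) : ℝ) * 55 ^ k := by positivity
      rw [pow_succ]
      linarith
    have h7 : g ^ m * g ^ (10 * (m - 1)) * g ^ W * g ^ (10 * (s + 1)) ≤ g ^ (40 * s) := by
      rw [← pow_add, ← pow_add, ← pow_add]
      exact pow_le_pow_right₀ hg1 (by omega)
    have h8 : (((m + 1 : ℕ) : ℝ) * ((g ^ (40 * s))⁻¹ * m * (55 * g ^ 10) ^ (m - 1) * (3 * g ^ W)))
        = (3 * (m + 1) * m * 55 ^ (m - 1)) * (g ^ (10 * (m - 1)) * g ^ W) / g ^ (40 * s) := by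
      rw [mul_pow, ← pow_mul]
      push_cast
      field_simp
    rw [h8, div_le_iff₀ (by positivity)]
    rw [div_mul_eq_mul_div, le_div_iff₀ (by norm_num : (0 : ℝ) < 4),
      inv_mul_eq_div, le_div_iff₀ hGs]
    calc 3 * (m + 1) * m * 55 ^ (m - 1) * (g ^ (10 * (m - 1)) * g ^ W) * 4 * g ^ (10 * (s + 1))
        = (3 * (m + 1) * m * 55 ^ (m - 1) * 4) * (g ^ (10 * (m - 1)) * g ^ W
          * g ^ (10 * (s + 1))) := by ring
      _ ≤ g ^ m * (g ^ (10 * (m - 1)) * g ^ W * g ^ (10 * (s + 1))) := by gcongr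
      _ = g ^ m * g ^ (10 * (m - 1)) * g ^ W * g ^ (10 * (s + 1)) := by ring
      _ ≤ _ := h7
  have hfin : |∑ i ∈ Finset.range (m + 1), (T.eval y + r) ^ i *
      ((u i : ℝ) * (θ0 + R * y) + (v i : ℝ))| ≤ 3 / 4 * (g ^ (10 * (s + 1)))⁻¹ := by
    have h1 := abs_sub_abs_le_abs_sub (∑ i ∈ Finset.range (m + 1), (T.eval y + r) ^ i *
      ((u i : ℝ) * (θ0 + R * y) + (v i : ℝ))) (h.eval y)
    linarith
  calc _ ≤ 3 / 4 * (g ^ (10 * (s + 1)))⁻¹ * g ^ (10 * (s + 1)) :=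
        mul_le_mul_of_nonneg_right hfin hGs.le
    _ = 3 / 4 := by rw [mul_assoc, inv_mul_cancel₀ hGs.ne', mul_one]
    _ < 1 := by norm_num

end Pool.Agent.LibHLP
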