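import Mathlib

set_option autoImplicit false

namespace Pool.Agent.LibHLP

/-- reduction of the second vector -/
theorem Basis_red (x1 y1 x2 y2 lam : ℝ) (hlam : 0 < lam) (hlam1 : lam ≤ 1) (hx : |x1| = lam)
    (hy : |y1| ≤ lam) (hdet : |x1 * y2 - x2 * y1| = 1) :
    ∃ t : ℤ, |x2 + t * x1| * lam ≤ 2 ∧ |y2 + t * y1| * lam ≤ 2 := by
  have hx0 : x1 ≠ 0 := by
    intro h
    rw [h, abs_zero] at hx
    exact hlam.ne hx
  refine ⟨round (-x2 / x1), ?_, ?_⟩
  all_goals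
    have h1 : |x2 + (round (-x2 / x1) : ℤ) * x1| ≤ lam / 2 := by
      have h2 := abs_sub_round (-x2 / x1)
      have h3 : x2 + (round (-x2 / x1) : ℤ) * x1 = -x1 * (-x2 / x1 - (round (-x2 / x1) : ℤ)) := by
        field_simp
        ring
      rw [h3, abs_mul, abs_neg, hx]
      calc lam * |-x2 / x1 - (round (-x2 / x1) : ℤ)| ≤ lam * (1 / 2) :=
            mul_le_mul_of_nonneg_left h2 hlam.le
        _ = lam / 2 := by ring
  · calc |x2 + (round (-x2 / x1) : ℤ) * x1| * lam ≤ (lam / 2) * lam :=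
          mul_le_mul_of_nonneg_right h1 hlam.le
      _ ≤ 2 := by nlinarith
  · have h4 : x1 * (y2 + (round (-x2 / x1) : ℤ) * y1) =
        (x1 * y2 - x2 * y1) + (x2 + (round (-x2 / x1) : ℤ) * x1) * y1 := by ring
    have h5 : |x1 * (y2 + (round (-x2 / x1) : ℤ) * y1)| ≤ 1 + lam / 2 * lam := by
      rw [h4]
      refine (abs_add_le _ _).trans ?_
      rw [hdet, abs_mul]
      have : |x2 + (round (-x2 / x1) : ℤ) * x1| * |y1| ≤ lam / 2 * lam :=
        mul_le_mul h1 hy (abs_nonneg _) (by positivity)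
      linarith
    rw [abs_mul, hx] at h5
    rw [mul_comm]
    nlinarith

/-- A basis of `ℤ^2` adapted to the real number `s` at the scale `κ`. -/
theorem exists_basis (s κ : ℝ) (hκ : 1 < κ) : ∃ (p1 q1 p2 q2 : ℤ) (lam : ℝ), 0 < lam ∧ lam ≤ 1 ∧
    0 < q1 ∧ p1 * q2 - p2 * q1 = 1 ∧ |(p1 : ℝ) - s * q1| * κ ≤ lam ∧ (q1 : ℝ) ≤ lam * κ ∧
    |(p2 : ℝ) - s * q2| * κ * lam ≤ 2 ∧ |(q2 : ℝ)| * lam ≤ 2 * κ := by
  have hκ0 : 0 < κ := by linarith
  -- Dirichlet
  have hn : 0 < ⌊κ⌋₊ := Nat.floor_pos.2 hκ.le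
  obtain ⟨j, k, hk0, hkn, hjk⟩ := Real.exists_int_int_abs_mul_sub_le s hn
  have hfl : κ < (⌊κ⌋₊ : ℝ) + 1 := Nat.lt_floor_add_one _
  have hfl' : ((⌊κ⌋₊ : ℕ) : ℝ) ≤ κ := Nat.floor_le hκ0.le
  have hkR : (k : ℝ) ≤ κ := le_trans (by exact_mod_cast hkn) hfl'
  have hk0R : (0 : ℝ) < k := by exact_mod_cast hk0
  have he : |(k : ℝ) * s - j| ≤ 1 / κ := by
    refine hjk.trans ?_
    exact one_div_le_one_div_of_le hκ0 hfl.le
  -- the primitive vector
  set g : ℤ := (Int.gcd j k : ℤ) with hg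
  have hgpos : 0 < g := by
    have : Int.gcd j k ≠ 0 := by
      rw [Ne, Int.gcd_eq_zero_iff]
      rintro ⟨-, h⟩
      exact hk0.ne' h
    have : 0 < Int.gcd j k := Nat.pos_of_ne_zero this
    rw [hg]
    exact_mod_cast this
  obtain ⟨p1, hp1⟩ : g ∣ j := Int.gcd_dvd_left j k
  obtain ⟨q1, hq1⟩ : g ∣ k := Int.gcd_dvd_right j k
  have hbez := Int.gcd_eq_gcd_ab j k
  set α := Int.gcdA j k
  set β := Int.gcdB j k
  have hbez1 : p1 * α + q1 * β = 1 := by
    have h1 : g * (p1 * α + q1 * β) = g * 1 := by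
      rw [mul_one]
      calc g * (p1 * α + q1 * β) = (g * p1) * α + (g * q1) * β := by ring
        _ = j * α + k * β := by rw [← hp1, ← hq1]
        _ = g := hbez.symm
    exact mul_left_cancel₀ hgpos.ne' h1
  have hgR : (1 : ℝ) ≤ g := by exact_mod_cast hgpos
  have hq1pos : 0 < q1 := by
    have : 0 < g * q1 := hq1 ▸ hk0
    exact (mul_pos_iff_of_pos_left hgpos).1 this
  have hq1R : (0 : ℝ) < q1 := by exact_mod_cast hq1pos
  set u1 : ℝ := ((p1 : ℝ) - s * q1) * κ with hu1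
  set w1 : ℝ := (q1 : ℝ) / κ with hw1
  have hU1 : |u1| ≤ 1 := by
    have h1 : (g : ℝ) * ((p1 : ℝ) - s * q1) = j - k * s := by
      rw [hp1, hq1]; push_cast; ring
    have h2 : |(g : ℝ) * ((p1 : ℝ) - s * q1)| ≤ 1 / κ := by
      rw [h1, abs_sub_comm]; exact he
    rw [abs_mul, abs_of_pos (by linarith : (0 : ℝ) < g)] at h2
    have h3 : |(p1 : ℝ) - s * q1| ≤ 1 / κ := by
      have : |(p1 : ℝ) - s * q1| ≤ (g : ℝ) * |(p1 : ℝ) - s * q1| :=
        le_mul_of_one_le_left (abs_nonneg _) hgR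
      linarith
    rw [hu1, abs_mul, abs_of_pos hκ0]
    rwa [le_div_iff₀ hκ0] at h3
  have hw1pos : 0 < w1 := by positivity
  have hW1 : w1 ≤ 1 := by
    have h1 : (q1 : ℝ) ≤ k := by
      have : q1 ≤ g * q1 := le_mul_of_one_le_left hq1pos.le hgpos
      rw [← hq1] at this
      exact_mod_cast this
    rw [hw1, div_le_one hκ0]
    linarith
  set u2 : ℝ := ((-β : ℝ) - s * α) * κ with hu2
  set w2 : ℝ := (α : ℝ) / κ with hw2
  have hdet : u1 * w2 - u2 * w1 = 1 := by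
    have h1 : (p1 : ℝ) * α + q1 * β = 1 := by exact_mod_cast hbez1
    rw [hu1, hu2, hw1, hw2]
    field_simp
    linear_combination h1
  set lam := max |u1| w1 with hlam
  have hlam0 : 0 < lam := lt_of_lt_of_le hw1pos (le_max_right _ _)
  have hlam1 : lam ≤ 1 := max_le hU1 hW1
  have hred : ∃ t : ℤ, |u2 + t * u1| * lam ≤ 2 ∧ |w2 + t * w1| * lam ≤ 2 := by
    rcases le_total |u1| w1 with h | h
    · have e : lam = w1 := max_eq_right h
      obtain ⟨t, h1, h2⟩ := Basis_red w1 u1 w2 u2 lam hlam0 hlam1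
        (by rw [e, abs_of_pos hw1pos]) (le_max_left _ _) (by
          rw [show w1 * u2 - w2 * u1 = -(u1 * w2 - u2 * w1) by ring, hdet]
          norm_num)
      exact ⟨t, h2, h1⟩
    · have e : lam = |u1| := max_eq_left h
      obtain ⟨t, h1, h2⟩ := Basis_red u1 w1 u2 w2 lam hlam0 hlam1 e.symm
        (by rw [abs_of_pos hw1pos]; exact le_max_right _ _) (by rw [hdet]; norm_num)
      exact ⟨t, h1, h2⟩
  obtain ⟨t, ht1, ht2⟩ := hred
  refine ⟨p1, q1, -β + t * p1, α + t * q1, lam, hlam0, hlam1, hq1pos, ?_, ?_, ?_, ?_, ?_⟩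
  · linear_combination hbez1
  · have : |(p1 : ℝ) - s * q1| * κ = |u1| := by
      rw [hu1, abs_mul, abs_of_pos hκ0]
    rw [this]
    exact le_max_left _ _
  · have : (q1 : ℝ) = w1 * κ := by
      rw [hw1]
      field_simp
    rw [this]
    exact mul_le_mul_of_nonneg_right (le_max_right _ _) hκ0.le
  · have h1 : |(((-β + t * p1 : ℤ)) : ℝ) - s * ((α + t * q1 : ℤ) : ℝ)| * κ = |u2 + t * u1| := by
      calc |(((-β + t * p1 : ℤ)) : ℝ) - s * ((α + t * q1 : ℤ) : ℝ)| * κ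
          = |((((-β + t * p1 : ℤ)) : ℝ) - s * ((α + t * q1 : ℤ) : ℝ)) * κ| := by
            rw [abs_mul, abs_of_pos hκ0]
        _ = |u2 + t * u1| := by
            rw [hu1, hu2]
            push_cast
            congr 1
            ring
    rw [h1]
    exact ht1
  · have h1 : |((α + t * q1 : ℤ) : ℝ)| = |w2 + t * w1| * κ := by
      calc |((α + t * q1 : ℤ) : ℝ)| = |(w2 + t * w1) * κ| := by
            rw [hw1, hw2]
            push_cast
            congr 1
            field_simp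
        _ = |w2 + t * w1| * κ := by rw [abs_mul, abs_of_pos hκ0]
    rw [h1]
    calc |w2 + t * w1| * κ * lam = (|w2 + t * w1| * lam) * κ := by ring
      _ ≤ 2 * κ := mul_le_mul_of_nonneg_right ht2 hκ0.le

end Pool.Agent.LibHLP
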