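import Mathlib

/-!
Definitions for the power saving theorem on curves with an integral point of polynomial size.
-/

set_option autoImplicit false

namespace Pool.Agent.LibHLP

/-- The symmetric quadrilinear form with
`T4 x y A v v v v = p^4 - 6 x p^2 q^2 + 8 y p q^3 - (3 x^2 + 4 A) q^4`, `v = (p, q)`. -/
def T4 (x y A : ℤ) (u v w z : ℤ × ℤ) : ℤ :=
  u.1 * v.1 * w.1 * z.1
    - x * (u.2 * v.2 * w.1 * z.1 + u.2 * v.1 * w.2 * z.1 + u.2 * v.1 * w.1 * z.2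
      + u.1 * v.2 * w.2 * z.1 + u.1 * v.2 * w.1 * z.2 + u.1 * v.1 * w.2 * z.2)
    + 2 * y * (u.1 * v.2 * w.2 * z.2 + u.2 * v.1 * w.2 * z.2 + u.2 * v.2 * w.1 * z.2
      + u.2 * v.2 * w.2 * z.1)
    - (3 * x ^ 2 + 4 * A) * (u.2 * v.2 * w.2 * z.2)

/-- The reduced quartic forms `a X^4 + 4 b X^3 Y + 6 c X^2 Y^2 + 4 d X Y^3 + e Y^4` which
represent `1` at a point of polynomial size. -/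
def Good (H lam : ℝ) (N : ℕ) (a b c d e : ℤ) : Prop :=
  a ≠ 0 ∧ |(a : ℝ)| ≤ 5152 * H * lam ^ 4 ∧ |(b : ℝ)| ≤ 5152 * H * lam ^ 2 ∧
    |(c : ℝ)| ≤ 5152 * H ∧ |(d : ℝ)| * lam ^ 2 ≤ 5152 * H ∧ |(e : ℝ)| * lam ^ 4 ≤ 5152 * H ∧
    ∃ P Q : ℤ, Q ≠ 0 ∧ |(Q : ℝ)| ≤ H ^ N ∧ |(P : ℝ)| * |(a : ℝ)| ≤ 5152 * H * lam ^ 2 * |(Q : ℝ)| ∧
      a * P ^ 4 + 4 * b * P ^ 3 * Q + 6 * c * P ^ 2 * Q ^ 2 + 4 * d * P * Q ^ 3 + e * Q ^ 4 = 1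

/-- The values `d` for which `a4 p^4 + a3 p^3 q + a2 p^2 q^2 + a1 p q^3 + d q^4 = 1` has a solution
with `Q1 ≤ |q| ≤ Q2` and `|p / q - θ0| ≤ ρ`. -/
def patchSet (a1 a2 a3 a4 : ℤ) (θ0 ρ Q1 Q2 : ℝ) : Set ℤ :=
  {d | ∃ p q : ℤ, q ≠ 0 ∧ Q1 ≤ |(q : ℝ)| ∧ |(q : ℝ)| ≤ Q2 ∧ |(p : ℝ) / q - θ0| ≤ ρ ∧
    a4 * p ^ 4 + a3 * p ^ 3 * q + a2 * p ^ 2 * q ^ 2 + a1 * p * q ^ 3 + d * q ^ 4 = 1}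

/-- The values `d` for which `a4 p^4 + a3 p^3 q + a2 p^2 q^2 + a1 p q^3 + d q^4 = 1` has a solution
with `0 < |q| ≤ Q` and `|p| ≤ R |q|`. -/
def pencilSet (a1 a2 a3 a4 : ℤ) (R Q : ℝ) : Set ℤ :=
  {d | ∃ p q : ℤ, q ≠ 0 ∧ |(q : ℝ)| ≤ Q ∧ |(p : ℝ)| ≤ R * |(q : ℝ)| ∧
    a4 * p ^ 4 + a3 * p ^ 3 * q + a2 * p ^ 2 * q ^ 2 + a1 * p * q ^ 3 + d * q ^ 4 = 1}

end Pool.Agent.LibHLP
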