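import Mathlib

set_option autoImplicit false

namespace Pool.Agent.LibHLP

/-- Counting by fibres. -/
theorem ncard_fibre {α β : Type} (S : Set (α × β)) (T : Finset α) (M : ℝ)
    (hT : ∀ p ∈ S, p.1 ∈ T)
    (hfib : ∀ a ∈ T, {b | (a, b) ∈ S}.Finite ∧ ({b | (a, b) ∈ S}.ncard : ℝ) ≤ M) :
    S.Finite ∧ (S.ncard : ℝ) ≤ T.card * M := by
  classical
  have hS : S = ⋃ a ∈ (T : Set α), (fun b => (a, b)) '' {b | (a, b) ∈ S} := by
    ext p
    obtain ⟨a, b⟩ := p
    simp only [Set.mem_iUnion, Set.mem_image, Set.mem_ofPred_eq, Prod.mk.injEq, Finset.mem_coe,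
      exists_prop]
    constructor
    · intro h
      exact ⟨a, hT _ h, b, h, rfl, rfl⟩
    · rintro ⟨a', _, b', h, rfl, rfl⟩
      exact h
  have hfin : S.Finite := by
    rw [hS]
    exact Set.Finite.biUnion T.finite_toSet fun a ha => (hfib a ha).1.image _
  refine ⟨hfin, ?_⟩
  have h1 : S.ncard ≤ ∑ a ∈ T, {b | (a, b) ∈ S}.ncard := by
    have h2 : hfin.toFinset = T.biUnion fun a => ((hfin.toFinset).filter fun p => p.1 = a) := by
      ext p
      simp only [Set.Finite.mem_toFinset, Finset.mem_biUnion, Finset.mem_filter]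
      constructor
      · intro h
        exact ⟨p.1, hT _ h, h, rfl⟩
      · rintro ⟨_, _, h, _⟩
        exact h
    rw [Set.ncard_eq_toFinset_card S hfin, h2]
    refine Finset.card_biUnion_le.trans (Finset.sum_le_sum fun a ha => ?_)
    rw [← Set.ncard_coe_finset]
    have h3 : ((((hfin.toFinset).filter fun p => p.1 = a) : Finset (α × β)) : Set (α × β)) =
        (fun b => (a, b)) '' {b | (a, b) ∈ S} := by
      ext p
      obtain ⟨a', b⟩ := p
      simp only [Finset.coe_filter, Set.Finite.mem_toFinset, Set.mem_ofPred_eq, Set.mem_image,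
        Prod.mk.injEq]
      constructor
      · rintro ⟨h, rfl⟩
        exact ⟨b, h, rfl, rfl⟩
      · rintro ⟨b', h, rfl, rfl⟩
        exact ⟨h, rfl⟩
    rw [h3]
    exact Set.ncard_image_le (hfib a ha).1
  calc (S.ncard : ℝ) ≤ ((∑ a ∈ T, {b | (a, b) ∈ S}.ncard : ℕ) : ℝ) := by exact_mod_cast h1
    _ = ∑ a ∈ T, ({b | (a, b) ∈ S}.ncard : ℝ) := by push_cast; rfl
    _ ≤ ∑ _a ∈ T, M := Finset.sum_le_sum fun a ha => (hfib a ha).2
    _ = T.card * M := by rw [Finset.sum_const, nsmul_eq_mul]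

/-- The integers of absolute value at most `X`. -/
noncomputable def ball (X : ℝ) : Finset ℤ := Finset.Icc (-⌊X⌋) ⌊X⌋

theorem mem_ball (X : ℝ) (a : ℤ) : a ∈ ball X ↔ |(a : ℝ)| ≤ X := by
  unfold ball
  rw [Finset.mem_Icc, abs_le, Int.le_floor, neg_le, Int.le_floor]
  push_cast
  constructor
  · rintro ⟨h1, h2⟩
    exact ⟨by linarith, h2⟩
  · rintro ⟨h1, h2⟩
    exact ⟨by linarith, h2⟩

theorem card_ball_eq (X : ℝ) (hX : 0 ≤ X) : ((ball X).card : ℝ) = 2 * (⌊X⌋ : ℝ) + 1 := by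
  unfold ball
  rw [Int.card_Icc]
  have h0 : 0 ≤ ⌊X⌋ := Int.floor_nonneg.2 hX
  have h1 : ((((⌊X⌋ + 1 - -⌊X⌋).toNat : ℕ) : ℤ) : ℝ) = ((⌊X⌋ + 1 - -⌊X⌋ : ℤ) : ℝ) := by
    rw [Int.toNat_of_nonneg (by omega)]
  rw [Int.cast_natCast] at h1
  rw [h1]
  push_cast
  ring

theorem card_ball (X : ℝ) (hX : 0 ≤ X) : ((ball X).card : ℝ) ≤ 2 * X + 1 := by
  rw [card_ball_eq X hX]
  linarith [Int.floor_le X]

theorem card_ball_erase (X : ℝ) (hX : 0 ≤ X) : (((ball X).erase 0).card : ℝ) ≤ 2 * X := by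
  have h0 : (0 : ℤ) ∈ ball X := by
    rw [mem_ball]
    simpa using hX
  have h1 := Finset.card_erase_add_one h0
  have h2 : (((ball X).erase 0).card : ℝ) + 1 = ((ball X).card : ℝ) := by exact_mod_cast h1
  linarith [card_ball X hX]

/-- A union of boundedly many sets. -/
theorem ncard_iUnion {α : Type} (n : ℕ) (S : ℕ → Set α) (M : ℝ)
    (h : ∀ i < n, (S i).Finite ∧ ((S i).ncard : ℝ) ≤ M) :
    (⋃ i ∈ Finset.range n, S i).Finite ∧ ((⋃ i ∈ Finset.range n, S i).ncard : ℝ) ≤ n * M := by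
  have hfin : (⋃ i ∈ Finset.range n, S i).Finite :=
    Set.Finite.biUnion (Finset.range n).finite_toSet fun i hi =>
      (h i (Finset.mem_range.1 (Finset.mem_coe.1 hi))).1
  refine ⟨hfin, ?_⟩
  have h1 : ∀ k ≤ n, ((⋃ i ∈ Finset.range k, S i).ncard : ℝ) ≤ k * M := by
    intro k
    induction k with
    | zero => simp
    | succ k ih =>
      intro hk
      have h2 : (⋃ i ∈ Finset.range (k + 1), S i) = (⋃ i ∈ Finset.range k, S i) ∪ S k := by
        ext p
        simp only [Set.mem_iUnion, Finset.mem_range, Set.mem_union, exists_prop]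
        constructor
        · rintro ⟨i, hi, hp⟩
          rcases Nat.lt_succ_iff_lt_or_eq.1 hi with h3 | h3
          · exact Or.inl ⟨i, h3, hp⟩
          · exact Or.inr (h3 ▸ hp)
        · rintro (⟨i, hi, hp⟩ | hp)
          · exact ⟨i, Nat.lt_succ_of_lt hi, hp⟩
          · exact ⟨k, Nat.lt_succ_self k, hp⟩
      rw [h2]
      have h3 := Set.ncard_union_le (⋃ i ∈ Finset.range k, S i) (S k)
      have h4 : (((⋃ i ∈ Finset.range k, S i) ∪ S k).ncard : ℝ) ≤
          ((⋃ i ∈ Finset.range k, S i).ncard : ℝ) + ((S k).ncard : ℝ) := by exact_mod_cast h3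
      have h5 := ih (by omega)
      have h6 := (h k (by omega)).2
      push_cast
      linarith
  exact h1 n le_rfl

end Pool.Agent.LibHLP
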