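import Pool.Agent.LibHLP.Pencil
import Pool.Agent.LibHLP.Fibre

set_option autoImplicit false

namespace Pool.Agent.LibHLP

/-- what `Good` gives for `lam` in a dyadic interval -/
private theorem dy_bounds {H L lam : ℝ} {N : ℕ} {a b c d e : ℤ} (hH : 1 ≤ H) (hL : 0 < L)
    (h1 : L / 2 < lam) (h2 : lam ≤ L) (h : Good H lam N a b c d e) :
    a ≠ 0 ∧ |(a : ℝ)| ≤ 5152 * H * L ^ 4 ∧ |(b : ℝ)| ≤ 5152 * H * L ^ 2 ∧
    |(c : ℝ)| ≤ 5152 * H ∧ |(d : ℝ)| ≤ 4 * 5152 * H * L⁻¹ ^ 2 ∧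
    |(e : ℝ)| ≤ 16 * 5152 * H * L⁻¹ ^ 4 ∧
    ∃ P Q : ℤ, Q ≠ 0 ∧ |(Q : ℝ)| ≤ H ^ N ∧ |(P : ℝ)| * |(a : ℝ)| ≤ 5152 * H * L ^ 2 * |(Q : ℝ)| ∧
      a * P ^ 4 + 4 * b * P ^ 3 * Q + 6 * c * P ^ 2 * Q ^ 2 + 4 * d * P * Q ^ 3 + e * Q ^ 4 = 1 := by
  obtain ⟨ha0, ha, hb, hc, hd, he, P, Q, hQ0, hQ, hP, hf⟩ := h
  have hlam : 0 < lam := by linarith
  have hl2 : lam ^ 2 ≤ L ^ 2 := pow_le_pow_left₀ hlam.le h2 2
  have hl4 : lam ^ 4 ≤ L ^ 4 := pow_le_pow_left₀ hlam.le h2 4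
  have hg2 : L ^ 2 / 4 ≤ lam ^ 2 := by
    have := pow_le_pow_left₀ (by linarith : (0 : ℝ) ≤ L / 2) h1.le 2
    calc L ^ 2 / 4 = (L / 2) ^ 2 := by ring
      _ ≤ lam ^ 2 := this
  have hg4 : L ^ 4 / 16 ≤ lam ^ 4 := by
    have := pow_le_pow_left₀ (by linarith : (0 : ℝ) ≤ L / 2) h1.le 4
    calc L ^ 4 / 16 = (L / 2) ^ 4 := by ring
      _ ≤ lam ^ 4 := this
  have hHpos : 0 < H := by linarith
  refine ⟨ha0, ha.trans ?_, hb.trans ?_, hc, ?_, ?_, P, Q, hQ0, hQ, hP.trans ?_, hf⟩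
  · exact mul_le_mul_of_nonneg_left hl4 (by positivity)
  · exact mul_le_mul_of_nonneg_left hl2 (by positivity)
  · have h3 : |(d : ℝ)| * (L ^ 2 / 4) ≤ 5152 * H :=
      (mul_le_mul_of_nonneg_left hg2 (abs_nonneg _)).trans hd
    have h4 : |(d : ℝ)| * L ^ 2 ≤ 4 * 5152 * H := by linarith
    calc |(d : ℝ)| = |(d : ℝ)| * L ^ 2 * L⁻¹ ^ 2 := by
          field_simp
      _ ≤ 4 * 5152 * H * L⁻¹ ^ 2 := mul_le_mul_of_nonneg_right h4 (by positivity)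
  · have h3 : |(e : ℝ)| * (L ^ 4 / 16) ≤ 5152 * H :=
      (mul_le_mul_of_nonneg_left hg4 (abs_nonneg _)).trans he
    have h4 : |(e : ℝ)| * L ^ 4 ≤ 16 * 5152 * H := by linarith
    calc |(e : ℝ)| = |(e : ℝ)| * L ^ 4 * L⁻¹ ^ 4 := by
          field_simp
      _ ≤ 16 * 5152 * H * L⁻¹ ^ 4 := mul_le_mul_of_nonneg_right h4 (by positivity)
  · exact mul_le_mul_of_nonneg_right (mul_le_mul_of_nonneg_left hl2 (by positivity))
      (abs_nonneg _)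

/-- the box of the quadruples -/
private noncomputable def dyT (X H L : ℝ) : Finset (ℤ × ℤ × ℤ × ℤ) :=
  (ball X).erase 0 ×ˢ ball (5152 * H * L ^ 2) ×ˢ ball (5152 * H) ×ˢ ball (4 * 5152 * H * L⁻¹ ^ 2)

private theorem card_dyT (X H L : ℝ) (hX : 0 ≤ X) (hH : 1 ≤ H) (hL : 0 < L) (hL1 : L ≤ 1)
    (hbig : 1 ≤ 5152 * H * L ^ 4) :
    ((dyT X H L).card : ℝ) ≤ 162 * 5152 ^ 3 * (X * H ^ 3) := by
  have hHpos : 0 < H := by linarith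
  have hL2 : L ^ 4 ≤ L ^ 2 := pow_le_pow_of_le_one hL.le hL1 (by norm_num)
  have h1 := card_ball_erase X hX
  have h2 := card_ball (5152 * H * L ^ 2) (by positivity)
  have h3 := card_ball (5152 * H) (by positivity)
  have h4 := card_ball (4 * 5152 * H * L⁻¹ ^ 2) (by positivity)
  have e2 : ((ball (5152 * H * L ^ 2)).card : ℝ) ≤ 3 * (5152 * H * L ^ 2) := by
    have : 5152 * H * L ^ 4 ≤ 5152 * H * L ^ 2 := mul_le_mul_of_nonneg_left hL2 (by positivity)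
    linarith
  have e3 : ((ball (5152 * H)).card : ℝ) ≤ 3 * (5152 * H) := by linarith
  have e4 : ((ball (4 * 5152 * H * L⁻¹ ^ 2)).card : ℝ) ≤ 9 * (5152 * H * L⁻¹ ^ 2) := by
    have hl : (1 : ℝ) ≤ L⁻¹ := (one_le_inv₀ hL).2 hL1
    have hl2 : (1 : ℝ) ≤ L⁻¹ ^ 2 := one_le_pow₀ hl
    have : 5152 * H * 1 ≤ 5152 * H * L⁻¹ ^ 2 := mul_le_mul_of_nonneg_left hl2 (by positivity)
    linarith
  rw [dyT, Finset.card_product, Finset.card_product, Finset.card_product]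
  push_cast
  calc (((ball X).erase 0).card : ℝ) * ((ball (5152 * H * L ^ 2)).card *
        ((ball (5152 * H)).card * (ball (4 * 5152 * H * L⁻¹ ^ 2)).card))
      ≤ (2 * X) * (3 * (5152 * H * L ^ 2) * (3 * (5152 * H) * (9 * (5152 * H * L⁻¹ ^ 2)))) := by
        gcongr
    _ = 162 * 5152 ^ 3 * (X * H ^ 3) * (L ^ 2 * L⁻¹ ^ 2) := by ring
    _ = 162 * 5152 ^ 3 * (X * H ^ 3) := by
        have : L ^ 2 * L⁻¹ ^ 2 = 1 := by
          field_simp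
        rw [this, mul_one]

private theorem mem_dyT (X H L : ℝ) (a b c d : ℤ) (ha0 : a ≠ 0) (ha : |(a : ℝ)| ≤ X)
    (hb : |(b : ℝ)| ≤ 5152 * H * L ^ 2) (hc : |(c : ℝ)| ≤ 5152 * H)
    (hd : |(d : ℝ)| ≤ 4 * 5152 * H * L⁻¹ ^ 2) : (a, b, c, d) ∈ dyT X H L := by
  rw [dyT, Finset.mem_product, Finset.mem_product, Finset.mem_product, Finset.mem_erase,
    mem_ball, mem_ball, mem_ball, mem_ball]
  exact ⟨⟨ha0, ha⟩, hb, hc, hd⟩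

private theorem of_mem_dyT {X H L : ℝ} {a b c d : ℤ} (h : (a, b, c, d) ∈ dyT X H L) :
    a ≠ 0 ∧ |(a : ℝ)| ≤ X ∧ |(b : ℝ)| ≤ 5152 * H * L ^ 2 ∧ |(c : ℝ)| ≤ 5152 * H ∧
    |(d : ℝ)| ≤ 4 * 5152 * H * L⁻¹ ^ 2 := by
  rw [dyT, Finset.mem_product, Finset.mem_product, Finset.mem_product, Finset.mem_erase,
    mem_ball, mem_ball, mem_ball, mem_ball] at h
  exact ⟨h.1.1, h.1.2, h.2.1, h.2.2.1, h.2.2.2⟩

/-- the set of good forms -/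
private def dyS (N : ℕ) (H L : ℝ) : Set ((ℤ × ℤ × ℤ × ℤ) × ℤ) :=
  {F : (ℤ × ℤ × ℤ × ℤ) × ℤ | ∃ lam : ℝ, L / 2 < lam ∧ lam ≤ L ∧
      Good H lam N F.1.1 F.1.2.1 F.1.2.2.1 F.1.2.2.2 F.2}

/-- the forms with small leading coefficient -/
private theorem dy_case1 (N : ℕ) (H L η : ℝ) (hH : 1 ≤ H) (hL : 0 < L) (hL1 : L ≤ 1)
    (hη : 1 ≤ η) (hbig : 1 ≤ 5152 * H * L ^ 4) :
    (dyS N H L ∩ {F | |(F.1.1 : ℝ)| ≤ H / η * L ^ 4}).Finite ∧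
    ((dyS N H L ∩ {F | |(F.1.1 : ℝ)| ≤ H / η * L ^ 4}).ncard : ℝ)
      ≤ 162 * 5152 ^ 3 * 33 * 5152 * (H ^ 5 / η) := by
  have hHpos : 0 < H := by linarith
  have hηpos : 0 < η := by linarith
  have hl : (1 : ℝ) ≤ L⁻¹ := (one_le_inv₀ hL).2 hL1
  have key := ncard_fibre (dyS N H L ∩ {F | |(F.1.1 : ℝ)| ≤ H / η * L ^ 4})
    (dyT (H / η * L ^ 4) H L) (33 * 5152 * H * L⁻¹ ^ 4) ?_ ?_
  · refine ⟨key.1, key.2.trans ?_⟩
    have h1 := card_dyT (H / η * L ^ 4) H L (by positivity) hH hL hL1 hbig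
    calc ((dyT (H / η * L ^ 4) H L).card : ℝ) * (33 * 5152 * H * L⁻¹ ^ 4)
        ≤ 162 * 5152 ^ 3 * (H / η * L ^ 4 * H ^ 3) * (33 * 5152 * H * L⁻¹ ^ 4) :=
          mul_le_mul_of_nonneg_right h1 (by positivity)
      _ = 162 * 5152 ^ 3 * 33 * 5152 * (H ^ 5 / η) := by
          field_simp
  · rintro ⟨⟨a, b, c, d⟩, e⟩ ⟨⟨lam, h1, h2, hg⟩, ha⟩
    obtain ⟨ha0, _, hb, hc, hd, _, _⟩ := dy_bounds hH hL h1 h2 hg
    exact mem_dyT _ _ _ _ _ _ _ ha0 ha hb hc hd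
  · rintro ⟨a, b, c, d⟩ _
    have hsub : {e | ((a, b, c, d), e) ∈ dyS N H L ∩ {F | |(F.1.1 : ℝ)| ≤ H / η * L ^ 4}}
        ⊆ (ball (16 * 5152 * H * L⁻¹ ^ 4) : Finset ℤ) := by
      rintro e ⟨⟨lam, h1, h2, hg⟩, _⟩
      obtain ⟨_, _, _, _, _, he, _⟩ := dy_bounds hH hL h1 h2 hg
      rw [Finset.mem_coe, mem_ball]
      exact he
    refine ⟨(Finset.finite_toSet _).subset hsub, ?_⟩
    have h1 := Set.ncard_le_ncard hsub (Finset.finite_toSet _)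
    rw [Set.ncard_coe_finset] at h1
    have h2 : (({e | ((a, b, c, d), e) ∈ dyS N H L ∩ {F | |(F.1.1 : ℝ)| ≤ H / η * L ^ 4}}.ncard
        : ℕ) : ℝ) ≤ ((ball (16 * 5152 * H * L⁻¹ ^ 4)).card : ℝ) := by exact_mod_cast h1
    refine h2.trans ((card_ball _ (by positivity)).trans ?_)
    have hl4 : (1 : ℝ) ≤ L⁻¹ ^ 4 := one_le_pow₀ hl
    have : 5152 * H * 1 ≤ 5152 * H * L⁻¹ ^ 4 := mul_le_mul_of_nonneg_left hl4 (by positivity)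
    linarith

/-- the forms with large leading coefficient -/
private theorem dy_case2 (N : ℕ) (G0 K : ℝ) (hG0 : 1 < G0) (hK : 0 ≤ K)
    (hpen : ∀ G : ℝ, G0 ≤ G → ∀ R : ℝ, 1 ≤ R → ∀ a1 a2 a3 a4 : ℤ, a4 ≠ 0 →
      |(a1 : ℝ)| * R ≤ G ^ 20 → |(a2 : ℝ)| * R ^ 2 ≤ G ^ 20 → |(a3 : ℝ)| * R ^ 3 ≤ G ^ 20 →
      |(a4 : ℝ)| * R ^ 4 ≤ G ^ 20 → (pencilSet a1 a2 a3 a4 R (G ^ (20 * N))).Finite ∧
      ((pencilSet a1 a2 a3 a4 R (G ^ (20 * N))).ncard : ℝ) ≤ K * G ^ (1901 / 100 : ℝ))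
    (H L η : ℝ) (hH : 1 ≤ H) (hHG : G0 ^ 20 ≤ H) (hL : 0 < L) (hL1 : L ≤ 1)
    (hη : 1 ≤ η) (hbig : 1 ≤ 5152 * H * L ^ 4) :
    (dyS N H L ∩ {F | |(F.1.1 : ℝ)| ≤ H / η * L ^ 4}ᶜ).Finite ∧
    ((dyS N H L ∩ {F | |(F.1.1 : ℝ)| ≤ H / η * L ^ 4}ᶜ).ncard : ℝ)
      ≤ 162 * 5152 ^ 4 * (H ^ 4 * L ^ 4) *
        (K * (5152 ^ 5 * H * η ^ 4 * L⁻¹ ^ 4) ^ (1901 / 2000 : ℝ)) := by
  have hHpos : 0 < H := by linarith
  have hηpos : 0 < η := by linarith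
  have hl : (1 : ℝ) ≤ L⁻¹ := (one_le_inv₀ hL).2 hL1
  have hlpos : 0 < L⁻¹ := by positivity
  have hLl : L * L⁻¹ = 1 := mul_inv_cancel₀ hL.ne'
  set D : ℝ := 5152 ^ 5 * H * η ^ 4 * L⁻¹ ^ 4 with hD
  have hη2 : (1 : ℝ) ≤ η ^ 2 := one_le_pow₀ hη
  have hη3 : (1 : ℝ) ≤ η ^ 3 := one_le_pow₀ hη
  have hη4 : (1 : ℝ) ≤ η ^ 4 := one_le_pow₀ hη
  have hl4 : (1 : ℝ) ≤ L⁻¹ ^ 4 := one_le_pow₀ hl
  have hDH : H ≤ D := by
    calc H = 1 * H * 1 * 1 := by ring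
      _ ≤ 5152 ^ 5 * H * η ^ 4 * L⁻¹ ^ 4 := by
        gcongr
        norm_num
  have hDpos : 0 < D := by linarith
  set G : ℝ := D ^ (1 / 20 : ℝ) with hG
  have hGpos : 0 < G := Real.rpow_pos_of_pos hDpos _
  have hG20 : G ^ 20 = D := by
    rw [hG, ← Real.rpow_natCast, ← Real.rpow_mul hDpos.le]
    norm_num
  have hGG0 : G0 ≤ G := by
    have : G0 ^ 20 ≤ G ^ 20 := by rw [hG20]; linarith
    exact le_of_pow_le_pow_left₀ (by norm_num) hGpos.le this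
  have hGK : G ^ (1901 / 100 : ℝ) = D ^ (1901 / 2000 : ℝ) := by
    rw [hG, ← Real.rpow_mul hDpos.le]
    norm_num
  set R : ℝ := 5152 * η * L⁻¹ ^ 2 with hR
  have hR1 : 1 ≤ R := by
    calc (1 : ℝ) = 1 * 1 * 1 ^ 2 := by ring
      _ ≤ 5152 * η * L⁻¹ ^ 2 := by
        gcongr
        norm_num
  have hRpos : 0 < R := by linarith
  have key := ncard_fibre (dyS N H L ∩ {F | |(F.1.1 : ℝ)| ≤ H / η * L ^ 4}ᶜ)
    (dyT (5152 * H * L ^ 4) H L) (K * D ^ (1901 / 2000 : ℝ)) ?_ ?_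
  · refine ⟨key.1, key.2.trans ?_⟩
    have h1 := card_dyT (5152 * H * L ^ 4) H L (by positivity) hH hL hL1 hbig
    calc ((dyT (5152 * H * L ^ 4) H L).card : ℝ) * (K * D ^ (1901 / 2000 : ℝ))
        ≤ 162 * 5152 ^ 3 * (5152 * H * L ^ 4 * H ^ 3) * (K * D ^ (1901 / 2000 : ℝ)) :=
          mul_le_mul_of_nonneg_right h1 (by positivity)
      _ = _ := by ring
  · rintro ⟨⟨a, b, c, d⟩, e⟩ ⟨⟨lam, h1, h2, hg⟩, _⟩
    obtain ⟨ha0, ha, hb, hc, hd, _, _⟩ := dy_bounds hH hL h1 h2 hg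
    exact mem_dyT _ _ _ _ _ _ _ ha0 ha hb hc hd
  · rintro ⟨a, b, c, d⟩ hT
    obtain ⟨ha0, ha, hb, hc, hd⟩ := of_mem_dyT hT
    by_cases hasm : |(a : ℝ)| ≤ H / η * L ^ 4
    · have hemp : {e | ((a, b, c, d), e) ∈ dyS N H L ∩ {F | |(F.1.1 : ℝ)| ≤ H / η * L ^ 4}ᶜ}
          = ∅ := by
        ext e
        simp only [Set.mem_inter_iff, Set.mem_compl_iff]
        constructor
        · rintro ⟨_, h⟩
          exact h hasm
        · intro h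
          exact absurd h (Set.notMem_empty _)
      rw [hemp]
      refine ⟨Set.finite_empty, ?_⟩
      rw [Set.ncard_empty]
      push_cast
      positivity
    · have haR : H / η * L ^ 4 < |(a : ℝ)| := not_le.1 hasm
      have b4 : |((a : ℤ) : ℝ)| * R ^ 4 ≤ G ^ 20 := by
        rw [hG20]
        calc |((a : ℤ) : ℝ)| * R ^ 4 ≤ (5152 * H * L ^ 4) * R ^ 4 :=
              mul_le_mul_of_nonneg_right ha (by positivity)
          _ = D * (L * L⁻¹) ^ 4 := by rw [hR, hD]; ring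
          _ = D := by rw [hLl, one_pow, mul_one]
      have b3 : |((4 * b : ℤ) : ℝ)| * R ^ 3 ≤ G ^ 20 := by
        rw [hG20]
        push_cast
        rw [abs_mul, abs_of_pos (by norm_num : (0 : ℝ) < 4)]
        calc 4 * |(b : ℝ)| * R ^ 3 ≤ 4 * (5152 * H * L ^ 2) * R ^ 3 := by gcongr
          _ = (4 * 5152 ^ 4 * H * η ^ 3 * L⁻¹ ^ 4) * (L * L⁻¹) ^ 2 := by rw [hR]; ring
          _ = 4 * 5152 ^ 4 * H * η ^ 3 * L⁻¹ ^ 4 := by rw [hLl, one_pow, mul_one]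
          _ ≤ 5152 ^ 5 * H * η ^ 4 * L⁻¹ ^ 4 := by
              gcongr
              · norm_num
              · norm_num
      have b2 : |((6 * c : ℤ) : ℝ)| * R ^ 2 ≤ G ^ 20 := by
        rw [hG20]
        push_cast
        rw [abs_mul, abs_of_pos (by norm_num : (0 : ℝ) < 6)]
        calc 6 * |(c : ℝ)| * R ^ 2 ≤ 6 * (5152 * H) * R ^ 2 := by gcongr
          _ = 6 * 5152 ^ 3 * H * η ^ 2 * L⁻¹ ^ 4 := by rw [hR]; ring
          _ ≤ 5152 ^ 5 * H * η ^ 4 * L⁻¹ ^ 4 := by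
              gcongr
              · norm_num
              · norm_num
      have b1 : |((4 * d : ℤ) : ℝ)| * R ≤ G ^ 20 := by
        rw [hG20]
        push_cast
        rw [abs_mul, abs_of_pos (by norm_num : (0 : ℝ) < 4)]
        calc 4 * |(d : ℝ)| * R ≤ 4 * (4 * 5152 * H * L⁻¹ ^ 2) * R := by gcongr
          _ = 16 * 5152 ^ 2 * H * η ^ 1 * L⁻¹ ^ 4 := by rw [hR]; ring
          _ ≤ 5152 ^ 5 * H * η ^ 4 * L⁻¹ ^ 4 := by
              gcongr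
              · norm_num
              · norm_num
      obtain ⟨hfin, hcard⟩ := hpen G hGG0 R hR1 (4 * d) (6 * c) (4 * b) a ha0 b1 b2 b3 b4
      have hsub : {e | ((a, b, c, d), e) ∈ dyS N H L ∩ {F | |(F.1.1 : ℝ)| ≤ H / η * L ^ 4}ᶜ}
          ⊆ pencilSet (4 * d) (6 * c) (4 * b) a R (G ^ (20 * N)) := by
        rintro e ⟨⟨lam, h1, h2, hg⟩, _⟩
        obtain ⟨_, _, _, _, _, _, P, Q, hQ0, hQ, hP, hf⟩ := dy_bounds hH hL h1 h2 hg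
        refine ⟨P, Q, hQ0, ?_, ?_, ?_⟩
        · refine hQ.trans ?_
          rw [pow_mul, hG20]
          exact pow_le_pow_left₀ hHpos.le hDH N
        · simp only at hP
          have hapos : 0 < |(a : ℝ)| := lt_of_le_of_lt (by positivity) haR
          have h3 : 5152 * H * L ^ 2 ≤ R * |(a : ℝ)| := by
            calc 5152 * H * L ^ 2 = (5152 * H * L ^ 2) * (L * L⁻¹) ^ 2 := by
                  rw [hLl, one_pow, mul_one]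
              _ = R * (H / η * L ^ 4) := by
                  rw [hR]
                  field_simp
              _ ≤ R * |(a : ℝ)| := mul_le_mul_of_nonneg_left haR.le hRpos.le
          have h4 : |(P : ℝ)| * |(a : ℝ)| ≤ (R * |(Q : ℝ)|) * |(a : ℝ)| := by
            calc |(P : ℝ)| * |(a : ℝ)| ≤ 5152 * H * L ^ 2 * |(Q : ℝ)| := hP
              _ ≤ R * |(a : ℝ)| * |(Q : ℝ)| := mul_le_mul_of_nonneg_right h3 (abs_nonneg _)
              _ = (R * |(Q : ℝ)|) * |(a : ℝ)| := by ring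
          exact le_of_mul_le_mul_right h4 hapos
        · simp only at hf
          exact hf
      refine ⟨hfin.subset hsub, ?_⟩
      rw [← hGK]
      refine le_trans ?_ hcard
      exact_mod_cast Set.ncard_le_ncard hsub hfin

/-- The good forms with `lam` in a dyadic interval. -/
theorem dyadic_count (N : ℕ) : ∃ H0 K : ℝ, 1 ≤ H0 ∧ 0 ≤ K ∧ ∀ H : ℝ, H0 ≤ H → ∀ L : ℝ, 0 < L →
    L ≤ 1 → {F : (ℤ × ℤ × ℤ × ℤ) × ℤ | ∃ lam : ℝ, L / 2 < lam ∧ lam ≤ L ∧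
      Good H lam N F.1.1 F.1.2.1 F.1.2.2.1 F.1.2.2.2 F.2}.Finite ∧
    ({F : (ℤ × ℤ × ℤ × ℤ) × ℤ | ∃ lam : ℝ, L / 2 < lam ∧ lam ≤ L ∧
      Good H lam N F.1.1 F.1.2.1 F.1.2.2.1 F.1.2.2.2 F.2}.ncard : ℝ)
        ≤ K * H ^ (5 - 1 / 98 : ℝ) := by
  obtain ⟨G0, K, hG0, hK, hpen⟩ := pencil_count (20 * N)
  have hG20 : 1 ≤ G0 ^ 20 := one_le_pow₀ hG0.le
  refine ⟨G0 ^ 20, 162 * 5152 ^ 3 * 33 * 5152 + 162 * 5152 ^ 4 * (K * 5152 ^ 5), hG20,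
    by positivity, ?_⟩
  intro H hHG L hL hL1
  have hH : 1 ≤ H := hG20.trans hHG
  have hHpos : 0 < H := by linarith
  change (dyS N H L).Finite ∧ ((dyS N H L).ncard : ℝ) ≤ _
  by_cases hbig : 1 ≤ 5152 * H * L ^ 4
  · set η : ℝ := H ^ (1 / 98 : ℝ) with hη
    have hη1 : 1 ≤ η := Real.one_le_rpow hH (by norm_num)
    have hηpos : 0 < η := by linarith
    obtain ⟨f1, c1⟩ := dy_case1 N H L η hH hL hL1 hη1 hbig
    obtain ⟨f2, c2⟩ := dy_case2 N G0 K hG0 hK hpen H L η hH hHG hL hL1 hη1 hbig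
    have hun : dyS N H L = (dyS N H L ∩ {F | |(F.1.1 : ℝ)| ≤ H / η * L ^ 4}) ∪
        (dyS N H L ∩ {F | |(F.1.1 : ℝ)| ≤ H / η * L ^ 4}ᶜ) :=
      (Set.inter_union_compl _ _).symm
    have hfin : (dyS N H L).Finite := by
      rw [hun]
      exact f1.union f2
    refine ⟨hfin, ?_⟩
    have hle : ((dyS N H L).ncard : ℝ) ≤
        ((dyS N H L ∩ {F | |(F.1.1 : ℝ)| ≤ H / η * L ^ 4}).ncard : ℝ) +
        ((dyS N H L ∩ {F | |(F.1.1 : ℝ)| ≤ H / η * L ^ 4}ᶜ).ncard : ℝ) := by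
      have h1 := Set.ncard_union_le (dyS N H L ∩ {F | |(F.1.1 : ℝ)| ≤ H / η * L ^ 4})
        (dyS N H L ∩ {F | |(F.1.1 : ℝ)| ≤ H / η * L ^ 4}ᶜ)
      rw [← hun] at h1
      exact_mod_cast h1
    have e1 : H ^ 5 / η = H ^ (5 - 1 / 98 : ℝ) := by
      rw [hη, Real.rpow_sub hHpos]
      norm_num
    have e2 : H ^ 4 * L ^ 4 * (5152 ^ 5 * H * η ^ 4 * L⁻¹ ^ 4) ^ (1901 / 2000 : ℝ)
        ≤ 5152 ^ 5 * H ^ (5 - 1 / 98 : ℝ) := by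
      have hl : (1 : ℝ) ≤ L⁻¹ := (one_le_inv₀ hL).2 hL1
      have hl4 : (1 : ℝ) ≤ L⁻¹ ^ 4 := one_le_pow₀ hl
      have hη4 : (1 : ℝ) ≤ η ^ 4 := one_le_pow₀ hη1
      rw [Real.mul_rpow (by positivity) (by positivity), Real.mul_rpow (by positivity)
        (by positivity), Real.mul_rpow (by positivity) (by positivity)]
      have g1 : ((5152 : ℝ) ^ 5) ^ (1901 / 2000 : ℝ) ≤ 5152 ^ 5 := by
        calc ((5152 : ℝ) ^ 5) ^ (1901 / 2000 : ℝ) ≤ ((5152 : ℝ) ^ 5) ^ (1 : ℝ) :=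
              Real.rpow_le_rpow_of_exponent_le (by norm_num) (by norm_num)
          _ = 5152 ^ 5 := Real.rpow_one _
      have g2 : L ^ 4 * (L⁻¹ ^ 4) ^ (1901 / 2000 : ℝ) ≤ 1 := by
        calc L ^ 4 * (L⁻¹ ^ 4) ^ (1901 / 2000 : ℝ) ≤ L ^ 4 * (L⁻¹ ^ 4) ^ (1 : ℝ) := by
              refine mul_le_mul_of_nonneg_left ?_ (by positivity)
              exact Real.rpow_le_rpow_of_exponent_le hl4 (by norm_num)
          _ = 1 := by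
              rw [Real.rpow_one, ← mul_pow, mul_inv_cancel₀ hL.ne', one_pow]
      have g3 : H ^ 4 * (H ^ (1901 / 2000 : ℝ) * (η ^ 4) ^ (1901 / 2000 : ℝ))
          ≤ H ^ (5 - 1 / 98 : ℝ) := by
        have : (η ^ 4) ^ (1901 / 2000 : ℝ) = H ^ (1 / 98 * 4 * (1901 / 2000) : ℝ) := by
          rw [hη, ← Real.rpow_natCast, ← Real.rpow_mul hHpos.le, ← Real.rpow_mul hHpos.le]
          norm_num
        rw [this, ← Real.rpow_add hHpos, ← Real.rpow_natCast, ← Real.rpow_add hHpos]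
        exact Real.rpow_le_rpow_of_exponent_le hH (by norm_num)
      calc H ^ 4 * L ^ 4 * (((5152 : ℝ) ^ 5) ^ (1901 / 2000 : ℝ) * H ^ (1901 / 2000 : ℝ)
            * (η ^ 4) ^ (1901 / 2000 : ℝ) * (L⁻¹ ^ 4) ^ (1901 / 2000 : ℝ))
          = ((5152 : ℝ) ^ 5) ^ (1901 / 2000 : ℝ) * (L ^ 4 * (L⁻¹ ^ 4) ^ (1901 / 2000 : ℝ))
            * (H ^ 4 * (H ^ (1901 / 2000 : ℝ) * (η ^ 4) ^ (1901 / 2000 : ℝ))) := by ring
        _ ≤ 5152 ^ 5 * 1 * H ^ (5 - 1 / 98 : ℝ) := by gcongr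
        _ = 5152 ^ 5 * H ^ (5 - 1 / 98 : ℝ) := by ring
    calc ((dyS N H L).ncard : ℝ) ≤ _ := hle
      _ ≤ 162 * 5152 ^ 3 * 33 * 5152 * (H ^ 5 / η) + 162 * 5152 ^ 4 * (H ^ 4 * L ^ 4) *
        (K * (5152 ^ 5 * H * η ^ 4 * L⁻¹ ^ 4) ^ (1901 / 2000 : ℝ)) := add_le_add c1 c2
      _ = 162 * 5152 ^ 3 * 33 * 5152 * (H ^ 5 / η) + 162 * 5152 ^ 4 * K *
        (H ^ 4 * L ^ 4 * (5152 ^ 5 * H * η ^ 4 * L⁻¹ ^ 4) ^ (1901 / 2000 : ℝ)) := by ring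
      _ ≤ 162 * 5152 ^ 3 * 33 * 5152 * H ^ (5 - 1 / 98 : ℝ) + 162 * 5152 ^ 4 * K *
        (5152 ^ 5 * H ^ (5 - 1 / 98 : ℝ)) := by
          rw [e1]
          gcongr
      _ = _ := by ring
  · have hemp : dyS N H L = ∅ := by
      ext F
      constructor
      · rintro ⟨lam, h1, h2, hg⟩
        exfalso
        obtain ⟨ha0, ha, _⟩ := dy_bounds hH hL h1 h2 hg
        have h3 : (1 : ℝ) ≤ |(F.1.1 : ℝ)| := by
          have := Int.one_le_abs ha0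
          exact_mod_cast this
        exact hbig (h3.trans ha)
      · intro h
        exact absurd h (Set.notMem_empty _)
    rw [hemp]
    refine ⟨Set.finite_empty, ?_⟩
    rw [Set.ncard_empty]
    push_cast
    positivity

end Pool.Agent.LibHLP
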