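import Pool.Agent.LibHLP.PatchU

set_option autoImplicit false

open Filter

namespace Pool.Agent.LibHLP

private theorem pencilU_R_le {G R : ℝ} (hG : 1 ≤ G) (hR : 1 ≤ R) {a : ℤ} (ha : a ≠ 0)
    (h : |(a : ℝ)| * R ^ 4 ≤ G ^ 20) : R ≤ G ^ 5 := by
  have h1 : (1 : ℝ) ≤ |(a : ℝ)| := by
    have := Int.one_le_abs ha
    exact_mod_cast this
  have h2 : R ^ 4 ≤ (G ^ 5) ^ 4 := by
    have h3 : 0 ≤ R ^ 4 := by positivity
    calc R ^ 4 = 1 * R ^ 4 := (one_mul _).symm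
      _ ≤ |(a : ℝ)| * R ^ 4 := mul_le_mul_of_nonneg_right h1 h3
      _ ≤ G ^ 20 := h
      _ = (G ^ 5) ^ 4 := by ring
  exact le_of_pow_le_pow_left₀ (by norm_num) (by positivity) h2

/-- integers of absolute value at most `X` -/
private noncomputable def puball (X : ℝ) : Finset ℤ := Finset.Icc (-⌊X⌋) ⌊X⌋

private theorem mem_puball (X : ℝ) (a : ℤ) (h : |(a : ℝ)| ≤ X) : a ∈ puball X := by
  rw [abs_le] at h
  rw [puball, Finset.mem_Icc]
  constructor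
  · have : -a ≤ ⌊X⌋ := Int.le_floor.2 (by push_cast; linarith [h.1])
    omega
  · exact Int.le_floor.2 h.2

private theorem card_puball (X : ℝ) (hX : 0 ≤ X) : ((puball X).card : ℝ) ≤ 2 * X + 1 := by
  have h0 : 0 ≤ ⌊X⌋ := Int.floor_nonneg.2 hX
  have h1 : (puball X).card = (2 * ⌊X⌋ + 1).toNat := by
    rw [puball, Int.card_Icc]
    congr 1
    ring
  have h2 : ((puball X).card : ℤ) = 2 * ⌊X⌋ + 1 := by
    rw [h1, Int.toNat_of_nonneg (by omega)]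
  have h3 : ((puball X).card : ℝ) = 2 * (⌊X⌋ : ℝ) + 1 := by exact_mod_cast h2
  rw [h3]
  linarith [Int.floor_le X]

/-- the values of `d` with a small solution -/
private theorem pencilU_small (X Y : ℝ) (hX : 0 ≤ X) (hY : 0 ≤ Y) (a1 a2 a3 a4 : ℤ) :
    {d : ℤ | ∃ p q : ℤ, q ≠ 0 ∧ |(q : ℝ)| ≤ X ∧ |(p : ℝ)| ≤ Y ∧
      a4 * p ^ 4 + a3 * p ^ 3 * q + a2 * p ^ 2 * q ^ 2 + a1 * p * q ^ 3 + d * q ^ 4 = 1}.Finite ∧
    (({d : ℤ | ∃ p q : ℤ, q ≠ 0 ∧ |(q : ℝ)| ≤ X ∧ |(p : ℝ)| ≤ Y ∧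
      a4 * p ^ 4 + a3 * p ^ 3 * q + a2 * p ^ 2 * q ^ 2 + a1 * p * q ^ 3 + d * q ^ 4 = 1}.ncard : ℕ)
        : ℝ) ≤ (2 * X + 1) * (2 * Y + 1) := by
  classical
  set S := {d : ℤ | ∃ p q : ℤ, q ≠ 0 ∧ |(q : ℝ)| ≤ X ∧ |(p : ℝ)| ≤ Y ∧
      a4 * p ^ 4 + a3 * p ^ 3 * q + a2 * p ^ 2 * q ^ 2 + a1 * p * q ^ 3 + d * q ^ 4 = 1} with hS
  set f : ℤ × ℤ → ℤ := fun z => (1 - (a4 * z.2 ^ 4 + a3 * z.2 ^ 3 * z.1 + a2 * z.2 ^ 2 * z.1 ^ 2
    + a1 * z.2 * z.1 ^ 3)) / z.1 ^ 4 with hf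
  have hsub : S ⊆ ((puball X ×ˢ puball Y).image f : Finset ℤ) := by
    rintro d ⟨p, q, hq0, hq, hp, h⟩
    rw [Finset.mem_coe, Finset.mem_image]
    refine ⟨(q, p), Finset.mem_product.2 ⟨mem_puball X q hq, mem_puball Y p hp⟩, ?_⟩
    simp only [hf]
    have hq4 : q ^ 4 ≠ 0 := pow_ne_zero 4 hq0
    apply Int.ediv_eq_of_eq_mul_left hq4
    linarith
  refine ⟨(Finset.finite_toSet _).subset hsub, ?_⟩
  have h1 : S.ncard ≤ (puball X).card * (puball Y).card := by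
    have h2 := Set.ncard_le_ncard hsub (Finset.finite_toSet _)
    rw [Set.ncard_coe_finset] at h2
    refine h2.trans (Finset.card_image_le.trans ?_)
    rw [Finset.card_product]
  have h3 : (S.ncard : ℝ) ≤ (puball X).card * (puball Y).card := by exact_mod_cast h1
  refine h3.trans (mul_le_mul (card_puball X hX) (card_puball Y hY) (Nat.cast_nonneg _) (by linarith))

/-- union bound -/
private theorem pencilU_union {ι : Type} (t : Finset ι) (S : ι → Set ℤ) (M : ℝ)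
    (h : ∀ i ∈ t, (S i).Finite ∧ ((S i).ncard : ℝ) ≤ M) :
    (⋃ i ∈ t, S i).Finite ∧ ((⋃ i ∈ t, S i).ncard : ℝ) ≤ t.card * M := by
  classical
  induction t using Finset.induction_on with
  | empty => simp
  | insert a t ha ih =>
    have h1 := ih fun i hi => h i (Finset.mem_insert_of_mem hi)
    have h2 := h a (Finset.mem_insert_self a t)
    rw [Finset.set_biUnion_insert, Finset.card_insert_of_notMem ha]
    refine ⟨h2.1.union h1.1, ?_⟩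
    have h3 : ((S a ∪ ⋃ x ∈ t, S x).ncard : ℝ) ≤ (S a).ncard + (⋃ x ∈ t, S x).ncard := by
      exact_mod_cast Set.ncard_union_le _ _
    push_cast
    linarith [h1.2, h2.2]

/-- a power between -/
private theorem pencilU_scale (G x : ℝ) (hG : 1 < G) (N : ℕ) (h7 : G ^ 7 < x) (hN : x ≤ G ^ N) :
    ∃ s, 7 ≤ s ∧ s ≤ N ∧ G ^ s ≤ x ∧ x ≤ G ^ (s + 1) := by
  have hex : ∃ n, x ≤ G ^ n := ⟨N, hN⟩
  classical
  set n := Nat.find hex with hn
  have h1 : x ≤ G ^ n := Nat.find_spec hex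
  have h2 : n ≤ N := Nat.find_min' hex hN
  have h3 : 7 < n := by
    by_contra hc
    have : G ^ n ≤ G ^ 7 := pow_le_pow_right₀ hG.le (not_lt.1 hc)
    linarith
  refine ⟨n - 1, by omega, by omega, ?_, ?_⟩
  · have := Nat.find_min hex (m := n - 1) (by omega)
    exact (not_le.1 this).le
  · rwa [Nat.sub_add_cancel (by omega)]

/-- The size conditions for large `G`. -/
theorem pencilU_sizes : ∃ G2 : ℝ, 1 < G2 ∧ ∀ G : ℝ, G2 ≤ G →
    9 * G ^ 19 + ((G ^ (0.08 : ℝ) + 1) * (5 * G ^ 19)) * G ^ (0.815 : ℝ) ≤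
      G ^ (199 / 10 : ℝ) := by
  obtain ⟨G2, hG2⟩ := eventually_atTop.1
    ((tendsto_rpow_atTop (show (0 : ℝ) < 0.005 by norm_num)).eventually_ge_atTop 20)
  refine ⟨max G2 2, lt_of_lt_of_le (by norm_num) (le_max_right _ _), fun G hG => ?_⟩
  have h20 := hG2 G ((le_max_left _ _).trans hG)
  have hG1 : 1 ≤ G := le_trans (by norm_num) ((le_max_right _ _).trans hG)
  have hGpos : 0 < G := by linarith
  have e1 : G ^ 19 * (G ^ (0.08 : ℝ) * G ^ (0.815 : ℝ)) * G ^ (0.005 : ℝ) =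
      G ^ (199 / 10 : ℝ) := by
    rw [← Real.rpow_natCast, ← Real.rpow_add hGpos, ← Real.rpow_add hGpos,
      ← Real.rpow_add hGpos]
    norm_num
  have e2 : (1 : ℝ) ≤ G ^ (0.08 : ℝ) := Real.one_le_rpow hG1 (by norm_num)
  have e3 : (1 : ℝ) ≤ G ^ (0.815 : ℝ) := Real.one_le_rpow hG1 (by norm_num)
  have e4 : 0 < G ^ 19 := by positivity
  have e5 : 1 ≤ G ^ (0.08 : ℝ) * G ^ (0.815 : ℝ) := one_le_mul_of_one_le_of_one_le e2 e3
  have e6 : G ^ 19 ≤ G ^ 19 * (G ^ (0.08 : ℝ) * G ^ (0.815 : ℝ)) :=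
    le_mul_of_one_le_right e4.le e5
  rw [← e1]
  calc 9 * G ^ 19 + ((G ^ (0.08 : ℝ) + 1) * (5 * G ^ 19)) * G ^ (0.815 : ℝ)
      ≤ 9 * (G ^ 19 * (G ^ (0.08 : ℝ) * G ^ (0.815 : ℝ))) +
        ((G ^ (0.08 : ℝ) + G ^ (0.08 : ℝ)) * (5 * G ^ 19)) * G ^ (0.815 : ℝ) := by gcongr
    _ = 19 * (G ^ 19 * (G ^ (0.08 : ℝ) * G ^ (0.815 : ℝ))) := by ring
    _ ≤ G ^ (0.005 : ℝ) * (G ^ 19 * (G ^ (0.08 : ℝ) * G ^ (0.815 : ℝ))) := by
        apply mul_le_mul_of_nonneg_right (by linarith) (by positivity)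
    _ = _ := by ring

/-- Few values of `d` in a pencil, uniformly. -/
theorem pencil_countU : ∃ G0 : ℝ, 1 < G0 ∧ ∀ G : ℝ, G0 ≤ G → ∀ N : ℕ,
    (N : ℝ) ≤ G ^ (0.08 : ℝ) → ∀ R : ℝ, 1 ≤ R → ∀ a1 a2 a3 a4 : ℤ, (∀ e : ℤ, |e ^ 4| ≠ |a4|) →
    |(a1 : ℝ)| * R ≤ G ^ 20 →
    |(a2 : ℝ)| * R ^ 2 ≤ G ^ 20 → |(a3 : ℝ)| * R ^ 3 ≤ G ^ 20 → |(a4 : ℝ)| * R ^ 4 ≤ G ^ 20 →
    (pencilSet a1 a2 a3 a4 R (G ^ N)).Finite ∧
      ((pencilSet a1 a2 a3 a4 R (G ^ N)).ncard : ℝ) ≤ G ^ (199 / 10 : ℝ) := by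
  classical
  obtain ⟨G0', hG0', hpatch⟩ := patch_countU
  obtain ⟨G2, hG2, hsizes⟩ := pencilU_sizes
  refine ⟨max G0' G2, lt_of_lt_of_le hG0' (le_max_left _ _), ?_⟩
  intro G hG N hN R hR a1 a2 a3 a4 ha4' h1 h2 h3 h4
  have hGa : G0' ≤ G := (le_max_left _ _).trans hG
  have hsize := hsizes G ((le_max_right _ _).trans hG)
  have hG1 : 1 < G := hG0'.trans_le hGa
  have ha4 : a4 ≠ 0 := by
    intro h
    exact ha4' 0 (by rw [h]; norm_num)
  have hGpos : 0 < G := by linarith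
  have hR5 : R ≤ G ^ 5 := pencilU_R_le hG1.le hR ha4 h4
  have hRpos : 0 < R := by linarith
  set M : ℕ := ⌈G ^ 19⌉₊ with hM
  have hM1 : G ^ 19 ≤ (M : ℝ) := Nat.le_ceil _
  have hM2 : (M : ℝ) < G ^ 19 + 1 := Nat.ceil_lt_add_one (by positivity)
  have hG19 : (1 : ℝ) ≤ G ^ 19 := one_le_pow₀ hG1.le
  have hMpos : (0 : ℝ) < M := by linarith
  set S0 := {d : ℤ | ∃ p q : ℤ, q ≠ 0 ∧ |(q : ℝ)| ≤ G ^ 7 ∧ |(p : ℝ)| ≤ G ^ 12 ∧
      a4 * p ^ 4 + a3 * p ^ 3 * q + a2 * p ^ 2 * q ^ 2 + a1 * p * q ^ 3 + d * q ^ 4 = 1} with hS0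
  obtain ⟨hfin0, hcard0⟩ := pencilU_small (G ^ 7) (G ^ 12) (by positivity) (by positivity)
    a1 a2 a3 a4
  rw [← hS0] at hfin0 hcard0
  set I : Finset (ℕ × ℤ) := (Finset.Icc 7 N) ×ˢ (Finset.Icc (-(M : ℤ)) M) with hI
  set S : ℕ × ℤ → Set ℤ := fun i =>
    patchSet a1 a2 a3 a4 (R * i.2 / M) (R / G ^ 19) (G ^ i.1) (G ^ (i.1 + 1)) with hS
  have hbd : ∀ i ∈ I, (S i).Finite ∧ ((S i).ncard : ℝ) ≤ G ^ (0.815 : ℝ) := by
    intro i hi
    rw [hI, Finset.mem_product, Finset.mem_Icc, Finset.mem_Icc] at hi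
    have hi2 : (i.1 : ℝ) ≤ G ^ (0.08 : ℝ) := le_trans (by exact_mod_cast hi.1.2) hN
    refine hpatch G hGa i.1 hi.1.1 hi2 R hR a1 a2 a3 a4 ha4' h1 h2 h3 h4 _ ?_
    have h5 : |(i.2 : ℝ)| ≤ M := by
      rw [abs_le]
      constructor
      · exact_mod_cast hi.2.1
      · exact_mod_cast hi.2.2
    rw [abs_div, abs_mul, abs_of_pos hRpos, abs_of_pos hMpos, div_le_iff₀ hMpos]
    exact mul_le_mul_of_nonneg_left h5 hRpos.le
  obtain ⟨hfin1, hcard1⟩ := pencilU_union I S (G ^ (0.815 : ℝ)) hbd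
  have hsub : pencilSet a1 a2 a3 a4 R (G ^ N) ⊆ S0 ∪ ⋃ i ∈ I, S i := by
    rintro d ⟨p, q, hq0, hqN, hp, hform⟩
    by_cases hq7 : |(q : ℝ)| ≤ G ^ 7
    · left
      refine ⟨p, q, hq0, hq7, ?_, hform⟩
      calc |(p : ℝ)| ≤ R * |(q : ℝ)| := hp
        _ ≤ G ^ 5 * G ^ 7 := mul_le_mul hR5 hq7 (abs_nonneg _) (by positivity)
        _ = G ^ 12 := by ring
    · right
      obtain ⟨s, hs7, hsN, hs1, hs2⟩ := pencilU_scale G _ hG1 N (not_le.1 hq7) hqN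
      have hqR : (q : ℝ) ≠ 0 := by exact_mod_cast hq0
      have hqpos : 0 < |(q : ℝ)| := abs_pos.2 hqR
      set θ : ℝ := (p : ℝ) / q with hθ
      have hθR : |θ| ≤ R := by
        rw [hθ, abs_div, div_le_iff₀ hqpos]
        exact hp
      set k : ℤ := round (M * θ / R) with hk
      have hk1 : |M * θ / R - k| ≤ 1 / 2 := abs_sub_round _
      have hMθ : |M * θ / R| ≤ M := by
        rw [abs_div, abs_mul, abs_of_pos hMpos, abs_of_pos hRpos, div_le_iff₀ hRpos]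
        exact mul_le_mul_of_nonneg_left hθR hMpos.le
      have hkM : |(k : ℝ)| < M + 1 := by
        have : |(k : ℝ)| ≤ |M * θ / R| + |M * θ / R - k| := by
          have h6 : (k : ℝ) = M * θ / R - (M * θ / R - k) := by ring
          calc |(k : ℝ)| = |M * θ / R - (M * θ / R - k)| := by rw [← h6]
            _ ≤ |M * θ / R| + |M * θ / R - k| := abs_sub _ _
        linarith
      have hkM' : -(M : ℤ) ≤ k ∧ k ≤ M := by
        rw [abs_lt] at hkM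
        have h7 : -((M : ℤ) + 1) < k := by
          have := hkM.1
          exact_mod_cast this
        have h8 : k < (M : ℤ) + 1 := by
          have := hkM.2
          exact_mod_cast this
        constructor <;> omega
      rw [Set.mem_iUnion₂]
      refine ⟨(s, k), ?_, ?_⟩
      · rw [hI, Finset.mem_product, Finset.mem_Icc, Finset.mem_Icc]
        exact ⟨⟨hs7, hsN⟩, hkM'⟩
      · refine ⟨p, q, hq0, hs1, hs2, ?_, hform⟩
        show |θ - R * k / M| ≤ R / G ^ 19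
        have h9 : θ - R * k / M = (R / M) * (M * θ / R - k) := by
          field_simp
        rw [h9, abs_mul, abs_of_pos (by positivity)]
        calc R / M * |M * θ / R - k| ≤ R / M * 1 := by
              refine mul_le_mul_of_nonneg_left ?_ (by positivity)
              linarith
          _ = R / M := mul_one _
          _ ≤ R / G ^ 19 := div_le_div_of_nonneg_left hRpos.le (by positivity) hM1
  have hfinU : (S0 ∪ ⋃ i ∈ I, S i).Finite := hfin0.union hfin1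
  refine ⟨hfinU.subset hsub, ?_⟩
  have hle : ((pencilSet a1 a2 a3 a4 R (G ^ N)).ncard : ℝ)
      ≤ (S0.ncard : ℝ) + ((⋃ i ∈ I, S i).ncard : ℝ) := by
    exact_mod_cast (Set.ncard_le_ncard hsub hfinU).trans (Set.ncard_union_le _ _)
  have hIcard : (I.card : ℝ) ≤ (N + 1) * (5 * G ^ 19) := by
    rw [hI, Finset.card_product]
    push_cast
    have h5 : ((Finset.Icc 7 N).card : ℝ) ≤ N + 1 := by
      rw [Nat.card_Icc]
      have : N + 1 - 7 ≤ N + 1 := Nat.sub_le _ _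
      exact_mod_cast this
    have h6 : (((Finset.Icc (-(M : ℤ)) M).card : ℕ) : ℝ) = 2 * M + 1 := by
      rw [Int.card_Icc]
      have : ((M : ℤ) + 1 - -(M : ℤ)).toNat = 2 * M + 1 := by omega
      rw [this]
      push_cast
      ring
    rw [h6]
    refine mul_le_mul h5 ?_ (by positivity) (by positivity)
    linarith
  have hS0card : (S0.ncard : ℝ) ≤ 9 * G ^ 19 := by
    refine hcard0.trans ?_
    have e7 : (1 : ℝ) ≤ G ^ 7 := one_le_pow₀ hG1.le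
    have e12 : (1 : ℝ) ≤ G ^ 12 := one_le_pow₀ hG1.le
    calc (2 * G ^ 7 + 1) * (2 * G ^ 12 + 1) ≤ (3 * G ^ 7) * (3 * G ^ 12) :=
          mul_le_mul (by linarith) (by linarith) (by positivity) (by positivity)
      _ = 9 * G ^ 19 := by ring
  calc ((pencilSet a1 a2 a3 a4 R (G ^ N)).ncard : ℝ)
      ≤ (S0.ncard : ℝ) + ((⋃ i ∈ I, S i).ncard : ℝ) := hle
    _ ≤ 9 * G ^ 19 + I.card * (G ^ (0.815 : ℝ)) := add_le_add hS0card hcard1
    _ ≤ 9 * G ^ 19 + ((G ^ (0.08 : ℝ) + 1) * (5 * G ^ 19)) * G ^ (0.815 : ℝ) := by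
        refine add_le_add le_rfl ?_
        refine mul_le_mul_of_nonneg_right (hIcard.trans ?_) (by positivity)
        gcongr
    _ ≤ G ^ (199 / 10 : ℝ) := hsize

end Pool.Agent.LibHLP
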