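import Pool.Agent.LibHLP.DefsU
import Pool.Agent.LibHLP.PencilU
import Pool.Agent.LibHLP.Fibre

set_option autoImplicit false

open Filter

namespace Pool.Agent.LibHLP

/-- What `Bounds` and `Rep` give for `lam` in a dyadic interval. -/
theorem dyU_bounds {H L lam X : ℝ} {a b c d e : ℤ} (hH : 1 ≤ H) (hL : 0 < L)
    (h1 : L / 2 < lam) (h2 : lam ≤ L) (hB : Bounds 5152 H lam a b c d e) :
    a ≠ 0 ∧ |(a : ℝ)| ≤ 5152 * H * L ^ 4 ∧ |(b : ℝ)| ≤ 5152 * H * L ^ 2 ∧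
    |(c : ℝ)| ≤ 5152 * H ∧ |(d : ℝ)| ≤ 4 * 5152 * H * L⁻¹ ^ 2 ∧
    |(e : ℝ)| ≤ 16 * 5152 * H * L⁻¹ ^ 4 ∧
    (Rep 5152 H lam X a b c d e →
      ∃ P Q : ℤ, Q ≠ 0 ∧ |(Q : ℝ)| ≤ X ∧
      |(P : ℝ)| * |(a : ℝ)| ≤ 5152 * H * L ^ 2 * |(Q : ℝ)| ∧
      a * P ^ 4 + 4 * b * P ^ 3 * Q + 6 * c * P ^ 2 * Q ^ 2 + 4 * d * P * Q ^ 3
        + e * Q ^ 4 = 1) := by
  obtain ⟨ha0, ha, hb, hc, hd, he⟩ := hB
  have hlam : 0 < lam := by linarith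
  have hl2 : lam ^ 2 ≤ L ^ 2 := pow_le_pow_left₀ hlam.le h2 2
  have hl4 : lam ^ 4 ≤ L ^ 4 := pow_le_pow_left₀ hlam.le h2 4
  have hg2 : L ^ 2 / 4 ≤ lam ^ 2 := by
    have := pow_le_pow_left₀ (by linarith : (0 : ℝ) ≤ L / 2) h1.le 2
    calc L ^ 2 / 4 = (L / 2) ^ 2 := by ring
      _ ≤ lam ^ 2 := this
  have hg4 : L ^ 4 / 16 ≤ lam ^ 4 := by
    have := pow_le_pow_left₀ (by linarith : (0 : ℝ) ≤ L / 2) h1.le 4
    calc L ^ 4 / 16 = (L / 2) ^ 4 := by ring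
      _ ≤ lam ^ 4 := this
  have hHpos : 0 < H := by linarith
  refine ⟨ha0, ha.trans ?_, hb.trans ?_, hc, ?_, ?_, ?_⟩
  · exact mul_le_mul_of_nonneg_left hl4 (by positivity)
  · exact mul_le_mul_of_nonneg_left hl2 (by positivity)
  · have h3 : |(d : ℝ)| * (L ^ 2 / 4) ≤ 5152 * H :=
      (mul_le_mul_of_nonneg_left hg2 (abs_nonneg _)).trans hd
    have h4 : |(d : ℝ)| * L ^ 2 ≤ 4 * 5152 * H := by linarith
    calc |(d : ℝ)| = |(d : ℝ)| * L ^ 2 * L⁻¹ ^ 2 := by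
          field_simp
      _ ≤ 4 * 5152 * H * L⁻¹ ^ 2 := mul_le_mul_of_nonneg_right h4 (by positivity)
  · have h3 : |(e : ℝ)| * (L ^ 4 / 16) ≤ 5152 * H :=
      (mul_le_mul_of_nonneg_left hg4 (abs_nonneg _)).trans he
    have h4 : |(e : ℝ)| * L ^ 4 ≤ 16 * 5152 * H := by linarith
    calc |(e : ℝ)| = |(e : ℝ)| * L ^ 4 * L⁻¹ ^ 4 := by
          field_simp
      _ ≤ 16 * 5152 * H * L⁻¹ ^ 4 := mul_le_mul_of_nonneg_right h4 (by positivity)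
  · rintro ⟨P, Q, hQ0, hQ, hP, hf⟩
    refine ⟨P, Q, hQ0, hQ, hP.trans ?_, hf⟩
    exact mul_le_mul_of_nonneg_right (mul_le_mul_of_nonneg_left hl2 (by positivity))
      (abs_nonneg _)

/-- The box of the quadruples. -/
noncomputable def dyU_T (A : Finset ℤ) (H L : ℝ) : Finset (ℤ × ℤ × ℤ × ℤ) :=
  A ×ˢ ball (5152 * H * L ^ 2) ×ˢ ball (5152 * H) ×ˢ ball (4 * 5152 * H * L⁻¹ ^ 2)

theorem card_dyU_T (A : Finset ℤ) (Y H L : ℝ) (hA : (A.card : ℝ) ≤ Y) (hH : 1 ≤ H) (hL : 0 < L)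
    (hL1 : L ≤ 1) (hbig : 1 ≤ 5152 * H * L ^ 4) :
    ((dyU_T A H L).card : ℝ) ≤ 81 * 5152 ^ 3 * (Y * H ^ 3) := by
  have hHpos : 0 < H := by linarith
  have hL2 : L ^ 4 ≤ L ^ 2 := pow_le_pow_of_le_one hL.le hL1 (by norm_num)
  have hY : 0 ≤ Y := le_trans (Nat.cast_nonneg _) hA
  have h2 := card_ball (5152 * H * L ^ 2) (by positivity)
  have h3 := card_ball (5152 * H) (by positivity)
  have h4 := card_ball (4 * 5152 * H * L⁻¹ ^ 2) (by positivity)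
  have e2 : ((ball (5152 * H * L ^ 2)).card : ℝ) ≤ 3 * (5152 * H * L ^ 2) := by
    have : 5152 * H * L ^ 4 ≤ 5152 * H * L ^ 2 := mul_le_mul_of_nonneg_left hL2 (by positivity)
    linarith
  have e3 : ((ball (5152 * H)).card : ℝ) ≤ 3 * (5152 * H) := by linarith
  have e4 : ((ball (4 * 5152 * H * L⁻¹ ^ 2)).card : ℝ) ≤ 9 * (5152 * H * L⁻¹ ^ 2) := by
    have hl : (1 : ℝ) ≤ L⁻¹ := (one_le_inv₀ hL).2 hL1
    have hl2 : (1 : ℝ) ≤ L⁻¹ ^ 2 := one_le_pow₀ hl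
    have : 5152 * H * 1 ≤ 5152 * H * L⁻¹ ^ 2 := mul_le_mul_of_nonneg_left hl2 (by positivity)
    linarith
  rw [dyU_T, Finset.card_product, Finset.card_product, Finset.card_product]
  push_cast
  calc (A.card : ℝ) * ((ball (5152 * H * L ^ 2)).card *
        ((ball (5152 * H)).card * (ball (4 * 5152 * H * L⁻¹ ^ 2)).card))
      ≤ Y * (3 * (5152 * H * L ^ 2) * (3 * (5152 * H) * (9 * (5152 * H * L⁻¹ ^ 2)))) := by
        gcongr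
    _ = 81 * 5152 ^ 3 * (Y * H ^ 3) * (L ^ 2 * L⁻¹ ^ 2) := by ring
    _ = 81 * 5152 ^ 3 * (Y * H ^ 3) := by
        have : L ^ 2 * L⁻¹ ^ 2 = 1 := by
          field_simp
        rw [this, mul_one]

theorem mem_dyU_T {A : Finset ℤ} {H L : ℝ} {a b c d : ℤ} :
    (a, b, c, d) ∈ dyU_T A H L ↔ a ∈ A ∧ |(b : ℝ)| ≤ 5152 * H * L ^ 2 ∧
      |(c : ℝ)| ≤ 5152 * H ∧ |(d : ℝ)| ≤ 4 * 5152 * H * L⁻¹ ^ 2 := by
  rw [dyU_T, Finset.mem_product, Finset.mem_product, Finset.mem_product,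
    mem_ball, mem_ball, mem_ball]

/-- The set of forms. -/
def dyU_S (H L X : ℝ) : Set ((ℤ × ℤ × ℤ × ℤ) × ℤ) :=
  {F : (ℤ × ℤ × ℤ × ℤ) × ℤ | ∃ lam : ℝ, L / 2 < lam ∧ lam ≤ L ∧
      Bounds 5152 H lam F.1.1 F.1.2.1 F.1.2.2.1 F.1.2.2.2 F.2 ∧
      Rep 5152 H lam X F.1.1 F.1.2.1 F.1.2.2.1 F.1.2.2.2 F.2}

/-- The forms with leading coefficient in `A`, trivially. -/
theorem dyU_triv (A : Finset ℤ) (Y H L X : ℝ) (hA : (A.card : ℝ) ≤ Y) (hH : 1 ≤ H) (hL : 0 < L)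
    (hL1 : L ≤ 1) (hbig : 1 ≤ 5152 * H * L ^ 4) :
    (dyU_S H L X ∩ {F | F.1.1 ∈ A}).Finite ∧
    ((dyU_S H L X ∩ {F | F.1.1 ∈ A}).ncard : ℝ)
      ≤ 81 * 5152 ^ 3 * (Y * H ^ 3) * (33 * 5152 * H * L⁻¹ ^ 4) := by
  have hHpos : 0 < H := by linarith
  have hl : (1 : ℝ) ≤ L⁻¹ := (one_le_inv₀ hL).2 hL1
  have key := ncard_fibre (dyU_S H L X ∩ {F | F.1.1 ∈ A})
    (dyU_T A H L) (33 * 5152 * H * L⁻¹ ^ 4) ?_ ?_
  · refine ⟨key.1, key.2.trans ?_⟩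
    exact mul_le_mul_of_nonneg_right (card_dyU_T A Y H L hA hH hL hL1 hbig) (by positivity)
  · rintro ⟨⟨a, b, c, d⟩, e⟩ ⟨⟨lam, h1, h2, hg, _⟩, ha⟩
    obtain ⟨ha0, _, hb, hc, hd, _, _⟩ := dyU_bounds (X := X) hH hL h1 h2 hg
    exact mem_dyU_T.2 ⟨ha, hb, hc, hd⟩
  · rintro ⟨a, b, c, d⟩ _
    have hsub : {e | ((a, b, c, d), e) ∈ dyU_S H L X ∩ {F | F.1.1 ∈ A}}
        ⊆ (ball (16 * 5152 * H * L⁻¹ ^ 4) : Finset ℤ) := by
      rintro e ⟨⟨lam, h1, h2, hg, _⟩, _⟩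
      obtain ⟨_, _, _, _, _, he, _⟩ := dyU_bounds (X := X) hH hL h1 h2 hg
      rw [Finset.mem_coe, mem_ball]
      exact he
    refine ⟨(Finset.finite_toSet _).subset hsub, ?_⟩
    have h1 := Set.ncard_le_ncard hsub (Finset.finite_toSet _)
    rw [Set.ncard_coe_finset] at h1
    have h2 : (({e | ((a, b, c, d), e) ∈ dyU_S H L X ∩ {F | F.1.1 ∈ A}}.ncard
        : ℕ) : ℝ) ≤ ((ball (16 * 5152 * H * L⁻¹ ^ 4)).card : ℝ) := by exact_mod_cast h1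
    refine h2.trans ((card_ball _ (by positivity)).trans ?_)
    have hl4 : (1 : ℝ) ≤ L⁻¹ ^ 4 := one_le_pow₀ hl
    have : 5152 * H * 1 ≤ 5152 * H * L⁻¹ ^ 4 := mul_le_mul_of_nonneg_left hl4 (by positivity)
    linarith

/-- The forms with large leading coefficient which is not a fourth power. -/
theorem dyU_case2 (G0 : ℝ) (hG0 : 1 < G0)
    (hpen : ∀ G : ℝ, G0 ≤ G → ∀ N : ℕ, (N : ℝ) ≤ G ^ (0.08 : ℝ) → ∀ R : ℝ, 1 ≤ R →
      ∀ a1 a2 a3 a4 : ℤ, (∀ e : ℤ, |e ^ 4| ≠ |a4|) →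
      |(a1 : ℝ)| * R ≤ G ^ 20 → |(a2 : ℝ)| * R ^ 2 ≤ G ^ 20 → |(a3 : ℝ)| * R ^ 3 ≤ G ^ 20 →
      |(a4 : ℝ)| * R ^ 4 ≤ G ^ 20 → (pencilSet a1 a2 a3 a4 R (G ^ N)).Finite ∧
      ((pencilSet a1 a2 a3 a4 R (G ^ N)).ncard : ℝ) ≤ G ^ (199 / 10 : ℝ))
    (H L X η : ℝ) (hH : 1 ≤ H) (hHG : G0 ^ 20 ≤ H) (hH2 : 2 ≤ H ^ (1 / 250 : ℝ))
    (hHe : Real.exp 40 ≤ H) (hL : 0 < L) (hL1 : L ≤ 1) (hX : X ≤ Real.exp (H ^ (1 / 250 : ℝ)))
    (hη : 1 ≤ η) (hbig : 1 ≤ 5152 * H * L ^ 4) :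
    (dyU_S H L X ∩ {F | H / η * L ^ 4 < |(F.1.1 : ℝ)| ∧ ∀ e : ℤ, |e ^ 4| ≠ |F.1.1|}).Finite ∧
    ((dyU_S H L X ∩ {F | H / η * L ^ 4 < |(F.1.1 : ℝ)| ∧ ∀ e : ℤ, |e ^ 4| ≠ |F.1.1|}).ncard : ℝ)
      ≤ 162 * 5152 ^ 4 * (H ^ 4 * L ^ 4) *
        (5152 ^ 5 * H * η ^ 4 * L⁻¹ ^ 4) ^ (199 / 200 : ℝ) := by
  have hHpos : 0 < H := by linarith
  have hηpos : 0 < η := by linarith
  have hl : (1 : ℝ) ≤ L⁻¹ := (one_le_inv₀ hL).2 hL1
  have hlpos : 0 < L⁻¹ := by positivity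
  have hLl : L * L⁻¹ = 1 := mul_inv_cancel₀ hL.ne'
  set D : ℝ := 5152 ^ 5 * H * η ^ 4 * L⁻¹ ^ 4 with hD
  have hη2 : (1 : ℝ) ≤ η ^ 2 := one_le_pow₀ hη
  have hη3 : (1 : ℝ) ≤ η ^ 3 := one_le_pow₀ hη
  have hη4 : (1 : ℝ) ≤ η ^ 4 := one_le_pow₀ hη
  have hl4 : (1 : ℝ) ≤ L⁻¹ ^ 4 := one_le_pow₀ hl
  have hDH : H ≤ D := by
    calc H = 1 * H * 1 * 1 := by ring
      _ ≤ 5152 ^ 5 * H * η ^ 4 * L⁻¹ ^ 4 := by
        gcongr
        norm_num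
  have hDpos : 0 < D := by linarith
  set G : ℝ := D ^ (1 / 20 : ℝ) with hG
  have hGpos : 0 < G := Real.rpow_pos_of_pos hDpos _
  have hG20 : G ^ 20 = D := by
    rw [hG, ← Real.rpow_natCast, ← Real.rpow_mul hDpos.le]
    norm_num
  have hGG0 : G0 ≤ G := by
    have : G0 ^ 20 ≤ G ^ 20 := by rw [hG20]; linarith
    exact le_of_pow_le_pow_left₀ (by norm_num) hGpos.le this
  have hGe : Real.exp 2 ≤ G := by
    have : (Real.exp 2) ^ 20 ≤ G ^ 20 := by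
      rw [hG20, ← Real.exp_nat_mul]
      norm_num
      linarith
    exact le_of_pow_le_pow_left₀ (by norm_num) hGpos.le this
  have hGK : G ^ (199 / 10 : ℝ) = D ^ (199 / 200 : ℝ) := by
    rw [hG, ← Real.rpow_mul hDpos.le]
    norm_num
  have hG08 : H ^ (1 / 250 : ℝ) ≤ G ^ (0.08 : ℝ) := by
    have h1 : G ^ (0.08 : ℝ) = D ^ (1 / 250 : ℝ) := by
      rw [hG, ← Real.rpow_mul hDpos.le]
      norm_num
    rw [h1]
    exact Real.rpow_le_rpow hHpos.le hDH (by norm_num)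
  set N : ℕ := ⌈H ^ (1 / 250 : ℝ) / 2⌉₊ with hN
  have hN1 : H ^ (1 / 250 : ℝ) / 2 ≤ N := Nat.le_ceil _
  have hN2 : (N : ℝ) ≤ G ^ (0.08 : ℝ) := by
    have h1 : (N : ℝ) < H ^ (1 / 250 : ℝ) / 2 + 1 := Nat.ceil_lt_add_one (by positivity)
    linarith
  have hXN : X ≤ G ^ N := by
    calc X ≤ Real.exp (H ^ (1 / 250 : ℝ)) := hX
      _ ≤ Real.exp (N * 2) := Real.exp_le_exp.2 (by linarith)
      _ = (Real.exp 2) ^ N := by rw [Real.exp_nat_mul]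
      _ ≤ G ^ N := pow_le_pow_left₀ (Real.exp_pos _).le hGe N
  set R : ℝ := 5152 * η * L⁻¹ ^ 2 with hR
  have hR1 : 1 ≤ R := by
    calc (1 : ℝ) = 1 * 1 * 1 ^ 2 := by ring
      _ ≤ 5152 * η * L⁻¹ ^ 2 := by
        gcongr
        norm_num
  have hRpos : 0 < R := by linarith
  have key := ncard_fibre
    (dyU_S H L X ∩ {F | H / η * L ^ 4 < |(F.1.1 : ℝ)| ∧ ∀ e : ℤ, |e ^ 4| ≠ |F.1.1|})
    (dyU_T ((ball (5152 * H * L ^ 4)).erase 0) H L) (D ^ (199 / 200 : ℝ)) ?_ ?_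
  · refine ⟨key.1, key.2.trans ?_⟩
    have h1 := card_dyU_T ((ball (5152 * H * L ^ 4)).erase 0) (2 * (5152 * H * L ^ 4)) H L
      (card_ball_erase _ (by positivity)) hH hL hL1 hbig
    calc ((dyU_T ((ball (5152 * H * L ^ 4)).erase 0) H L).card : ℝ) * (D ^ (199 / 200 : ℝ))
        ≤ 81 * 5152 ^ 3 * (2 * (5152 * H * L ^ 4) * H ^ 3) * (D ^ (199 / 200 : ℝ)) :=
          mul_le_mul_of_nonneg_right h1 (by positivity)
      _ = _ := by ring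
  · rintro ⟨⟨a, b, c, d⟩, e⟩ ⟨⟨lam, h1, h2, hg, _⟩, _⟩
    obtain ⟨ha0, ha, hb, hc, hd, _, _⟩ := dyU_bounds (X := X) hH hL h1 h2 hg
    exact mem_dyU_T.2 ⟨Finset.mem_erase.2 ⟨ha0, (mem_ball _ _).2 ha⟩, hb, hc, hd⟩
  · rintro ⟨a, b, c, d⟩ hT
    obtain ⟨ha', hb, hc, hd⟩ := mem_dyU_T.1 hT
    have ha : |(a : ℝ)| ≤ 5152 * H * L ^ 4 := (mem_ball _ _).1 (Finset.mem_erase.1 ha').2
    by_cases hasm : H / η * L ^ 4 < |(a : ℝ)| ∧ ∀ e : ℤ, |e ^ 4| ≠ |a|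
    · obtain ⟨haR, ha4⟩ := hasm
      have b4 : |((a : ℤ) : ℝ)| * R ^ 4 ≤ G ^ 20 := by
        rw [hG20]
        calc |((a : ℤ) : ℝ)| * R ^ 4 ≤ (5152 * H * L ^ 4) * R ^ 4 :=
              mul_le_mul_of_nonneg_right ha (by positivity)
          _ = D * (L * L⁻¹) ^ 4 := by rw [hR, hD]; ring
          _ = D := by rw [hLl, one_pow, mul_one]
      have b3 : |((4 * b : ℤ) : ℝ)| * R ^ 3 ≤ G ^ 20 := by
        rw [hG20]
        push_cast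
        rw [abs_mul, abs_of_pos (by norm_num : (0 : ℝ) < 4)]
        calc 4 * |(b : ℝ)| * R ^ 3 ≤ 4 * (5152 * H * L ^ 2) * R ^ 3 := by gcongr
          _ = (4 * 5152 ^ 4 * H * η ^ 3 * L⁻¹ ^ 4) * (L * L⁻¹) ^ 2 := by rw [hR]; ring
          _ = 4 * 5152 ^ 4 * H * η ^ 3 * L⁻¹ ^ 4 := by rw [hLl, one_pow, mul_one]
          _ ≤ 5152 ^ 5 * H * η ^ 4 * L⁻¹ ^ 4 := by
              gcongr
              · norm_num
              · norm_num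
      have b2 : |((6 * c : ℤ) : ℝ)| * R ^ 2 ≤ G ^ 20 := by
        rw [hG20]
        push_cast
        rw [abs_mul, abs_of_pos (by norm_num : (0 : ℝ) < 6)]
        calc 6 * |(c : ℝ)| * R ^ 2 ≤ 6 * (5152 * H) * R ^ 2 := by gcongr
          _ = 6 * 5152 ^ 3 * H * η ^ 2 * L⁻¹ ^ 4 := by rw [hR]; ring
          _ ≤ 5152 ^ 5 * H * η ^ 4 * L⁻¹ ^ 4 := by
              gcongr
              · norm_num
              · norm_num
      have b1 : |((4 * d : ℤ) : ℝ)| * R ≤ G ^ 20 := by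
        rw [hG20]
        push_cast
        rw [abs_mul, abs_of_pos (by norm_num : (0 : ℝ) < 4)]
        calc 4 * |(d : ℝ)| * R ≤ 4 * (4 * 5152 * H * L⁻¹ ^ 2) * R := by gcongr
          _ = 16 * 5152 ^ 2 * H * η ^ 1 * L⁻¹ ^ 4 := by rw [hR]; ring
          _ ≤ 5152 ^ 5 * H * η ^ 4 * L⁻¹ ^ 4 := by
              gcongr
              · norm_num
              · norm_num
      obtain ⟨hfin, hcard⟩ := hpen G hGG0 N hN2 R hR1 (4 * d) (6 * c) (4 * b) a ha4 b1 b2 b3 b4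
      have hsub : {e | ((a, b, c, d), e) ∈
          dyU_S H L X ∩ {F | H / η * L ^ 4 < |(F.1.1 : ℝ)| ∧ ∀ e : ℤ, |e ^ 4| ≠ |F.1.1|}}
          ⊆ pencilSet (4 * d) (6 * c) (4 * b) a R (G ^ N) := by
        rintro e ⟨⟨lam, h1, h2, hg, hrep⟩, _⟩
        obtain ⟨_, _, _, _, _, _, hr⟩ := dyU_bounds (X := X) hH hL h1 h2 hg
        obtain ⟨P, Q, hQ0, hQ, hP, hf⟩ := hr hrep
        refine ⟨P, Q, hQ0, hQ.trans hXN, ?_, ?_⟩
        · simp only at hP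
          have hapos : 0 < |(a : ℝ)| := lt_of_le_of_lt (by positivity) haR
          have h3 : 5152 * H * L ^ 2 ≤ R * |(a : ℝ)| := by
            calc 5152 * H * L ^ 2 = (5152 * H * L ^ 2) * (L * L⁻¹) ^ 2 := by
                  rw [hLl, one_pow, mul_one]
              _ = R * (H / η * L ^ 4) := by
                  rw [hR]
                  field_simp
              _ ≤ R * |(a : ℝ)| := mul_le_mul_of_nonneg_left haR.le hRpos.le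
          have h4 : |(P : ℝ)| * |(a : ℝ)| ≤ (R * |(Q : ℝ)|) * |(a : ℝ)| := by
            calc |(P : ℝ)| * |(a : ℝ)| ≤ 5152 * H * L ^ 2 * |(Q : ℝ)| := hP
              _ ≤ R * |(a : ℝ)| * |(Q : ℝ)| := mul_le_mul_of_nonneg_right h3 (abs_nonneg _)
              _ = (R * |(Q : ℝ)|) * |(a : ℝ)| := by ring
          exact le_of_mul_le_mul_right h4 hapos
        · simp only at hf
          exact hf
      refine ⟨hfin.subset hsub, ?_⟩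
      rw [← hGK]
      refine le_trans ?_ hcard
      exact_mod_cast Set.ncard_le_ncard hsub hfin
    · have hemp : {e | ((a, b, c, d), e) ∈
          dyU_S H L X ∩ {F | H / η * L ^ 4 < |(F.1.1 : ℝ)| ∧ ∀ e : ℤ, |e ^ 4| ≠ |F.1.1|}}
          = ∅ := by
        ext e
        constructor
        · rintro ⟨_, h⟩
          exact hasm h
        · intro h
          exact absurd h (Set.notMem_empty _)
      rw [hemp]
      refine ⟨Set.finite_empty, ?_⟩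
      rw [Set.ncard_empty]
      push_cast
      positivity

/-- The fourth powers and their opposites. -/
noncomputable def fourth (E : ℕ) : Finset ℤ :=
  (Finset.Icc 1 E).image (fun n : ℕ => (n : ℤ) ^ 4) ∪
    (Finset.Icc 1 E).image (fun n : ℕ => -(n : ℤ) ^ 4)

theorem card_fourth (E : ℕ) : (fourth E).card ≤ 2 * E := by
  unfold fourth
  refine (Finset.card_union_le _ _).trans ?_
  have h1 := Finset.card_image_le (s := Finset.Icc 1 E) (f := fun n : ℕ => (n : ℤ) ^ 4)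
  have h2 := Finset.card_image_le (s := Finset.Icc 1 E) (f := fun n : ℕ => -(n : ℤ) ^ 4)
  rw [Nat.card_Icc] at h1 h2
  omega

theorem mem_fourth (E : ℕ) (a e : ℤ) (ha : a ≠ 0) (he : |e ^ 4| = |a|)
    (hE : |(a : ℝ)| ≤ (E : ℝ) ^ 4) : a ∈ fourth E := by
  have h1 : |e ^ 4| = ((e.natAbs : ℕ) : ℤ) ^ 4 := by
    rw [abs_pow, Int.abs_eq_natAbs]
  have hle : e.natAbs ≤ E := by
    have h2 : (((e.natAbs : ℕ) : ℝ)) ^ 4 ≤ (E : ℝ) ^ 4 := by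
      have h3 : (((e.natAbs : ℕ) : ℝ)) ^ 4 = |(a : ℝ)| := by
        have h4 : ((((e.natAbs : ℕ) : ℤ) ^ 4 : ℤ) : ℝ) = ((|a| : ℤ) : ℝ) := by
          rw [← h1, he]
        rw [Int.cast_pow, Int.cast_natCast, Int.cast_abs] at h4
        exact h4
      rw [h3]
      exact hE
    have h5 := le_of_pow_le_pow_left₀ (by norm_num) (Nat.cast_nonneg E) h2
    exact_mod_cast h5
  have hpos : 1 ≤ e.natAbs := by
    rcases Nat.eq_zero_or_pos e.natAbs with h | h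
    · exfalso
      apply ha
      rw [h] at h1
      rw [h1] at he
      have : |a| = 0 := by rw [← he]; norm_num
      exact abs_eq_zero.1 this
    · exact h
  unfold fourth
  rw [Finset.mem_union, Finset.mem_image, Finset.mem_image]
  rw [h1] at he
  rcases le_or_gt 0 a with h | h
  · left
    refine ⟨e.natAbs, Finset.mem_Icc.2 ⟨hpos, hle⟩, ?_⟩
    rw [he, abs_of_nonneg h]
  · right
    refine ⟨e.natAbs, Finset.mem_Icc.2 ⟨hpos, hle⟩, ?_⟩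
    rw [he, abs_of_neg h]
    ring

end Pool.Agent.LibHLP
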