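import Pool.Agent.LibHLP.DyadicU

set_option autoImplicit false

open Filter

namespace Pool.Agent.LibHLP

/-- The forms with `lam` in a dyadic interval which is not too small. -/
theorem dyadic_countU : ∃ H0 K : ℝ, 1 ≤ H0 ∧ 0 ≤ K ∧ ∀ H : ℝ, H0 ≤ H → ∀ L X : ℝ, 0 < L →
    L ≤ 1 → H ^ (-(1 / 10) : ℝ) ≤ L → X ≤ Real.exp (H ^ (1 / 250 : ℝ)) →
    (dyU_S H L X).Finite ∧ ((dyU_S H L X).ncard : ℝ) ≤ K * H ^ (5 - 1 / 996 : ℝ) := by
  obtain ⟨G0, hG0, hpen⟩ := pencil_countU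
  have hev : ∀ᶠ H : ℝ in atTop, 2 ≤ H ^ (1 / 250 : ℝ) :=
    (tendsto_rpow_atTop (by norm_num)).eventually_ge_atTop 2
  obtain ⟨H1, hH1⟩ := eventually_atTop.1 hev
  have hG20 : 1 ≤ G0 ^ 20 := one_le_pow₀ hG0.le
  refine ⟨max (max (G0 ^ 20) (Real.exp 40)) H1,
    81 * 5152 ^ 3 * 33 * 5152 * 2 + 162 * 5152 ^ 4 * 5152 ^ 5
      + 81 * 5152 ^ 3 * 33 * 5152 * (4 * 5152),
    hG20.trans ((le_max_left _ _).trans (le_max_left _ _)), by positivity, ?_⟩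
  intro H hH L X hL hL1 hLlow hX
  have hHG : G0 ^ 20 ≤ H := ((le_max_left _ _).trans (le_max_left _ _)).trans hH
  have hHe : Real.exp 40 ≤ H := ((le_max_right _ _).trans (le_max_left _ _)).trans hH
  have hH2 : 2 ≤ H ^ (1 / 250 : ℝ) := hH1 H ((le_max_right _ _).trans hH)
  have hH1' : 1 ≤ H := hG20.trans hHG
  have hHpos : 0 < H := by linarith
  have hl : (1 : ℝ) ≤ L⁻¹ := (one_le_inv₀ hL).2 hL1
  have hl4 : (1 : ℝ) ≤ L⁻¹ ^ 4 := one_le_pow₀ hl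
  by_cases hbig : 1 ≤ 5152 * H * L ^ 4
  · set η : ℝ := H ^ (1 / 996 : ℝ) with hη
    have hη1 : 1 ≤ η := Real.one_le_rpow hH1' (by norm_num)
    have hηpos : 0 < η := by linarith
    -- small leading coefficient
    obtain ⟨f1, c1⟩ := dyU_triv ((ball (H / η * L ^ 4)).erase 0) (2 * (H / η * L ^ 4)) H L X
      (card_ball_erase _ (by positivity)) hH1' hL hL1 hbig
    -- fourth powers
    set E : ℕ := ⌈(5152 * H) ^ (1 / 4 : ℝ)⌉₊ with hE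
    have hE1 : (5152 * H) ^ (1 / 4 : ℝ) ≤ E := Nat.le_ceil _
    have hbase : (1 : ℝ) ≤ (5152 * H) ^ (1 / 4 : ℝ) :=
      Real.one_le_rpow (by linarith) (by norm_num)
    have hE2 : (E : ℝ) ≤ 2 * (5152 * H) ^ (1 / 4 : ℝ) := by
      have := Nat.ceil_lt_add_one (a := (5152 * H) ^ (1 / 4 : ℝ)) (by positivity)
      linarith
    have hcard4 : ((fourth E).card : ℝ) ≤ 4 * (5152 * H ^ (1 / 4 : ℝ)) := by
      have h1 : ((fourth E).card : ℝ) ≤ 2 * E := by exact_mod_cast card_fourth E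
      have h2 : (5152 * H) ^ (1 / 4 : ℝ) ≤ 5152 * H ^ (1 / 4 : ℝ) := by
        rw [Real.mul_rpow (by norm_num) hHpos.le]
        apply mul_le_mul_of_nonneg_right _ (by positivity)
        calc (5152 : ℝ) ^ (1 / 4 : ℝ) ≤ 5152 ^ (1 : ℝ) :=
              Real.rpow_le_rpow_of_exponent_le (by norm_num) (by norm_num)
          _ = 5152 := Real.rpow_one _
      linarith
    obtain ⟨f3, c3⟩ := dyU_triv (fourth E) (4 * (5152 * H ^ (1 / 4 : ℝ))) H L X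
      hcard4 hH1' hL hL1 hbig
    obtain ⟨f2, c2⟩ := dyU_case2 G0 hG0 hpen H L X η hH1' hHG hH2 hHe hL hL1 hX hη1 hbig
    have hsub : dyU_S H L X ⊆
        ((dyU_S H L X ∩ {F | F.1.1 ∈ (ball (H / η * L ^ 4)).erase 0}) ∪
        (dyU_S H L X ∩ {F | H / η * L ^ 4 < |(F.1.1 : ℝ)| ∧ ∀ e : ℤ, |e ^ 4| ≠ |F.1.1|})) ∪
        (dyU_S H L X ∩ {F | F.1.1 ∈ fourth E}) := by
      intro F hF
      obtain ⟨lam, h1, h2, hg, hr⟩ := hF
      obtain ⟨ha0, ha, _⟩ := dyU_bounds (X := X) hH1' hL h1 h2 hg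
      have hF' : F ∈ dyU_S H L X := ⟨lam, h1, h2, hg, hr⟩
      by_cases hsm : |(F.1.1 : ℝ)| ≤ H / η * L ^ 4
      · left; left
        exact ⟨hF', Finset.mem_erase.2 ⟨ha0, (mem_ball _ _).2 hsm⟩⟩
      · by_cases h4 : ∀ e : ℤ, |e ^ 4| ≠ |F.1.1|
        · left; right
          exact ⟨hF', not_le.1 hsm, h4⟩
        · right
          push Not at h4
          obtain ⟨e, he⟩ := h4
          refine ⟨hF', mem_fourth E _ e ha0 he ?_⟩
          have h5 : L ^ 4 ≤ 1 := pow_le_one₀ hL.le hL1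
          calc |(F.1.1 : ℝ)| ≤ 5152 * H * L ^ 4 := ha
            _ ≤ 5152 * H * 1 := by gcongr
            _ = ((5152 * H) ^ (1 / 4 : ℝ)) ^ 4 := by
                rw [← Real.rpow_natCast, ← Real.rpow_mul (by positivity)]
                norm_num
            _ ≤ (E : ℝ) ^ 4 := pow_le_pow_left₀ (by positivity) hE1 4
    have hfin := ((f1.union f2).union f3).subset hsub
    refine ⟨hfin, ?_⟩
    have hle : ((dyU_S H L X).ncard : ℝ) ≤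
        (((dyU_S H L X ∩ {F | F.1.1 ∈ (ball (H / η * L ^ 4)).erase 0}).ncard : ℝ) +
        ((dyU_S H L X ∩ {F | H / η * L ^ 4 < |(F.1.1 : ℝ)| ∧
          ∀ e : ℤ, |e ^ 4| ≠ |F.1.1|}).ncard : ℝ)) +
        ((dyU_S H L X ∩ {F | F.1.1 ∈ fourth E}).ncard : ℝ) := by
      have h1 := Set.ncard_le_ncard hsub ((f1.union f2).union f3)
      have h2 := Set.ncard_union_le
        ((dyU_S H L X ∩ {F | F.1.1 ∈ (ball (H / η * L ^ 4)).erase 0}) ∪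
        (dyU_S H L X ∩ {F | H / η * L ^ 4 < |(F.1.1 : ℝ)| ∧ ∀ e : ℤ, |e ^ 4| ≠ |F.1.1|}))
        (dyU_S H L X ∩ {F | F.1.1 ∈ fourth E})
      have h3 := Set.ncard_union_le
        (dyU_S H L X ∩ {F | F.1.1 ∈ (ball (H / η * L ^ 4)).erase 0})
        (dyU_S H L X ∩ {F | H / η * L ^ 4 < |(F.1.1 : ℝ)| ∧ ∀ e : ℤ, |e ^ 4| ≠ |F.1.1|})
      exact_mod_cast (h1.trans h2).trans (Nat.add_le_add_right h3 _)
    -- exponents
    have e1 : H ^ 5 / η = H ^ (5 - 1 / 996 : ℝ) := by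
      rw [hη, Real.rpow_sub hHpos]
      norm_num
    have b1 : 81 * 5152 ^ 3 * (2 * (H / η * L ^ 4) * H ^ 3) * (33 * 5152 * H * L⁻¹ ^ 4)
        = 81 * 5152 ^ 3 * 33 * 5152 * 2 * H ^ (5 - 1 / 996 : ℝ) := by
      rw [← e1]
      field_simp
    have e2 : H ^ 4 * L ^ 4 * (5152 ^ 5 * H * η ^ 4 * L⁻¹ ^ 4) ^ (199 / 200 : ℝ)
        ≤ 5152 ^ 5 * H ^ (5 - 1 / 996 : ℝ) := by
      rw [Real.mul_rpow (by positivity) (by positivity), Real.mul_rpow (by positivity)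
        (by positivity), Real.mul_rpow (by positivity) (by positivity)]
      have g1 : ((5152 : ℝ) ^ 5) ^ (199 / 200 : ℝ) ≤ 5152 ^ 5 := by
        calc ((5152 : ℝ) ^ 5) ^ (199 / 200 : ℝ) ≤ ((5152 : ℝ) ^ 5) ^ (1 : ℝ) :=
              Real.rpow_le_rpow_of_exponent_le (by norm_num) (by norm_num)
          _ = 5152 ^ 5 := Real.rpow_one _
      have g2 : L ^ 4 * (L⁻¹ ^ 4) ^ (199 / 200 : ℝ) ≤ 1 := by
        calc L ^ 4 * (L⁻¹ ^ 4) ^ (199 / 200 : ℝ) ≤ L ^ 4 * (L⁻¹ ^ 4) ^ (1 : ℝ) := by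
              refine mul_le_mul_of_nonneg_left ?_ (by positivity)
              exact Real.rpow_le_rpow_of_exponent_le hl4 (by norm_num)
          _ = 1 := by
              rw [Real.rpow_one, ← mul_pow, mul_inv_cancel₀ hL.ne', one_pow]
      have g3 : H ^ 4 * (H ^ (199 / 200 : ℝ) * (η ^ 4) ^ (199 / 200 : ℝ))
          ≤ H ^ (5 - 1 / 996 : ℝ) := by
        have : (η ^ 4) ^ (199 / 200 : ℝ) = H ^ (1 / 996 * 4 * (199 / 200) : ℝ) := by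
          rw [hη, ← Real.rpow_natCast, ← Real.rpow_mul hHpos.le, ← Real.rpow_mul hHpos.le]
          norm_num
        rw [this, ← Real.rpow_add hHpos, ← Real.rpow_natCast, ← Real.rpow_add hHpos]
        exact Real.rpow_le_rpow_of_exponent_le hH1' (by norm_num)
      calc H ^ 4 * L ^ 4 * (((5152 : ℝ) ^ 5) ^ (199 / 200 : ℝ) * H ^ (199 / 200 : ℝ)
            * (η ^ 4) ^ (199 / 200 : ℝ) * (L⁻¹ ^ 4) ^ (199 / 200 : ℝ))
          = ((5152 : ℝ) ^ 5) ^ (199 / 200 : ℝ) * (L ^ 4 * (L⁻¹ ^ 4) ^ (199 / 200 : ℝ))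
            * (H ^ 4 * (H ^ (199 / 200 : ℝ) * (η ^ 4) ^ (199 / 200 : ℝ))) := by ring
        _ ≤ 5152 ^ 5 * 1 * H ^ (5 - 1 / 996 : ℝ) := by gcongr
        _ = 5152 ^ 5 * H ^ (5 - 1 / 996 : ℝ) := by ring
    have b3 : 81 * 5152 ^ 3 * (4 * (5152 * H ^ (1 / 4 : ℝ)) * H ^ 3) * (33 * 5152 * H * L⁻¹ ^ 4)
        ≤ 81 * 5152 ^ 3 * 33 * 5152 * (4 * 5152) * H ^ (5 - 1 / 996 : ℝ) := by
      have g1 : L⁻¹ ^ 4 ≤ H ^ (4 / 10 : ℝ) := by
        have h1 : L⁻¹ ≤ H ^ (1 / 10 : ℝ) := by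
          rw [Real.rpow_neg hHpos.le] at hLlow
          exact inv_le_of_inv_le₀ (by positivity) hLlow
        calc L⁻¹ ^ 4 ≤ (H ^ (1 / 10 : ℝ)) ^ 4 := pow_le_pow_left₀ (by positivity) h1 4
          _ = H ^ (4 / 10 : ℝ) := by
              rw [← Real.rpow_natCast, ← Real.rpow_mul hHpos.le]
              norm_num
      have g2 : H ^ (1 / 4 : ℝ) * H ^ 3 * H * H ^ (4 / 10 : ℝ) ≤ H ^ (5 - 1 / 996 : ℝ) := by
        have : H ^ (1 / 4 : ℝ) * H ^ 3 * H * H ^ (4 / 10 : ℝ) = H ^ (1 / 4 + 4 + 4 / 10 : ℝ) := by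
          rw [show (1 / 4 + 4 + 4 / 10 : ℝ) = 1 / 4 + ((4 : ℕ) : ℝ) + 4 / 10 by norm_num,
            Real.rpow_add hHpos, Real.rpow_add hHpos, Real.rpow_natCast]
          ring
        rw [this]
        exact Real.rpow_le_rpow_of_exponent_le hH1' (by norm_num)
      calc 81 * 5152 ^ 3 * (4 * (5152 * H ^ (1 / 4 : ℝ)) * H ^ 3) * (33 * 5152 * H * L⁻¹ ^ 4)
          = 81 * 5152 ^ 3 * 33 * 5152 * (4 * 5152) * (H ^ (1 / 4 : ℝ) * H ^ 3 * H * L⁻¹ ^ 4) := by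
            ring
        _ ≤ 81 * 5152 ^ 3 * 33 * 5152 * (4 * 5152) *
            (H ^ (1 / 4 : ℝ) * H ^ 3 * H * H ^ (4 / 10 : ℝ)) := by gcongr
        _ ≤ _ := by gcongr
    have b2 : 162 * 5152 ^ 4 * (H ^ 4 * L ^ 4) *
        (5152 ^ 5 * H * η ^ 4 * L⁻¹ ^ 4) ^ (199 / 200 : ℝ) ≤
        162 * 5152 ^ 4 * 5152 ^ 5 * H ^ (5 - 1 / 996 : ℝ) := by
      calc 162 * 5152 ^ 4 * (H ^ 4 * L ^ 4) *
          (5152 ^ 5 * H * η ^ 4 * L⁻¹ ^ 4) ^ (199 / 200 : ℝ)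
          = 162 * 5152 ^ 4 * (H ^ 4 * L ^ 4 *
            (5152 ^ 5 * H * η ^ 4 * L⁻¹ ^ 4) ^ (199 / 200 : ℝ)) := by ring
        _ ≤ 162 * 5152 ^ 4 * (5152 ^ 5 * H ^ (5 - 1 / 996 : ℝ)) := by gcongr
        _ = _ := by ring
    rw [b1] at c1
    calc ((dyU_S H L X).ncard : ℝ) ≤ _ := hle
      _ ≤ (81 * 5152 ^ 3 * 33 * 5152 * 2 * H ^ (5 - 1 / 996 : ℝ) +
          162 * 5152 ^ 4 * 5152 ^ 5 * H ^ (5 - 1 / 996 : ℝ)) +
          81 * 5152 ^ 3 * 33 * 5152 * (4 * 5152) * H ^ (5 - 1 / 996 : ℝ) :=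
        add_le_add (add_le_add c1 (c2.trans b2)) (c3.trans b3)
      _ = _ := by ring
  · have hemp : dyU_S H L X = ∅ := by
      ext F
      constructor
      · rintro ⟨lam, h1, h2, hg, _⟩
        exfalso
        obtain ⟨ha0, ha, _⟩ := dyU_bounds (X := X) hH1' hL h1 h2 hg
        have h3 : (1 : ℝ) ≤ |(F.1.1 : ℝ)| := by
          have := Int.one_le_abs ha0
          exact_mod_cast this
        exact hbig (h3.trans ha)
      · intro h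
        exact absurd h (Set.notMem_empty _)
    rw [hemp]
    refine ⟨Set.finite_empty, ?_⟩
    rw [Set.ncard_empty]
    push_cast
    positivity

end Pool.Agent.LibHLP
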