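import Pool.Agent.LibHLP.Forms
import Pool.Agent.LibHLP.Small
import Pool.Agent.LibHLP.Reduction

set_option autoImplicit false

namespace Pool.Agent.LibHLP

theorem final_count (N : ℕ) : ∃ K : ℝ, ∀ H : ℝ, 1 ≤ H →
    {p : ℤ × ℤ | |(p.1 : ℝ)| ≤ H ^ 2 ∧ |(p.2 : ℝ)| ≤ H ^ 3 ∧ 4 * p.1 ^ 3 + 27 * p.2 ^ 2 ≠ 0 ∧
      ∃ x y : ℤ, y ^ 2 = x ^ 3 + p.1 * x + p.2 ∧ |(x : ℝ)| ≤ H ^ N}.Finite ∧
    ({p : ℤ × ℤ | |(p.1 : ℝ)| ≤ H ^ 2 ∧ |(p.2 : ℝ)| ≤ H ^ 3 ∧ 4 * p.1 ^ 3 + 27 * p.2 ^ 2 ≠ 0 ∧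
      ∃ x y : ℤ, y ^ 2 = x ^ 3 + p.1 * x + p.2 ∧ |(x : ℝ)| ≤ H ^ N}.ncard : ℝ)
        ≤ K * H ^ (499 / 100 : ℝ) := by
  obtain ⟨H0, K1, hH0, hK1, hforms⟩ := forms_count N
  obtain ⟨K2, hK2, hsmall⟩ := small_count
  refine ⟨K1 + K2 + 9 * H0, fun H hH => ?_⟩
  have hHpos : 0 < H := by linarith
  have hp0 : 0 < H ^ (499 / 100 : ℝ) := Real.rpow_pos_of_pos hHpos _
  -- the trivial bound
  have hbox : {p : ℤ × ℤ | |(p.1 : ℝ)| ≤ H ^ 2 ∧ |(p.2 : ℝ)| ≤ H ^ 3 ∧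
      4 * p.1 ^ 3 + 27 * p.2 ^ 2 ≠ 0 ∧
      ∃ x y : ℤ, y ^ 2 = x ^ 3 + p.1 * x + p.2 ∧ |(x : ℝ)| ≤ H ^ N} ⊆
      ((ball (H ^ 2) ×ˢ ball (H ^ 3) : Finset (ℤ × ℤ)) : Set (ℤ × ℤ)) := by
    rintro p ⟨h1, h2, _⟩
    rw [Finset.mem_coe, Finset.mem_product, mem_ball, mem_ball]
    exact ⟨h1, h2⟩
  have hfin := (Finset.finite_toSet _).subset hbox
  refine ⟨hfin, ?_⟩
  rcases lt_or_ge H H0 with hlt | hge
  · have h1 : ({p : ℤ × ℤ | |(p.1 : ℝ)| ≤ H ^ 2 ∧ |(p.2 : ℝ)| ≤ H ^ 3 ∧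
        4 * p.1 ^ 3 + 27 * p.2 ^ 2 ≠ 0 ∧
        ∃ x y : ℤ, y ^ 2 = x ^ 3 + p.1 * x + p.2 ∧ |(x : ℝ)| ≤ H ^ N}.ncard : ℝ) ≤
        ((ball (H ^ 2)).card : ℝ) * ((ball (H ^ 3)).card : ℝ) := by
      have h2 := Set.ncard_le_ncard hbox (Finset.finite_toSet _)
      rw [Set.ncard_coe_finset, Finset.card_product] at h2
      exact_mod_cast h2
    have hH2 : (1 : ℝ) ≤ H ^ 2 := one_le_pow₀ hH
    have hH3 : (1 : ℝ) ≤ H ^ 3 := one_le_pow₀ hH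
    have h3 : ((ball (H ^ 2)).card : ℝ) ≤ 3 * H ^ 2 := by
      have := card_ball (H ^ 2) (by positivity)
      linarith
    have h4 : ((ball (H ^ 3)).card : ℝ) ≤ 3 * H ^ 3 := by
      have := card_ball (H ^ 3) (by positivity)
      linarith
    have h5 : H ^ (5 : ℕ) ≤ H0 * H ^ (499 / 100 : ℝ) := by
      have h6 : H ^ (5 : ℕ) = H ^ (1 / 100 : ℝ) * H ^ (499 / 100 : ℝ) := by
        rw [← Real.rpow_add hHpos, ← Real.rpow_natCast]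
        norm_num
      rw [h6]
      apply mul_le_mul_of_nonneg_right _ hp0.le
      calc H ^ (1 / 100 : ℝ) ≤ H ^ (1 : ℝ) :=
            Real.rpow_le_rpow_of_exponent_le hH (by norm_num)
        _ = H := Real.rpow_one H
        _ ≤ H0 := hlt.le
    calc _ ≤ ((ball (H ^ 2)).card : ℝ) * ((ball (H ^ 3)).card : ℝ) := h1
      _ ≤ (3 * H ^ 2) * (3 * H ^ 3) := mul_le_mul h3 h4 (Nat.cast_nonneg _) (by positivity)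
      _ = 9 * H ^ (5 : ℕ) := by ring
      _ ≤ 9 * (H0 * H ^ (499 / 100 : ℝ)) := by linarith
      _ = (9 * H0) * H ^ (499 / 100 : ℝ) := by ring
      _ ≤ (K1 + K2 + 9 * H0) * H ^ (499 / 100 : ℝ) := by
          apply mul_le_mul_of_nonneg_right _ hp0.le
          linarith
  · obtain ⟨hf1, hf2⟩ := hforms H hge
    obtain ⟨hs1, hs2⟩ := hsmall H hH
    set F1 : Set ((ℤ × ℤ × ℤ × ℤ) × ℤ) := {F | ∃ lam : ℝ, 0 < lam ∧ lam ≤ 1 ∧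
      Good H lam N F.1.1 F.1.2.1 F.1.2.2.1 F.1.2.2.2 F.2} with hF1
    set S2 : Set (ℤ × ℤ) := {p | |(p.1 : ℝ)| ≤ H ^ 2 ∧ |(p.2 : ℝ)| ≤ H ^ 3 ∧
      ∃ x y : ℤ, y ^ 2 = x ^ 3 + p.1 * x + p.2 ∧ (x : ℝ) ≤ 16 * H ^ 4} with hS2
    set φ : (ℤ × ℤ × ℤ × ℤ) × ℤ → ℤ × ℤ := fun F =>
      ((F.1.1 * F.2 - 4 * F.1.2.1 * F.1.2.2.2 + 3 * F.1.2.2.1 ^ 2) / (-4),
        (F.1.1 * F.1.2.2.1 * F.2 + 2 * F.1.2.1 * F.1.2.2.1 * F.1.2.2.2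
          - F.1.1 * F.1.2.2.2 ^ 2 - F.1.2.1 ^ 2 * F.2 - F.1.2.2.1 ^ 3) / (-4)) with hφ
    have hcover : {p : ℤ × ℤ | |(p.1 : ℝ)| ≤ H ^ 2 ∧ |(p.2 : ℝ)| ≤ H ^ 3 ∧
        4 * p.1 ^ 3 + 27 * p.2 ^ 2 ≠ 0 ∧
        ∃ x y : ℤ, y ^ 2 = x ^ 3 + p.1 * x + p.2 ∧ |(x : ℝ)| ≤ H ^ N} ⊆ φ '' F1 ∪ S2 := by
      rintro ⟨A, B⟩ ⟨hA, hB, hd, x, y, hE, hx⟩
      by_cases hx4 : (x : ℝ) ≤ 16 * H ^ 4
      · exact Or.inr ⟨hA, hB, x, y, hE, hx4⟩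
      · left
        push Not at hx4
        have hE' : |y| ^ 2 = x ^ 3 + A * x + B := by rw [sq_abs]; exact hE
        obtain ⟨lam, a, b, c, d, e, hl0, hl1, hgood, hI, hJ⟩ := reduction N x |y| A B H hH hx4
          ((le_abs_self _).trans hx) (abs_nonneg y) hA hB hd hE'
        refine ⟨((a, b, c, d), e), ⟨lam, hl0, hl1, hgood⟩, ?_⟩
        simp only [hφ, Prod.mk.injEq]
        constructor
        · rw [hI]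
          omega
        · rw [hJ]
          omega
    have h1 : ({p : ℤ × ℤ | |(p.1 : ℝ)| ≤ H ^ 2 ∧ |(p.2 : ℝ)| ≤ H ^ 3 ∧
        4 * p.1 ^ 3 + 27 * p.2 ^ 2 ≠ 0 ∧
        ∃ x y : ℤ, y ^ 2 = x ^ 3 + p.1 * x + p.2 ∧ |(x : ℝ)| ≤ H ^ N}.ncard : ℝ) ≤
        (F1.ncard : ℝ) + (S2.ncard : ℝ) := by
      have h2 := Set.ncard_le_ncard hcover ((hf1.image φ).union hs1)
      have h3 := Set.ncard_union_le (φ '' F1) S2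
      have h4 : (φ '' F1).ncard ≤ F1.ncard := Set.ncard_image_le hf1
      have h5 := h2.trans (h3.trans (Nat.add_le_add_right h4 _))
      exact_mod_cast h5
    have hH0pos : 0 < H0 := by linarith
    calc _ ≤ (F1.ncard : ℝ) + (S2.ncard : ℝ) := h1
      _ ≤ K1 * H ^ (499 / 100 : ℝ) + K2 * H ^ (499 / 100 : ℝ) := add_le_add hf2 hs2
      _ = (K1 + K2) * H ^ (499 / 100 : ℝ) := by ring
      _ ≤ (K1 + K2 + 9 * H0) * H ^ (499 / 100 : ℝ) := by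
          apply mul_le_mul_of_nonneg_right _ hp0.le
          linarith

end Pool.Agent.LibHLP
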