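import Pool.Agent.LibHLP.Dyadic

set_option autoImplicit false

namespace Pool.Agent.LibHLP

private lemma forms_lam {H lam : ℝ} {N : ℕ} {a b c d e : ℤ} (hH : 1 ≤ H) (h0 : 0 < lam)
    (h1 : lam ≤ 1) (h : Good H lam N a b c d e) : 1 / lam ≤ 5152 * H := by
  obtain ⟨ha, ha2, -⟩ := h
  have h2 : (1 : ℝ) ≤ |(a : ℝ)| := by
    have := Int.one_le_abs ha
    exact_mod_cast this
  have h3 : lam ^ 4 ≤ lam := by
    have := pow_le_pow_of_le_one h0.le h1 (show 1 ≤ 4 by norm_num)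
    simpa using this
  have h4 : 5152 * H * lam ^ 4 ≤ 5152 * H * lam := by gcongr
  rw [div_le_iff₀ h0]
  linarith

/-- The number of good forms. -/
theorem forms_count (N : ℕ) : ∃ H0 K : ℝ, 1 ≤ H0 ∧ 0 ≤ K ∧ ∀ H : ℝ, H0 ≤ H →
    {F : (ℤ × ℤ × ℤ × ℤ) × ℤ | ∃ lam : ℝ, 0 < lam ∧ lam ≤ 1 ∧
      Good H lam N F.1.1 F.1.2.1 F.1.2.2.1 F.1.2.2.2 F.2}.Finite ∧
    ({F : (ℤ × ℤ × ℤ × ℤ) × ℤ | ∃ lam : ℝ, 0 < lam ∧ lam ≤ 1 ∧
      Good H lam N F.1.1 F.1.2.1 F.1.2.2.1 F.1.2.2.2 F.2}.ncard : ℝ)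
        ≤ K * H ^ (499 / 100 : ℝ) := by
  obtain ⟨H0, K, hH0, hK, hD⟩ := dyadic_count N
  obtain ⟨c0, hc0⟩ : ∃ c0 : ℝ, c0 = Real.log 5152 / Real.log 2 + 1 + 4900 / Real.log 2 := ⟨_, rfl⟩
  have hl2 : 0 < Real.log 2 := Real.log_pos (by norm_num)
  have hl5 : 0 < Real.log 5152 := Real.log_pos (by norm_num)
  have hc00 : 0 ≤ c0 := by rw [hc0]; positivity
  refine ⟨H0, c0 * K, hH0, by positivity, ?_⟩
  intro H hH
  have hH1 : 1 ≤ H := hH0.trans hH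
  have hHpos : 0 < H := by linarith
  obtain ⟨n, hn⟩ : ∃ n : ℕ, n = ⌊Real.log (5152 * H) / Real.log 2⌋₊ + 1 := ⟨_, rfl⟩
  have hlog0 : 0 ≤ Real.log (5152 * H) / Real.log 2 := by
    apply div_nonneg _ hl2.le
    exact Real.log_nonneg (by linarith)
  -- the number of dyadic ranges
  have hn2 : (n : ℝ) ≤ c0 * H ^ (1 / 4900 : ℝ) := by
    have h1 : (n : ℝ) ≤ Real.log (5152 * H) / Real.log 2 + 1 := by
      rw [hn]; push_cast
      have := Nat.floor_le hlog0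
      linarith
    have h2 : Real.log (5152 * H) = Real.log 5152 + Real.log H :=
      Real.log_mul (by norm_num) hHpos.ne'
    have h3 : Real.log H ≤ H ^ (1 / 4900 : ℝ) / (1 / 4900) :=
      Real.log_le_rpow_div hHpos.le (by norm_num)
    have h4 : (1 : ℝ) ≤ H ^ (1 / 4900 : ℝ) := Real.one_le_rpow hH1 (by norm_num)
    have h5 : Real.log (5152 * H) / Real.log 2 ≤
        Real.log 5152 / Real.log 2 * H ^ (1 / 4900 : ℝ) +
          4900 / Real.log 2 * H ^ (1 / 4900 : ℝ) := by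
      rw [h2, add_div]
      apply add_le_add
      · exact le_mul_of_one_le_right (by positivity) h4
      · rw [div_mul_eq_mul_div]
        apply div_le_div_of_nonneg_right _ hl2.le
        linarith
    rw [hc0]
    nlinarith
  -- the union
  have hsub : {F : (ℤ × ℤ × ℤ × ℤ) × ℤ | ∃ lam : ℝ, 0 < lam ∧ lam ≤ 1 ∧
      Good H lam N F.1.1 F.1.2.1 F.1.2.2.1 F.1.2.2.2 F.2} ⊆
      ⋃ i ∈ Finset.range n, {F : (ℤ × ℤ × ℤ × ℤ) × ℤ | ∃ lam : ℝ, (1 / 2 : ℝ) ^ i / 2 < lam ∧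
        lam ≤ (1 / 2 : ℝ) ^ i ∧ Good H lam N F.1.1 F.1.2.1 F.1.2.2.1 F.1.2.2.2 F.2} := by
    rintro F ⟨lam, h0, h1, hg⟩
    have h2 := forms_lam hH1 h0 h1 hg
    have h3 : 1 ≤ 1 / lam := by rw [le_div_iff₀ h0]; linarith
    obtain ⟨i, hi1, hi2⟩ := exists_nat_pow_near h3 (show (1 : ℝ) < 2 by norm_num)
    simp only [Set.mem_iUnion, Finset.mem_range]
    refine ⟨i, ?_, lam, ?_, ?_, hg⟩
    · rw [hn, Nat.lt_add_one_iff]
      apply Nat.le_floor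
      rw [le_div_iff₀ hl2, ← Real.log_pow]
      apply Real.log_le_log (by positivity)
      exact hi1.trans h2
    · have h4 : (0 : ℝ) < 2 ^ (i + 1) := by positivity
      rw [div_lt_iff₀ h0] at hi2
      rw [one_div, inv_pow, div_lt_iff₀ (by norm_num : (0 : ℝ) < 2), inv_lt_iff_one_lt_mul₀
        (by positivity)]
      calc (1 : ℝ) < 2 ^ (i + 1) * lam := hi2
        _ = lam * 2 * 2 ^ i := by ring
    · rw [le_div_iff₀ h0] at hi1
      rw [one_div, inv_pow, le_inv_comm₀ h0 (by positivity)]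
      rw [le_inv_comm₀ (by positivity) h0]
      rw [← one_div, le_div_iff₀ (by positivity)]
      linarith
  obtain ⟨hfin, hcard⟩ := ncard_iUnion n (fun i => {F : (ℤ × ℤ × ℤ × ℤ) × ℤ | ∃ lam : ℝ,
    (1 / 2 : ℝ) ^ i / 2 < lam ∧ lam ≤ (1 / 2 : ℝ) ^ i ∧
      Good H lam N F.1.1 F.1.2.1 F.1.2.2.1 F.1.2.2.2 F.2}) (K * H ^ (5 - 1 / 98 : ℝ))
    (fun i _ => hD H hH ((1 / 2 : ℝ) ^ i) (by positivity)
      (pow_le_one₀ (by norm_num) (by norm_num)))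
  refine ⟨hfin.subset hsub, ?_⟩
  have h6 := Set.ncard_le_ncard hsub hfin
  calc _ ≤ _ := by exact_mod_cast h6
    _ ≤ (n : ℝ) * (K * H ^ (5 - 1 / 98 : ℝ)) := hcard
    _ ≤ (c0 * H ^ (1 / 4900 : ℝ)) * (K * H ^ (5 - 1 / 98 : ℝ)) := by gcongr
    _ = c0 * K * (H ^ (1 / 4900 : ℝ) * H ^ (5 - 1 / 98 : ℝ)) := by ring
    _ = c0 * K * H ^ (499 / 100 : ℝ) := by
      rw [← Real.rpow_add hHpos]
      norm_num

end Pool.Agent.LibHLP
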