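import Pool.Agent.LibHLP.DivBound

/-!
Counting the integers `t` at which a rational function `U/V` gives a solution of
`F_t(a,b) = 1`.
-/

set_option autoImplicit false

namespace Pool.Agent.LibHLP

open Polynomial Finset

/-- A nonzero rational polynomial is associated to a primitive integer polynomial. -/
lemma exists_primitive_assoc (g : ℚ[X]) (hg : g ≠ 0) :
    ∃ D : ℤ[X], D.IsPrimitive ∧ Associated (D.map (Int.castRingHom ℚ)) g := by
  obtain ⟨b, hb, hb2⟩ := IsLocalization.integerNormalization_spec (nonZeroDivisors ℤ) g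
  set g' := IsLocalization.integerNormalization (nonZeroDivisors ℤ) g with hg'
  have hb0 : b ≠ 0 := nonZeroDivisors.ne_zero hb
  have h1 : g'.map (Int.castRingHom ℚ) = C (b : ℚ) * g := by
    have := hb2
    rw [show (algebraMap ℤ ℚ) = Int.castRingHom ℚ from rfl] at this
    rw [this, Algebra.smul_def]
    rfl
  have hg'0 : g' ≠ 0 := by
    intro h
    rw [h, Polynomial.map_zero] at h1
    have : C (b : ℚ) * g ≠ 0 := mul_ne_zero (by simpa using hb0) hg
    exact this h1.symm
  have hc : g'.content ≠ 0 := by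
    rw [Ne, content_eq_zero_iff]; exact hg'0
  refine ⟨g'.primPart, g'.isPrimitive_primPart, ?_⟩
  have h2 : C (g'.content : ℚ) * g'.primPart.map (Int.castRingHom ℚ) = C (b : ℚ) * g := by
    rw [← h1]
    conv_rhs => rw [g'.eq_C_content_mul_primPart]
    rw [Polynomial.map_mul, map_C]
    rfl
  have hcQ : IsUnit (C (g'.content : ℚ)) := isUnit_C.2 (isUnit_iff_ne_zero.2 (by exact_mod_cast hc))
  have hbQ : IsUnit (C (b : ℚ)) := isUnit_C.2 (isUnit_iff_ne_zero.2 (by exact_mod_cast hb0))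
  calc Associated (g'.primPart.map (Int.castRingHom ℚ))
        (C (g'.content : ℚ) * g'.primPart.map (Int.castRingHom ℚ)) :=
        (associated_unit_mul_left _ _ hcQ).symm
    _ = C (b : ℚ) * g := h2
    Associated _ g := associated_unit_mul_left _ _ hbQ

/-- Removing the common factor of two integer polynomials. -/
lemma exists_coprime_factor (U V : ℤ[X]) (hV : V ≠ 0) :
    ∃ D U₁ V₁ : ℤ[X], U = D * U₁ ∧ V = D * V₁ ∧
      IsCoprime (U₁.map (Int.castRingHom ℚ)) (V₁.map (Int.castRingHom ℚ)) := by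
  have hinj : Function.Injective (Int.castRingHom ℚ) := (Int.castRingHom ℚ).injective_int
  have hVQ : V.map (Int.castRingHom ℚ) ≠ 0 := by
    rwa [Ne, Polynomial.map_eq_zero_iff hinj]
  set g := EuclideanDomain.gcd (U.map (Int.castRingHom ℚ)) (V.map (Int.castRingHom ℚ)) with hg
  have hg0 : g ≠ 0 := by
    intro h
    exact hVQ (EuclideanDomain.gcd_eq_zero_iff.1 h).2
  obtain ⟨D, hD, hDg⟩ := exists_primitive_assoc g hg0
  have hDU : D ∣ U := (IsPrimitive.Int.dvd_iff_map_cast_dvd_map_cast D U hD).2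
    (hDg.dvd.trans (EuclideanDomain.gcd_dvd_left _ _))
  have hDV : D ∣ V := (IsPrimitive.Int.dvd_iff_map_cast_dvd_map_cast D V hD).2
    (hDg.dvd.trans (EuclideanDomain.gcd_dvd_right _ _))
  obtain ⟨U₁, hU₁⟩ := hDU
  obtain ⟨V₁, hV₁⟩ := hDV
  refine ⟨D, U₁, V₁, hU₁, hV₁, ?_⟩
  obtain ⟨u, hu⟩ := hDg.symm
  have hab := EuclideanDomain.gcd_eq_gcd_ab (U.map (Int.castRingHom ℚ)) (V.map (Int.castRingHom ℚ))
  rw [← hg] at hab
  have hD0 : D.map (Int.castRingHom ℚ) ≠ 0 := by
    rw [Ne, Polynomial.map_eq_zero_iff hinj]; exact hD.ne_zero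
  refine ⟨EuclideanDomain.gcdA (U.map (Int.castRingHom ℚ)) (V.map (Int.castRingHom ℚ)) * u,
    EuclideanDomain.gcdB (U.map (Int.castRingHom ℚ)) (V.map (Int.castRingHom ℚ)) * u, ?_⟩
  apply mul_left_cancel₀ hD0
  rw [mul_one]
  conv_rhs => rw [← hu, hab]
  rw [hU₁, hV₁, Polynomial.map_mul, Polynomial.map_mul]
  ring

/-- The coefficients of a factor of an integer polynomial. -/
lemma coeff_factor_le {D U : ℤ[X]} (h0 : D * U ≠ 0) {m : ℕ} {H : ℝ}
    (hdeg : (D * U).natDegree ≤ m) (hH : ∀ i, |((D * U).coeff i : ℝ)| ≤ H) (i : ℕ) :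
    |(U.coeff i : ℝ)| ≤ 2 ^ m * ((m + 1) * H) := by
  have hD0 : D ≠ 0 := left_ne_zero_of_mul h0
  have hU0 : U ≠ 0 := right_ne_zero_of_mul h0
  have hH0 : 0 ≤ H := (abs_nonneg _).trans (hH 0)
  have h1 := norm_coeff_le_choose_mul_mahlerMeasure_of_one_le_mahlerMeasure i
    (U.map (Int.castRingHom ℂ)) (D.map (Int.castRingHom ℂ)) (one_le_mahlerMeasure_of_ne_zero hD0)
  have hinj : Function.Injective (Int.castRingHom ℂ) := (Int.castRingHom ℂ).injective_int
  have h2 : ‖(U.map (Int.castRingHom ℂ)).coeff i‖ = |(U.coeff i : ℝ)| := by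
    rw [coeff_map, eq_intCast, Complex.norm_intCast]
  rw [h2, ← Polynomial.map_mul, mul_comm U D, natDegree_map_eq_of_injective hinj] at h1
  have hUm : U.natDegree ≤ m := (natDegree_le_of_dvd (Dvd.intro_left D rfl) h0).trans hdeg
  have h3 : ((U.natDegree.choose i : ℕ) : ℝ) ≤ 2 ^ m := by
    calc ((U.natDegree.choose i : ℕ) : ℝ) ≤ ((2 ^ U.natDegree : ℕ) : ℝ) := by
          exact_mod_cast Nat.choose_le_two_pow _ _
      _ ≤ 2 ^ m := by
          push_cast
          exact pow_le_pow_right₀ (by norm_num) hUm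
  have h4 : ((D * U).map (Int.castRingHom ℂ)).mahlerMeasure ≤ (m + 1) * H := by
    refine (mahlerMeasure_le_sum_norm_coeff _).trans ?_
    rw [Polynomial.sum_over_range' _ (by simp) (m + 1) (by
      rw [natDegree_map_eq_of_injective hinj]; omega)]
    calc ∑ a ∈ Finset.range (m + 1), ‖((D * U).map (Int.castRingHom ℂ)).coeff a‖
        ≤ ∑ _a ∈ Finset.range (m + 1), H := by
          apply Finset.sum_le_sum
          intro a _
          rw [coeff_map, eq_intCast, Complex.norm_intCast]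
          exact hH a
      _ = (m + 1) * H := by simp
  calc |(U.coeff i : ℝ)| ≤ (U.natDegree.choose i : ℕ) *
        ((D * U).map (Int.castRingHom ℂ)).mahlerMeasure := h1
    _ ≤ 2 ^ m * ((m + 1) * H) := by
        apply mul_le_mul h3 h4 (mahlerMeasure_nonneg _) (by positivity)

/-- A nonzero integer of controlled size in the ideal generated by two coprime polynomials. -/
lemma exists_int_combination {U V : ℤ[X]} {m : ℕ} {H : ℝ} (hH1 : 1 ≤ H)
    (hc : IsCoprime (U.map (Int.castRingHom ℚ)) (V.map (Int.castRingHom ℚ))) (hV : V ≠ 0)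
    (hUm : U.natDegree ≤ m) (hVm : V.natDegree ≤ m)
    (hU : ∀ i, |(U.coeff i : ℝ)| ≤ H) (hV' : ∀ i, |(V.coeff i : ℝ)| ≤ H) :
    ∃ (ρ : ℤ) (p q : ℤ[X]), ρ ≠ 0 ∧ U * p + V * q = C ρ ∧
      |(ρ : ℝ)| ≤ (2 * m).factorial * H ^ (2 * m + 1) := by
  have hinj : Function.Injective (Int.castRingHom ℚ) := (Int.castRingHom ℚ).injective_int
  by_cases h : U.natDegree ≠ 0 ∨ V.natDegree ≠ 0
  · obtain ⟨p, q, -, -, hpq⟩ := exists_mul_add_mul_eq_C_resultant
      (m := U.natDegree) (n := V.natDegree) U V le_rfl le_rfl h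
    refine ⟨U.resultant V U.natDegree V.natDegree, p, q, ?_, hpq, ?_⟩
    · intro h0
      have h1 := resultant_ne_zero _ _ hc
      rw [natDegree_map_eq_of_injective hinj, natDegree_map_eq_of_injective hinj,
        resultant_map_map, h0, map_zero] at h1
      exact h1 rfl
    · have hF0 : (0 : ℤ) ≤ ⌊H⌋ := Int.floor_nonneg.2 (by linarith)
      have h1 : ∀ i j, (AbsoluteValue.abs : AbsoluteValue ℤ ℤ)
          (sylvester U V U.natDegree V.natDegree i j) ≤ ⌊H⌋ := by
        intro i j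
        rw [AbsoluteValue.abs_apply]
        rw [sylvester, Matrix.of_apply]
        refine Fin.addCases (fun j₁ => ?_) (fun j₁ => ?_) j
        · rw [Fin.addCases_left]
          split_ifs
          · rw [Int.le_floor]; push_cast; exact hV' _
          · simpa using hF0
        · rw [Fin.addCases_right]
          split_ifs
          · rw [Int.le_floor]; push_cast; exact hU _
          · simpa using hF0
      have h2 := Matrix.det_le h1
      rw [AbsoluteValue.abs_apply, Fintype.card_fin, nsmul_eq_mul] at h2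
      have h3 : |(U.resultant V U.natDegree V.natDegree : ℤ)| ≤
        ((U.natDegree + V.natDegree).factorial : ℤ) * ⌊H⌋ ^ (U.natDegree + V.natDegree) := h2
      have h4 : |((U.resultant V U.natDegree V.natDegree : ℤ) : ℝ)| ≤
        ((U.natDegree + V.natDegree).factorial : ℝ) * (⌊H⌋ : ℝ) ^ (U.natDegree + V.natDegree) := by
        exact_mod_cast h3
      refine h4.trans ?_
      have h5 : (⌊H⌋ : ℝ) ≤ H := Int.floor_le H
      have h6 : (0 : ℝ) ≤ (⌊H⌋ : ℝ) := by exact_mod_cast hF0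
      apply mul_le_mul
      · exact_mod_cast Nat.factorial_le (by omega)
      · calc (⌊H⌋ : ℝ) ^ (U.natDegree + V.natDegree) ≤ H ^ (U.natDegree + V.natDegree) :=
              pow_le_pow_left₀ h6 h5 _
          _ ≤ H ^ (2 * m + 1) := pow_le_pow_right₀ hH1 (by omega)
      · positivity
      · positivity
  · push Not at h
    obtain ⟨hu, hv⟩ := h
    refine ⟨V.coeff 0, 0, 1, ?_, ?_, ?_⟩
    · intro h0
      apply hV
      rw [eq_C_of_natDegree_eq_zero hv, h0, C_0]
    · rw [mul_zero, zero_add, mul_one]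
      exact eq_C_of_natDegree_eq_zero hv
    · calc |((V.coeff 0 : ℤ) : ℝ)| ≤ H := hV' 0
        _ = 1 * H ^ 1 := by ring
        _ ≤ (2 * m).factorial * H ^ (2 * m + 1) := by
          apply mul_le_mul
          · exact_mod_cast Nat.succ_le_of_lt (Nat.factorial_pos _)
          · exact pow_le_pow_right₀ hH1 (by omega)
          · positivity
          · positivity

/-- The polynomial `∑ k_i U^(n-i) V^i + (z₀ + X) V^n`. -/
noncomputable def Phi (n : ℕ) (k : ℕ → ℤ) (z₀ : ℤ) (U V : ℤ[X]) : ℤ[X] :=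
  ∑ i ∈ Finset.range n, C (k i) * (U ^ (n - i) * V ^ i) + (C z₀ + X) * V ^ n

lemma natDegree_term_le (n i : ℕ) (k : ℤ) (U V : ℤ[X]) :
    (C k * (U ^ (n - i) * V ^ i)).natDegree ≤ (n - i) * U.natDegree + i * V.natDegree := by
  refine (natDegree_C_mul_le _ _).trans (natDegree_mul_le.trans ?_)
  exact add_le_add natDegree_pow_le natDegree_pow_le

lemma natDegree_last (n : ℕ) (z₀ : ℤ) {V : ℤ[X]} (hV : V ≠ 0) :
    ((C z₀ + X) * V ^ n).natDegree = 1 + n * V.natDegree := by
  have h1 : (C z₀ + X : ℤ[X]).natDegree = 1 := by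
    rw [add_comm]; exact natDegree_X_add_C z₀
  have h2 : (C z₀ + X : ℤ[X]) ≠ 0 := by
    intro h
    rw [h] at h1
    simp at h1
  rw [natDegree_mul h2 (pow_ne_zero _ hV), h1, natDegree_pow]

lemma natDegree_Phi_le (n : ℕ) (k : ℕ → ℤ) (z₀ : ℤ) {U V : ℤ[X]} {m : ℕ}
    (hU : U.natDegree ≤ m) (hV : V.natDegree ≤ m) : (Phi n k z₀ U V).natDegree ≤ n * m + 1 := by
  refine natDegree_add_le_of_degree_le ?_ ?_
  · apply natDegree_sum_le_of_forall_le
    intro i hi
    rw [Finset.mem_range] at hi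
    refine (natDegree_term_le n i (k i) U V).trans ?_
    calc (n - i) * U.natDegree + i * V.natDegree ≤ (n - i) * m + i * m := by gcongr
      _ = n * m := by rw [← Nat.add_mul]; congr 1; omega
      _ ≤ n * m + 1 := Nat.le_succ _
  · by_cases h : V = 0
    · rw [h]
      rcases Nat.eq_zero_or_pos n with hn | hn
      · subst hn
        rw [pow_zero, mul_one, add_comm (C z₀), natDegree_X_add_C]
        omega
      · rw [zero_pow hn.ne', mul_zero, natDegree_zero]
        omega
    · rw [natDegree_last n z₀ h]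
      have : n * V.natDegree ≤ n * m := Nat.mul_le_mul_left _ hV
      omega

lemma natDegree_Phi_pos {n : ℕ} {k : ℕ → ℤ} (hk : ∃ i, i + 2 ≤ n ∧ k i ≠ 0) (z₀ : ℤ)
    {U V : ℤ[X]} (hV : V ≠ 0) : 0 < (Phi n k z₀ U V).natDegree := by
  rw [Phi]
  rcases le_or_gt U.natDegree V.natDegree with huv | huv
  · have h1 : (∑ i ∈ Finset.range n, C (k i) * (U ^ (n - i) * V ^ i)).natDegree ≤
        n * V.natDegree := by
      apply natDegree_sum_le_of_forall_le
      intro i hi
      rw [Finset.mem_range] at hi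
      refine (natDegree_term_le n i (k i) U V).trans ?_
      calc (n - i) * U.natDegree + i * V.natDegree ≤
          (n - i) * V.natDegree + i * V.natDegree := by gcongr
        _ = n * V.natDegree := by rw [← Nat.add_mul]; congr 1; omega
    have h2 := natDegree_last n z₀ hV
    rw [natDegree_add_eq_right_of_natDegree_lt (by omega), h2]
    omega
  · have hU : U ≠ 0 := by
      intro h
      rw [h, natDegree_zero] at huv
      exact absurd huv (Nat.not_lt_zero _)
    have hk' : ∃ i, k i ≠ 0 := hk.imp fun i hi => hi.2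
    classical
    obtain ⟨i₁, hi₁, hki₁⟩ := hk
    set i₀ := Nat.find hk' with hi₀
    have hki₀ : k i₀ ≠ 0 := Nat.find_spec hk'
    have hi₀n : i₀ + 2 ≤ n := by
      have : i₀ ≤ i₁ := Nat.find_min' hk' hki₁
      omega
    have hmin : ∀ i < i₀, k i = 0 := fun i hi => by
      by_contra h
      exact Nat.find_min hk' hi h
    have hmem : i₀ ∈ Finset.range n := Finset.mem_range.2 (by omega)
    rw [← Finset.add_sum_erase _ _ hmem, add_assoc]
    set u := U.natDegree with hu
    set v := V.natDegree with hv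
    have hlead : (C (k i₀) * (U ^ (n - i₀) * V ^ i₀)).natDegree = (n - i₀) * u + i₀ * v := by
      rw [natDegree_C_mul hki₀, natDegree_mul (pow_ne_zero _ hU) (pow_ne_zero _ hV),
        natDegree_pow, natDegree_pow]
    obtain ⟨e, he⟩ : ∃ e, u = v + 1 + e := ⟨u - v - 1, by omega⟩
    obtain ⟨f, hf⟩ : ∃ f, n = i₀ + 2 + f := ⟨n - i₀ - 2, by omega⟩
    have hni : n - i₀ = 2 + f := by omega
    have hrest : (∑ i ∈ (Finset.range n).erase i₀, C (k i) * (U ^ (n - i) * V ^ i) +
        (C z₀ + X) * V ^ n).natDegree ≤ (n - i₀) * u + i₀ * v - 1 := by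
      refine natDegree_add_le_of_degree_le ?_ ?_
      · apply natDegree_sum_le_of_forall_le
        intro i hi
        rw [Finset.mem_erase, Finset.mem_range] at hi
        rcases lt_or_gt_of_ne hi.1 with h | h
        · rw [hmin i h, C_0, zero_mul, natDegree_zero]
          exact Nat.zero_le _
        · refine (natDegree_term_le n i (k i) U V).trans ?_
          rw [← hu, ← hv]
          obtain ⟨d, hd⟩ : ∃ d, i = i₀ + 1 + d := ⟨i - i₀ - 1, by omega⟩
          obtain ⟨c, hc⟩ : ∃ c, n = i + c := ⟨n - i, by omega⟩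
          have e1 : n - i = c := by omega
          have e2 : 2 + f = 1 + d + c := by omega
          rw [e1, hni, e2, he, hd]
          apply Nat.le_sub_of_add_le
          nlinarith [Nat.zero_le (d * e), Nat.zero_le (d * v), Nat.zero_le e, Nat.zero_le d]
      · rw [natDegree_last n z₀ hV, ← hv, hni]
        apply Nat.le_sub_of_add_le
        rw [hf, he]
        nlinarith [Nat.zero_le (f * e), Nat.zero_le e, Nat.zero_le f]
    have hpos : 1 ≤ (n - i₀) * u + i₀ * v := by
      rw [hni, he]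
      nlinarith [Nat.zero_le (f * e), Nat.zero_le (i₀ * v), Nat.zero_le (f * v)]
    rw [natDegree_add_eq_left_of_natDegree_lt (by rw [hlead]; omega), hlead]
    omega

lemma eval_Phi (n : ℕ) (k : ℕ → ℤ) (z₀ : ℤ) (U V : ℤ[X]) (t : ℤ) :
    (Phi n k z₀ U V).eval t =
      ∑ i ∈ Finset.range n, k i * (U.eval t ^ (n - i) * V.eval t ^ i) +
        (z₀ + t) * V.eval t ^ n := by
  rw [Phi, eval_add, eval_finsetSum]
  congr 1
  · apply Finset.sum_congr rfl
    intro i _
    simp
  · simp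

/-- The set of integers `t` at which the rational function `U/V` gives a solution. -/
def goodT (n : ℕ) (k : ℕ → ℤ) (z₀ : ℤ) (U V : ℤ[X]) : Set ℤ :=
  {t | ∃ a b : ℤ, b ≠ 0 ∧ IsCoprime a b ∧ V.eval t * a = U.eval t * b ∧
    ∑ i ∈ Finset.range n, k i * (a ^ (n - i) * b ^ i) + (z₀ + t) * b ^ n = 1}

theorem gcd_count (n m : ℕ) (ε : ℝ) (hε : 0 < ε) :
    ∃ K : ℝ, ∀ (H : ℝ) (k : ℕ → ℤ) (z₀ : ℤ) (U V : ℤ[X]), 1 ≤ H →
      (∃ i, i + 2 ≤ n ∧ k i ≠ 0) → U.natDegree ≤ m → V.natDegree ≤ m →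
      (∀ i, |(U.coeff i : ℝ)| ≤ H) → (∀ i, |(V.coeff i : ℝ)| ≤ H) → (U ≠ 0 ∨ V ≠ 0) →
      (goodT n k z₀ U V).Finite ∧ ((goodT n k z₀ U V).ncard : ℝ) ≤ K * H ^ ε := by
  classical
  obtain ⟨C₀, hC₀, hdiv⟩ := exists_card_divisors_le (ε / (2 * m + 1)) (by positivity)
  set A : ℝ := (2 * m).factorial * (2 ^ m * (m + 1)) ^ (2 * m + 1) with hA
  refine ⟨m + 2 * (n * m + 1) * (C₀ * A ^ (ε / (2 * m + 1))), ?_⟩
  intro H k z₀ U V hH hk hUm hVm hUc hVc hUV
  have hHε : 1 ≤ H ^ ε := Real.one_le_rpow hH hε.le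
  have hA0 : 0 ≤ A := by positivity
  -- it suffices to find a finite set
  suffices h : ∃ T : Finset ℤ, goodT n k z₀ U V ⊆ T ∧
      (T.card : ℝ) ≤ m + 2 * (n * m + 1) * (C₀ * A ^ (ε / (2 * m + 1))) * H ^ ε by
    obtain ⟨T, hT, hcard⟩ := h
    refine ⟨T.finite_toSet.subset hT, ?_⟩
    have h1 : (goodT n k z₀ U V).ncard ≤ T.card := by
      have := Set.ncard_le_ncard hT T.finite_toSet
      rwa [Set.ncard_coe_finset] at this
    calc ((goodT n k z₀ U V).ncard : ℝ) ≤ T.card := by exact_mod_cast h1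
      _ ≤ m + 2 * (n * m + 1) * (C₀ * A ^ (ε / (2 * m + 1))) * H ^ ε := hcard
      _ ≤ m * H ^ ε + 2 * (n * m + 1) * (C₀ * A ^ (ε / (2 * m + 1))) * H ^ ε := by
          gcongr
          exact le_mul_of_one_le_right (Nat.cast_nonneg _) hHε
      _ = _ := by ring
  have hpos : 0 ≤ 2 * ((n : ℝ) * m + 1) * (C₀ * A ^ (ε / (2 * m + 1))) * H ^ ε := by positivity
  by_cases hV : V = 0
  · -- `V = 0`
    have hU : U ≠ 0 := hUV.resolve_right (fun h => h hV)
    refine ⟨U.roots.toFinset, ?_, ?_⟩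
    · rintro t ⟨a, b, hb, -, hab, -⟩
      rw [hV, eval_zero, zero_mul] at hab
      have : U.eval t = 0 := (mul_eq_zero.1 hab.symm).resolve_right hb
      simp [hU, this]
    · have h1 : (U.roots.toFinset.card : ℝ) ≤ m := by
        exact_mod_cast (Multiset.toFinset_card_le _).trans ((card_roots' U).trans hUm)
      linarith
  obtain ⟨D, U₁, V₁, hDU, hDV, hcop⟩ := exists_coprime_factor U V hV
  have hD0 : D ≠ 0 := by rintro rfl; simp at hDV; exact hV hDV
  have hV₁0 : V₁ ≠ 0 := by rintro rfl; simp at hDV; exact hV hDV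
  have hDm : D.natDegree ≤ m := (natDegree_le_of_dvd (Dvd.intro _ hDV.symm) hV).trans hVm
  have hV₁m : V₁.natDegree ≤ m :=
    (natDegree_le_of_dvd (Dvd.intro_left _ hDV.symm) hV).trans hVm
  have hU₁m : U₁.natDegree ≤ m := by
    by_cases hU : U = 0
    · have : U₁ = 0 := by
        rw [hU] at hDU
        exact (mul_eq_zero.1 hDU.symm).resolve_left hD0
      rw [this, natDegree_zero]
      exact Nat.zero_le _
    · exact (natDegree_le_of_dvd (Dvd.intro_left _ hDU.symm) hU).trans hUm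
  set H₁ : ℝ := 2 ^ m * ((m + 1) * H) with hH₁
  have hH₁1 : 1 ≤ H₁ := by
    have h1 : (1 : ℝ) ≤ 2 ^ m := one_le_pow₀ (by norm_num)
    have h2 : (1 : ℝ) ≤ (m + 1) * H := by nlinarith [(Nat.cast_nonneg m : (0 : ℝ) ≤ m)]
    nlinarith
  have hV₁c : ∀ i, |(V₁.coeff i : ℝ)| ≤ H₁ := by
    intro i
    refine coeff_factor_le (D := D) (by rwa [← hDV]) ?_ ?_ i
    · rwa [← hDV]
    · rwa [← hDV]
  have hU₁c : ∀ i, |(U₁.coeff i : ℝ)| ≤ H₁ := by
    intro i
    by_cases hU : U = 0
    · have : U₁ = 0 := by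
        rw [hU] at hDU
        exact (mul_eq_zero.1 hDU.symm).resolve_left hD0
      rw [this]
      simp only [coeff_zero, Int.cast_zero, abs_zero]
      linarith
    · refine coeff_factor_le (D := D) (by rwa [← hDU]) ?_ ?_ i
      · rwa [← hDU]
      · rwa [← hDU]
  obtain ⟨ρ, p, q, hρ0, hpq, hρ⟩ := exists_int_combination hH₁1 hcop hV₁0 hU₁m hV₁m hU₁c hV₁c
  set G : Finset ℤ := ρ.natAbs.divisors.image (fun d : ℕ => (d : ℤ)) ∪
    ρ.natAbs.divisors.image (fun d : ℕ => -(d : ℤ)) with hG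
  have hGmem : ∀ g : ℤ, g ∣ ρ → g ∈ G := by
    intro g hg
    have h1 : g.natAbs ∈ ρ.natAbs.divisors :=
      Nat.mem_divisors.2 ⟨Int.natAbs_dvd_natAbs.2 hg, Int.natAbs_ne_zero.2 hρ0⟩
    rw [hG, Finset.mem_union, Finset.mem_image, Finset.mem_image]
    rcases Int.natAbs_eq g with h | h
    · exact Or.inl ⟨g.natAbs, h1, h.symm⟩
    · exact Or.inr ⟨g.natAbs, h1, h.symm⟩
  have hGcard : G.card ≤ 2 * ρ.natAbs.divisors.card := by
    refine (Finset.card_union_le _ _).trans ?_
    have h1 := Finset.card_image_le (s := ρ.natAbs.divisors) (f := fun d : ℕ => (d : ℤ))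
    have h2 := Finset.card_image_le (s := ρ.natAbs.divisors) (f := fun d : ℕ => -(d : ℤ))
    omega
  refine ⟨D.roots.toFinset ∪ G.biUnion fun g => (Phi n k z₀ U₁ V₁ - C (g ^ n)).roots.toFinset,
    ?_, ?_⟩
  · rintro t ⟨a, b, hb, hcopab, hab, hF⟩
    rw [Finset.mem_coe, Finset.mem_union]
    by_cases hDt : D.eval t = 0
    · left
      simp [hD0, hDt]
    right
    rw [hDU, hDV, eval_mul, eval_mul, mul_assoc, mul_assoc] at hab
    have hab1 : V₁.eval t * a = U₁.eval t * b := mul_left_cancel₀ hDt hab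
    have hbV : b ∣ V₁.eval t := by
      have h1 : b ∣ V₁.eval t * a := by rw [hab1]; exact Dvd.intro_left _ rfl
      exact hcopab.symm.dvd_of_dvd_mul_right h1
    obtain ⟨g, hg⟩ := hbV
    have hgU : U₁.eval t = g * a := by
      rw [hg] at hab1
      have : b * (g * a) = b * U₁.eval t := by rw [← mul_assoc, hab1, mul_comm]
      exact (mul_left_cancel₀ hb this).symm
    have hgρ : g ∣ ρ := by
      have h1 : U₁.eval t * p.eval t + V₁.eval t * q.eval t = ρ := by
        have := congrArg (eval t) hpq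
        simpa using this
      rw [← h1, hgU, hg]
      exact ⟨a * p.eval t + b * q.eval t, by ring⟩
    rw [Finset.mem_biUnion]
    refine ⟨g, hGmem g hgρ, ?_⟩
    have hne : Phi n k z₀ U₁ V₁ - C (g ^ n) ≠ 0 := by
      intro h
      have h1 := natDegree_Phi_pos (n := n) (k := k) hk z₀ (U := U₁) (V := V₁) hV₁0
      rw [sub_eq_zero.1 h, natDegree_C] at h1
      exact lt_irrefl _ h1
    rw [Multiset.mem_toFinset, mem_roots hne, IsRoot.def, eval_sub, eval_C, eval_Phi, hgU, hg]
    have h2 : ∑ i ∈ Finset.range n, k i * ((g * a) ^ (n - i) * (b * g) ^ i) +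
        (z₀ + t) * (b * g) ^ n = g ^ n * (∑ i ∈ Finset.range n, k i * (a ^ (n - i) * b ^ i) +
          (z₀ + t) * b ^ n) := by
      rw [mul_add, Finset.mul_sum]
      congr 1
      · apply Finset.sum_congr rfl
        intro i hi
        rw [Finset.mem_range] at hi
        have h3 : g ^ n = g ^ (n - i) * g ^ i := by rw [← pow_add]; congr 1; omega
        rw [h3, mul_pow, mul_pow]
        ring
      · rw [mul_pow]
        ring
    rw [h2, hF, mul_one, sub_self]
  · have h1 : (D.roots.toFinset ∪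
        G.biUnion fun g => (Phi n k z₀ U₁ V₁ - C (g ^ n)).roots.toFinset).card ≤
        m + 2 * ρ.natAbs.divisors.card * (n * m + 1) := by
      refine (Finset.card_union_le _ _).trans (add_le_add ?_ ?_)
      · exact (Multiset.toFinset_card_le _).trans ((card_roots' D).trans hDm)
      · refine (Finset.card_biUnion_le_card_mul G _ (n * m + 1) ?_).trans ?_
        · intro g _
          refine (Multiset.toFinset_card_le _).trans ((card_roots' _).trans ?_)
          refine (natDegree_sub_le _ _).trans ?_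
          rw [natDegree_C]
          exact max_le (natDegree_Phi_le n k z₀ hU₁m hV₁m) (Nat.zero_le _)
        · exact Nat.mul_le_mul_right _ hGcard
    have h2 : ((ρ.natAbs.divisors.card : ℕ) : ℝ) ≤ C₀ * (A ^ (ε / (2 * m + 1)) * H ^ ε) := by
      refine (hdiv ρ.natAbs (Int.natAbs_ne_zero.2 hρ0)).trans ?_
      apply mul_le_mul_of_nonneg_left _ (by linarith)
      have h3 : ((ρ.natAbs : ℕ) : ℝ) = |(ρ : ℝ)| := by
        rw [Nat.cast_natAbs, Int.cast_abs]
      have h4 : |(ρ : ℝ)| ≤ A * H ^ (2 * m + 1) := by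
        refine hρ.trans (le_of_eq ?_)
        rw [hA, hH₁, mul_assoc, ← mul_pow]
        ring
      rw [h3]
      calc |(ρ : ℝ)| ^ (ε / (2 * m + 1)) ≤ (A * H ^ (2 * m + 1)) ^ (ε / (2 * m + 1)) :=
            Real.rpow_le_rpow (abs_nonneg _) h4 (by positivity)
        _ = A ^ (ε / (2 * m + 1)) * (H ^ (2 * m + 1)) ^ (ε / (2 * m + 1)) :=
            Real.mul_rpow hA0 (by positivity)
        _ = A ^ (ε / (2 * m + 1)) * H ^ ε := by
            congr 1
            rw [← Real.rpow_natCast, ← Real.rpow_mul (by linarith)]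
            congr 1
            push_cast
            field_simp
    calc ((D.roots.toFinset ∪
        G.biUnion fun g => (Phi n k z₀ U₁ V₁ - C (g ^ n)).roots.toFinset).card : ℝ)
        ≤ m + 2 * (ρ.natAbs.divisors.card : ℕ) * (n * m + 1) := by exact_mod_cast h1
      _ ≤ m + 2 * (C₀ * (A ^ (ε / (2 * m + 1)) * H ^ ε)) * (n * m + 1) := by gcongr
      _ = m + 2 * (n * m + 1) * (C₀ * A ^ (ε / (2 * m + 1))) * H ^ ε := by ring

end Pool.Agent.LibHLP
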