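import Pool.Agent.LibHLP.Defs
import Pool.Agent.LibHLP.AuxPair
import Pool.Agent.LibHLP.GcdCount

set_option autoImplicit false

open Polynomial

namespace Pool.Agent.LibHLP

private theorem patch_l1_pow (c : ℝ) (n : ℕ) (p : ℝ[X]) (e : ℝ) (hp : l1 p ≤ e) :
    l1 (C c * p ^ n) ≤ |c| * e ^ n := by
  refine (l1_mul_le _ _).trans ?_
  rw [l1_C]
  refine mul_le_mul_of_nonneg_left ?_ (abs_nonneg _)
  exact (l1_pow_le p n).trans (pow_le_pow_left₀ (l1_nonneg p) hp n)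

private theorem patch_l1_quartic (c0 c1 c2 c3 c4 : ℝ) (p : ℝ[X]) (e : ℝ) (hp : l1 p ≤ e) :
    l1 (C c0 + C c1 * p ^ 1 + C c2 * p ^ 2 + C c3 * p ^ 3 + C c4 * p ^ 4)
      ≤ |c0| + |c1| * e ^ 1 + |c2| * e ^ 2 + |c3| * e ^ 3 + |c4| * e ^ 4 := by
  have h0 : l1 (C c0) = |c0| := l1_C c0
  have h1 := patch_l1_pow c1 1 p e hp
  have h2 := patch_l1_pow c2 2 p e hp
  have h3 := patch_l1_pow c3 3 p e hp
  have h4 := patch_l1_pow c4 4 p e hp
  have e1 := l1_add_le (C c0) (C c1 * p ^ 1)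
  have e2 := l1_add_le (C c0 + C c1 * p ^ 1) (C c2 * p ^ 2)
  have e3 := l1_add_le (C c0 + C c1 * p ^ 1 + C c2 * p ^ 2) (C c3 * p ^ 3)
  have e4 := l1_add_le (C c0 + C c1 * p ^ 1 + C c2 * p ^ 2 + C c3 * p ^ 3) (C c4 * p ^ 4)
  linarith

private theorem patch_R_le {G R : ℝ} (hG : 1 ≤ G) (hR : 1 ≤ R) {a : ℤ} (ha : a ≠ 0)
    (h : |(a : ℝ)| * R ^ 4 ≤ G ^ 20) : R ≤ G ^ 5 := by
  have h1 : (1 : ℝ) ≤ |(a : ℝ)| := by
    have := Int.one_le_abs ha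
    exact_mod_cast this
  have h2 : R ^ 4 ≤ (G ^ 5) ^ 4 := by
    have h3 : 0 ≤ R ^ 4 := by positivity
    calc R ^ 4 = 1 * R ^ 4 := (one_mul _).symm
      _ ≤ |(a : ℝ)| * R ^ 4 := mul_le_mul_of_nonneg_right h1 h3
      _ ≤ G ^ 20 := h
      _ = (G ^ 5) ^ 4 := by ring
  exact le_of_pow_le_pow_left₀ (by norm_num) (by positivity) h2

private theorem patch_coeff_bound {D R θ a1 a2 a3 a4 : ℝ} (hR : 1 ≤ R) (hθ : |θ| ≤ R)
    (h1 : |a1| * R ≤ D) (h2 : |a2| * R ^ 2 ≤ D) (h3 : |a3| * R ^ 3 ≤ D) (h4 : |a4| * R ^ 4 ≤ D) :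
    |-(a1 * R + 2 * a2 * θ * R + 3 * a3 * θ ^ 2 * R + 4 * a4 * θ ^ 3 * R)| ≤ 10 * D ∧
    |-(a2 * R ^ 2 + 3 * a3 * θ * R ^ 2 + 6 * a4 * θ ^ 2 * R ^ 2)| ≤ 10 * D ∧
    |-(a3 * R ^ 3 + 4 * a4 * θ * R ^ 3)| ≤ 5 * D ∧ |-(a4 * R ^ 4)| ≤ D := by
  have hR0 : 0 ≤ R := by linarith
  have hθ2 : |θ| ^ 2 ≤ R ^ 2 := pow_le_pow_left₀ (abs_nonneg _) hθ 2
  have hθ3 : |θ| ^ 3 ≤ R ^ 3 := pow_le_pow_left₀ (abs_nonneg _) hθ 3
  have e11 : |a1 * R| ≤ D := by rwa [abs_mul, abs_of_nonneg hR0]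
  have e21 : |2 * a2 * θ * R| ≤ 2 * D := by
    have : |2 * a2 * θ * R| = 2 * (|a2| * (|θ| * R)) := by
      rw [abs_mul, abs_mul, abs_mul, abs_of_nonneg hR0, abs_of_pos (by norm_num : (0 : ℝ) < 2)]
      ring
    rw [this]
    have h5 : |θ| * R ≤ R ^ 2 := by nlinarith [abs_nonneg θ]
    have := mul_le_mul_of_nonneg_left h5 (abs_nonneg a2)
    linarith
  have e31 : |3 * a3 * θ ^ 2 * R| ≤ 3 * D := by
    have : |3 * a3 * θ ^ 2 * R| = 3 * (|a3| * (|θ| ^ 2 * R)) := by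
      rw [abs_mul, abs_mul, abs_mul, abs_of_nonneg hR0, abs_of_pos (by norm_num : (0 : ℝ) < 3),
        abs_pow]
      ring
    rw [this]
    have h5 : |θ| ^ 2 * R ≤ R ^ 3 := by
      calc |θ| ^ 2 * R ≤ R ^ 2 * R := mul_le_mul_of_nonneg_right hθ2 hR0
        _ = R ^ 3 := by ring
    have := mul_le_mul_of_nonneg_left h5 (abs_nonneg a3)
    linarith
  have e41 : |4 * a4 * θ ^ 3 * R| ≤ 4 * D := by
    have : |4 * a4 * θ ^ 3 * R| = 4 * (|a4| * (|θ| ^ 3 * R)) := by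
      rw [abs_mul, abs_mul, abs_mul, abs_of_nonneg hR0, abs_of_pos (by norm_num : (0 : ℝ) < 4),
        abs_pow]
      ring
    rw [this]
    have h5 : |θ| ^ 3 * R ≤ R ^ 4 := by
      calc |θ| ^ 3 * R ≤ R ^ 3 * R := mul_le_mul_of_nonneg_right hθ3 hR0
        _ = R ^ 4 := by ring
    have := mul_le_mul_of_nonneg_left h5 (abs_nonneg a4)
    linarith
  have e22 : |a2 * R ^ 2| ≤ D := by rwa [abs_mul, abs_of_nonneg (by positivity : (0 : ℝ) ≤ R ^ 2)]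
  have e32 : |3 * a3 * θ * R ^ 2| ≤ 3 * D := by
    have : |3 * a3 * θ * R ^ 2| = 3 * (|a3| * (|θ| * R ^ 2)) := by
      rw [abs_mul, abs_mul, abs_mul, abs_of_nonneg (by positivity : (0 : ℝ) ≤ R ^ 2),
        abs_of_pos (by norm_num : (0 : ℝ) < 3)]
      ring
    rw [this]
    have h5 : |θ| * R ^ 2 ≤ R ^ 3 := by
      calc |θ| * R ^ 2 ≤ R * R ^ 2 := mul_le_mul_of_nonneg_right hθ (by positivity)
        _ = R ^ 3 := by ring
    have := mul_le_mul_of_nonneg_left h5 (abs_nonneg a3)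
    linarith
  have e42 : |6 * a4 * θ ^ 2 * R ^ 2| ≤ 6 * D := by
    have : |6 * a4 * θ ^ 2 * R ^ 2| = 6 * (|a4| * (|θ| ^ 2 * R ^ 2)) := by
      rw [abs_mul, abs_mul, abs_mul, abs_of_nonneg (by positivity : (0 : ℝ) ≤ R ^ 2),
        abs_of_pos (by norm_num : (0 : ℝ) < 6), abs_pow]
      ring
    rw [this]
    have h5 : |θ| ^ 2 * R ^ 2 ≤ R ^ 4 := by
      calc |θ| ^ 2 * R ^ 2 ≤ R ^ 2 * R ^ 2 := mul_le_mul_of_nonneg_right hθ2 (by positivity)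
        _ = R ^ 4 := by ring
    have := mul_le_mul_of_nonneg_left h5 (abs_nonneg a4)
    linarith
  have e33 : |a3 * R ^ 3| ≤ D := by rwa [abs_mul, abs_of_nonneg (by positivity : (0 : ℝ) ≤ R ^ 3)]
  have e43 : |4 * a4 * θ * R ^ 3| ≤ 4 * D := by
    have : |4 * a4 * θ * R ^ 3| = 4 * (|a4| * (|θ| * R ^ 3)) := by
      rw [abs_mul, abs_mul, abs_mul, abs_of_nonneg (by positivity : (0 : ℝ) ≤ R ^ 3),
        abs_of_pos (by norm_num : (0 : ℝ) < 4)]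
      ring
    rw [this]
    have h5 : |θ| * R ^ 3 ≤ R ^ 4 := by
      calc |θ| * R ^ 3 ≤ R * R ^ 3 := mul_le_mul_of_nonneg_right hθ (by positivity)
        _ = R ^ 4 := by ring
    have := mul_le_mul_of_nonneg_left h5 (abs_nonneg a4)
    linarith
  have e44 : |a4 * R ^ 4| ≤ D := by rwa [abs_mul, abs_of_nonneg (by positivity : (0 : ℝ) ≤ R ^ 4)]
  simp only [abs_neg]
  refine ⟨?_, ?_, ?_, e44⟩
  · have := abs_add_le (a1 * R + 2 * a2 * θ * R + 3 * a3 * θ ^ 2 * R) (4 * a4 * θ ^ 3 * R)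
    have := abs_add_le (a1 * R + 2 * a2 * θ * R) (3 * a3 * θ ^ 2 * R)
    have := abs_add_le (a1 * R) (2 * a2 * θ * R)
    linarith
  · have := abs_add_le (a2 * R ^ 2 + 3 * a3 * θ * R ^ 2) (6 * a4 * θ ^ 2 * R ^ 2)
    have := abs_add_le (a2 * R ^ 2) (3 * a3 * θ * R ^ 2)
    linarith
  · have := abs_add_le (a3 * R ^ 3) (4 * a4 * θ * R ^ 3)
    linarith

private theorem patch_poly (D R θ a1 a2 a3 a4 : ℝ) (hD : 1 ≤ D) (hR : 1 ≤ R) (hθ : |θ| ≤ R)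
    (h1 : |a1| * R ≤ D) (h2 : |a2| * R ^ 2 ≤ D) (h3 : |a3| * R ^ 3 ≤ D) (h4 : |a4| * R ^ 4 ≤ D) :
    ∃ (T : ℝ[X]) (d0 : ℤ), l1 T ≤ 27 * D ∧ l1 (T.comp (C D⁻¹ * X)) ≤ 27 ∧
      ∀ y : ℝ, T.eval y = -(a1 * (θ + R * y) + a2 * (θ + R * y) ^ 2 + a3 * (θ + R * y) ^ 3
        + a4 * (θ + R * y) ^ 4) - d0 := by
  obtain ⟨b1, b2, b3, b4⟩ := patch_coeff_bound hR hθ h1 h2 h3 h4
  set g0 : ℝ := -(a1 * θ + a2 * θ ^ 2 + a3 * θ ^ 3 + a4 * θ ^ 4) with hg0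
  set c1 : ℝ := -(a1 * R + 2 * a2 * θ * R + 3 * a3 * θ ^ 2 * R + 4 * a4 * θ ^ 3 * R) with hc1
  set c2 : ℝ := -(a2 * R ^ 2 + 3 * a3 * θ * R ^ 2 + 6 * a4 * θ ^ 2 * R ^ 2) with hc2
  set c3 : ℝ := -(a3 * R ^ 3 + 4 * a4 * θ * R ^ 3) with hc3
  set c4 : ℝ := -(a4 * R ^ 4) with hc4
  have hD0 : 0 < D := by linarith
  have hc0 : |g0 - round g0| ≤ 1 / 2 := abs_sub_round g0
  have hX : l1 (X : ℝ[X]) ≤ 1 := l1_X.le
  have hDX : l1 (C D⁻¹ * X : ℝ[X]) ≤ D⁻¹ := by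
    refine (l1_mul_le _ _).trans ?_
    rw [l1_C, l1_X, mul_one, abs_of_pos (by positivity)]
  refine ⟨C (g0 - round g0) + C c1 * X ^ 1 + C c2 * X ^ 2 + C c3 * X ^ 3 + C c4 * X ^ 4,
    round g0, ?_, ?_, ?_⟩
  · refine (patch_l1_quartic _ _ _ _ _ X 1 hX).trans ?_
    simp only [one_pow, mul_one]
    linarith
  · have hcomp : (C (g0 - round g0) + C c1 * X ^ 1 + C c2 * X ^ 2 + C c3 * X ^ 3
        + C c4 * X ^ 4 : ℝ[X]).comp (C D⁻¹ * X)
        = C (g0 - round g0) + C c1 * (C D⁻¹ * X) ^ 1 + C c2 * (C D⁻¹ * X) ^ 2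
          + C c3 * (C D⁻¹ * X) ^ 3 + C c4 * (C D⁻¹ * X) ^ 4 := by
      simp only [add_comp, mul_comp, pow_comp, C_comp, X_comp]
    rw [hcomp]
    refine (patch_l1_quartic _ _ _ _ _ _ D⁻¹ hDX).trans ?_
    have hi1 : D⁻¹ ≤ 1 := inv_le_one_of_one_le₀ hD
    have hi0 : 0 < D⁻¹ := by positivity
    have hpow : ∀ n : ℕ, D⁻¹ ^ (n + 1) ≤ D⁻¹ := by
      intro n
      rw [pow_succ]
      have : D⁻¹ ^ n ≤ 1 := pow_le_one₀ hi0.le hi1
      nlinarith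
    have hDD : D * D⁻¹ = 1 := mul_inv_cancel₀ hD0.ne'
    have k1 : |c1| * D⁻¹ ^ 1 ≤ 10 := by
      calc |c1| * D⁻¹ ^ 1 ≤ (10 * D) * D⁻¹ :=
            mul_le_mul b1 (hpow 0) (by positivity) (by positivity)
        _ = 10 := by rw [mul_assoc, hDD, mul_one]
    have k2 : |c2| * D⁻¹ ^ 2 ≤ 10 := by
      calc |c2| * D⁻¹ ^ 2 ≤ (10 * D) * D⁻¹ :=
            mul_le_mul b2 (hpow 1) (by positivity) (by positivity)
        _ = 10 := by rw [mul_assoc, hDD, mul_one]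
    have k3 : |c3| * D⁻¹ ^ 3 ≤ 5 := by
      calc |c3| * D⁻¹ ^ 3 ≤ (5 * D) * D⁻¹ :=
            mul_le_mul b3 (hpow 2) (by positivity) (by positivity)
        _ = 5 := by rw [mul_assoc, hDD, mul_one]
    have k4 : |c4| * D⁻¹ ^ 4 ≤ 1 := by
      calc |c4| * D⁻¹ ^ 4 ≤ D * D⁻¹ :=
            mul_le_mul b4 (hpow 3) (by positivity) (by positivity)
        _ = 1 := hDD
    linarith
  · intro y
    simp only [eval_add, eval_mul, eval_C, eval_pow, eval_X]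
    rw [hg0, hc1, hc2, hc3, hc4]
    ring

/-- Few values of `d` on a patch. -/
theorem patch_count (N : ℕ) : ∃ G0 K : ℝ, 1 < G0 ∧ 0 ≤ K ∧ ∀ G : ℝ, G0 ≤ G → ∀ s : ℕ, 7 ≤ s →
    s ≤ N → ∀ R : ℝ, 1 ≤ R → ∀ a1 a2 a3 a4 : ℤ, a4 ≠ 0 → |(a1 : ℝ)| * R ≤ G ^ 20 →
    |(a2 : ℝ)| * R ^ 2 ≤ G ^ 20 → |(a3 : ℝ)| * R ^ 3 ≤ G ^ 20 → |(a4 : ℝ)| * R ^ 4 ≤ G ^ 20 →
    ∀ θ0 : ℝ, |θ0| ≤ R → (patchSet a1 a2 a3 a4 θ0 (R / G ^ 19) (G ^ s) (G ^ (s + 1))).Finite ∧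
      ((patchSet a1 a2 a3 a4 θ0 (R / G ^ 19) (G ^ s) (G ^ (s + 1))).ncard : ℝ)
        ≤ K * G ^ (1 / 100 : ℝ) := by
  obtain ⟨G0, hG0, haux⟩ := aux_pair N
  have hε : (0 : ℝ) < 1 / (300 * (N + 1)) := by positivity
  choose Km hKm using fun m : ℕ => gcd_count 4 m (1 / (300 * (N + 1))) hε
  refine ⟨G0, ∑ m ∈ Finset.range (N + 1), |Km m|, hG0,
    Finset.sum_nonneg fun _ _ => abs_nonneg _, ?_⟩
  intro G hG s hs7 hsN R hR a1 a2 a3 a4 ha4 h1 h2 h3 h4 θ0 hθ0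
  have hG1 : 1 ≤ G := hG0.le.trans hG
  have hGpos : 0 < G := by linarith
  have hR5 : R ≤ G ^ 5 := patch_R_le hG1 hR ha4 h4
  have hD : (1 : ℝ) ≤ G ^ 20 := one_le_pow₀ hG1
  obtain ⟨T, d0, hT1, hT2, hTe⟩ := patch_poly (G ^ 20) R θ0 a1 a2 a3 a4 hD hR hθ0 h1 h2 h3 h4
  obtain ⟨m, u, v, hmN, hne, huv, hsmall⟩ := haux G hG s hs7 hsN R hR hR5 θ0 hθ0 T hT1 hT2
  -- the polynomials
  set V : ℤ[X] := ∑ i ∈ Finset.range (m + 1), C (u i) * X ^ i with hV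
  set U : ℤ[X] := ∑ i ∈ Finset.range (m + 1), C (-(v i)) * X ^ i with hU
  have hcoef : ∀ (w : ℕ → ℤ) (j : ℕ),
      (∑ i ∈ Finset.range (m + 1), C (w i) * X ^ i : ℤ[X]).coeff j
        = if j ≤ m then w j else 0 := by
    intro w j
    rw [finsetSum_coeff]
    simp only [coeff_C_mul, coeff_X_pow]
    by_cases hj : j ≤ m
    · rw [Finset.sum_eq_single j]
      · simp [hj]
      · intro b _ hb
        rw [if_neg (Ne.symm hb), mul_zero]
      · intro hj'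
        exact absurd (Finset.mem_range.2 (Nat.lt_succ_of_le hj)) hj'
    · rw [if_neg hj]
      refine Finset.sum_eq_zero fun i hi => ?_
      have : j ≠ i := by
        have := Finset.mem_range.1 hi
        omega
      rw [if_neg this, mul_zero]
  have hdeg : ∀ w : ℕ → ℤ,
      (∑ i ∈ Finset.range (m + 1), C (w i) * X ^ i : ℤ[X]).natDegree ≤ m := by
    intro w
    rw [natDegree_le_iff_coeff_eq_zero]
    intro j hj
    rw [hcoef w j, if_neg (by omega)]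
  have hH1 : (1 : ℝ) ≤ G ^ (3 * N) := one_le_pow₀ hG1
  have hGH0 : (0 : ℝ) ≤ G ^ (3 * N) := by linarith
  have hVc : ∀ i, |(V.coeff i : ℝ)| ≤ G ^ (3 * N) := by
    intro i
    rw [hV, hcoef]
    split_ifs with hi
    · exact (huv i hi).1
    · simpa using hGH0
  have hUc : ∀ i, |(U.coeff i : ℝ)| ≤ G ^ (3 * N) := by
    intro i
    rw [hU, hcoef (fun i => -(v i))]
    split_ifs with hi
    · push_cast
      rw [abs_neg]
      exact (huv i hi).2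
    · simpa using hGH0
  have hUV : U ≠ 0 ∨ V ≠ 0 := by
    obtain ⟨i, him, hi⟩ := hne
    rcases hi with hi | hi
    · right
      intro h0
      apply hi
      have := hcoef u i
      rw [← hV, h0, coeff_zero, if_pos him] at this
      exact this.symm
    · left
      intro h0
      apply hi
      have := hcoef (fun i => -(v i)) i
      rw [← hU, h0, coeff_zero, if_pos him] at this
      have h5 : -(v i) = 0 := this.symm
      omega
  set k : ℕ → ℤ := fun i => if i = 0 then a4 else if i = 1 then a3 else if i = 2 then a2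
    else a1 with hk
  have hk0 : ∃ i, i + 2 ≤ 4 ∧ k i ≠ 0 := ⟨0, by norm_num, by simpa [hk] using ha4⟩
  obtain ⟨hfin, hcard⟩ := hKm m (G ^ (3 * N)) k d0 U V hH1 hk0 (hdeg _) (hdeg _) hUc hVc hUV
  -- the patch set is contained in a translate
  have hsub : patchSet a1 a2 a3 a4 θ0 (R / G ^ 19) (G ^ s) (G ^ (s + 1))
      ⊆ (fun t => d0 + t) '' goodT 4 k d0 U V := by
    rintro d ⟨p, q, hq0, hq1, hq2, hpq, hform⟩
    refine ⟨d - d0, ?_, by ring⟩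
    have hqR : (q : ℝ) ≠ 0 := by exact_mod_cast hq0
    have hcop : IsCoprime p q := by
      refine ⟨a4 * p ^ 3 + a3 * p ^ 2 * q + a2 * p * q ^ 2 + a1 * q ^ 3, d * q ^ 3, ?_⟩
      rw [← hform]
      ring
    refine ⟨p, q, hq0, hcop, ?_, ?_⟩
    · -- the auxiliary identity
      set y : ℝ := ((p : ℝ) / q - θ0) / R with hy
      have hR0 : R ≠ 0 := by linarith
      have hRpos : 0 < R := by linarith
      have hyR : θ0 + R * y = (p : ℝ) / q := by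
        rw [hy]
        field_simp
        ring
      have hy1 : |y| * G ^ 19 ≤ 1 := by
        rw [hy, abs_div, abs_of_pos hRpos, div_mul_eq_mul_div, div_le_one hRpos]
        rwa [le_div_iff₀ (by positivity)] at hpq
      set r : ℝ := 1 / (q : ℝ) ^ 4 with hr
      have hr1 : |r| * G ^ (4 * s) ≤ 1 := by
        rw [hr, abs_div, abs_one, abs_pow, div_mul_eq_mul_div, one_mul,
          div_le_one (by positivity)]
        rw [mul_comm 4 s, pow_mul]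
        exact pow_le_pow_left₀ (by positivity) hq1 4
      have hmain := hsmall y r hy1 hr1
      have hformR : (a4 : ℝ) * p ^ 4 + a3 * p ^ 3 * q + a2 * p ^ 2 * q ^ 2 + a1 * p * q ^ 3
          + d * q ^ 4 = 1 := by exact_mod_cast hform
      have hinv : (1 : ℝ) / (q : ℝ) ^ 4 = a4 * ((p : ℝ) / q) ^ 4 + a3 * ((p : ℝ) / q) ^ 3
          + a2 * ((p : ℝ) / q) ^ 2 + a1 * ((p : ℝ) / q) + d := by
        rw [div_eq_iff (pow_ne_zero 4 hqR), ← hformR]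
        field_simp
      have ht : T.eval y + r = ((d - d0 : ℤ) : ℝ) := by
        rw [hTe y, hyR, hr, hinv]
        push_cast
        ring
      rw [ht, hyR] at hmain
      set z : ℤ := ∑ i ∈ Finset.range (m + 1), (d - d0) ^ i * (u i * p + v i * q) with hz
      have hzR : (z : ℝ) = q * ∑ i ∈ Finset.range (m + 1), ((d - d0 : ℤ) : ℝ) ^ i *
          ((u i : ℝ) * ((p : ℝ) / q) + (v i : ℝ)) := by
        rw [hz]
        push_cast
        rw [Finset.mul_sum]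
        refine Finset.sum_congr rfl fun i _ => ?_
        field_simp
      have hz1 : |(z : ℝ)| < 1 := by
        rw [hzR, abs_mul]
        refine lt_of_le_of_lt ?_ hmain
        rw [mul_comm]
        exact mul_le_mul_of_nonneg_left hq2 (abs_nonneg _)
      have hz0 : z = 0 := by
        have : |z| < 1 := by exact_mod_cast hz1
        exact Int.abs_lt_one_iff.1 this
      have hVe : V.eval (d - d0) = ∑ i ∈ Finset.range (m + 1), u i * (d - d0) ^ i := by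
        rw [hV, eval_finsetSum]
        simp
      have hUe : U.eval (d - d0) = ∑ i ∈ Finset.range (m + 1), -(v i) * (d - d0) ^ i := by
        rw [hU, eval_finsetSum]
        simp
      rw [hVe, hUe]
      have h5 : (∑ i ∈ Finset.range (m + 1), u i * (d - d0) ^ i) * p
          - (∑ i ∈ Finset.range (m + 1), -(v i) * (d - d0) ^ i) * q = z := by
        rw [hz, Finset.sum_mul, Finset.sum_mul, ← Finset.sum_sub_distrib]
        refine Finset.sum_congr rfl fun i _ => ?_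
        ring
      linarith
    · have : ∑ i ∈ Finset.range 4, k i * (p ^ (4 - i) * q ^ i)
          = a4 * p ^ 4 + a3 * p ^ 3 * q + a2 * p ^ 2 * q ^ 2 + a1 * p * q ^ 3 := by
        simp [Finset.sum_range_succ, hk]
        ring
      rw [this, ← hform]
      ring
  have hfin2 : ((fun t => d0 + t) '' goodT 4 k d0 U V).Finite := hfin.image _
  refine ⟨hfin2.subset hsub, ?_⟩
  have hle : (patchSet a1 a2 a3 a4 θ0 (R / G ^ 19) (G ^ s) (G ^ (s + 1))).ncard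
      ≤ (goodT 4 k d0 U V).ncard :=
    (Set.ncard_le_ncard hsub hfin2).trans (Set.ncard_image_le hfin)
  have hle' : ((patchSet a1 a2 a3 a4 θ0 (R / G ^ 19) (G ^ s) (G ^ (s + 1))).ncard : ℝ)
      ≤ (goodT 4 k d0 U V).ncard := by exact_mod_cast hle
  refine hle'.trans (hcard.trans ?_)
  have hpow : (G ^ (3 * N)) ^ (1 / (300 * ((N : ℝ) + 1))) ≤ G ^ (1 / 100 : ℝ) := by
    rw [← Real.rpow_natCast, ← Real.rpow_mul hGpos.le]
    refine Real.rpow_le_rpow_of_exponent_le hG1 ?_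
    push_cast
    rw [mul_one_div, div_le_div_iff₀ (by positivity) (by norm_num)]
    nlinarith [Nat.cast_nonneg (α := ℝ) N]
  have hK : Km m ≤ ∑ m ∈ Finset.range (N + 1), |Km m| :=
    (le_abs_self _).trans (Finset.single_le_sum (f := fun m => |Km m|)
      (fun _ _ => abs_nonneg _) (Finset.mem_range.2 (Nat.lt_succ_of_le hmN)))
  have h6 : (0 : ℝ) ≤ (G ^ (3 * N)) ^ (1 / (300 * ((N : ℝ) + 1))) := by positivity
  calc Km m * (G ^ (3 * N)) ^ (1 / (300 * ((N : ℝ) + 1)))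
      ≤ (∑ m ∈ Finset.range (N + 1), |Km m|) * (G ^ (3 * N)) ^ (1 / (300 * ((N : ℝ) + 1))) :=
        mul_le_mul_of_nonneg_right hK h6
    _ ≤ (∑ m ∈ Finset.range (N + 1), |Km m|) * G ^ (1 / 100 : ℝ) :=
        mul_le_mul_of_nonneg_left hpow (Finset.sum_nonneg fun _ _ => abs_nonneg _)

end Pool.Agent.LibHLP
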