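import Pool.Agent.LibHLP.L1

set_option autoImplicit false

open Polynomial

namespace Pool.Agent.LibHLP

theorem patch_l1_pow (c : ℝ) (n : ℕ) (p : ℝ[X]) (e : ℝ) (hp : l1 p ≤ e) :
    l1 (C c * p ^ n) ≤ |c| * e ^ n := by
  refine (l1_mul_le _ _).trans ?_
  rw [l1_C]
  refine mul_le_mul_of_nonneg_left ?_ (abs_nonneg _)
  exact (l1_pow_le p n).trans (pow_le_pow_left₀ (l1_nonneg p) hp n)

theorem patch_l1_quartic (c0 c1 c2 c3 c4 : ℝ) (p : ℝ[X]) (e : ℝ) (hp : l1 p ≤ e) :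
    l1 (C c0 + C c1 * p ^ 1 + C c2 * p ^ 2 + C c3 * p ^ 3 + C c4 * p ^ 4)
      ≤ |c0| + |c1| * e ^ 1 + |c2| * e ^ 2 + |c3| * e ^ 3 + |c4| * e ^ 4 := by
  have h0 : l1 (C c0) = |c0| := l1_C c0
  have h1 := patch_l1_pow c1 1 p e hp
  have h2 := patch_l1_pow c2 2 p e hp
  have h3 := patch_l1_pow c3 3 p e hp
  have h4 := patch_l1_pow c4 4 p e hp
  have e1 := l1_add_le (C c0) (C c1 * p ^ 1)
  have e2 := l1_add_le (C c0 + C c1 * p ^ 1) (C c2 * p ^ 2)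
  have e3 := l1_add_le (C c0 + C c1 * p ^ 1 + C c2 * p ^ 2) (C c3 * p ^ 3)
  have e4 := l1_add_le (C c0 + C c1 * p ^ 1 + C c2 * p ^ 2 + C c3 * p ^ 3) (C c4 * p ^ 4)
  linarith

theorem patch_R_le {G R : ℝ} (hG : 1 ≤ G) (hR : 1 ≤ R) {a : ℤ} (ha : a ≠ 0)
    (h : |(a : ℝ)| * R ^ 4 ≤ G ^ 20) : R ≤ G ^ 5 := by
  have h1 : (1 : ℝ) ≤ |(a : ℝ)| := by
    have := Int.one_le_abs ha
    exact_mod_cast this
  have h2 : R ^ 4 ≤ (G ^ 5) ^ 4 := by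
    have h3 : 0 ≤ R ^ 4 := by positivity
    calc R ^ 4 = 1 * R ^ 4 := (one_mul _).symm
      _ ≤ |(a : ℝ)| * R ^ 4 := mul_le_mul_of_nonneg_right h1 h3
      _ ≤ G ^ 20 := h
      _ = (G ^ 5) ^ 4 := by ring
  exact le_of_pow_le_pow_left₀ (by norm_num) (by positivity) h2

theorem patch_coeff_bound {D R θ a1 a2 a3 a4 : ℝ} (hR : 1 ≤ R) (hθ : |θ| ≤ R)
    (h1 : |a1| * R ≤ D) (h2 : |a2| * R ^ 2 ≤ D) (h3 : |a3| * R ^ 3 ≤ D) (h4 : |a4| * R ^ 4 ≤ D) :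
    |-(a1 * R + 2 * a2 * θ * R + 3 * a3 * θ ^ 2 * R + 4 * a4 * θ ^ 3 * R)| ≤ 10 * D ∧
    |-(a2 * R ^ 2 + 3 * a3 * θ * R ^ 2 + 6 * a4 * θ ^ 2 * R ^ 2)| ≤ 10 * D ∧
    |-(a3 * R ^ 3 + 4 * a4 * θ * R ^ 3)| ≤ 5 * D ∧ |-(a4 * R ^ 4)| ≤ D := by
  have hR0 : 0 ≤ R := by linarith
  have hθ2 : |θ| ^ 2 ≤ R ^ 2 := pow_le_pow_left₀ (abs_nonneg _) hθ 2
  have hθ3 : |θ| ^ 3 ≤ R ^ 3 := pow_le_pow_left₀ (abs_nonneg _) hθ 3
  have e11 : |a1 * R| ≤ D := by rwa [abs_mul, abs_of_nonneg hR0]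
  have e21 : |2 * a2 * θ * R| ≤ 2 * D := by
    have : |2 * a2 * θ * R| = 2 * (|a2| * (|θ| * R)) := by
      rw [abs_mul, abs_mul, abs_mul, abs_of_nonneg hR0, abs_of_pos (by norm_num : (0 : ℝ) < 2)]
      ring
    rw [this]
    have h5 : |θ| * R ≤ R ^ 2 := by nlinarith [abs_nonneg θ]
    have := mul_le_mul_of_nonneg_left h5 (abs_nonneg a2)
    linarith
  have e31 : |3 * a3 * θ ^ 2 * R| ≤ 3 * D := by
    have : |3 * a3 * θ ^ 2 * R| = 3 * (|a3| * (|θ| ^ 2 * R)) := by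
      rw [abs_mul, abs_mul, abs_mul, abs_of_nonneg hR0, abs_of_pos (by norm_num : (0 : ℝ) < 3),
        abs_pow]
      ring
    rw [this]
    have h5 : |θ| ^ 2 * R ≤ R ^ 3 := by
      calc |θ| ^ 2 * R ≤ R ^ 2 * R := mul_le_mul_of_nonneg_right hθ2 hR0
        _ = R ^ 3 := by ring
    have := mul_le_mul_of_nonneg_left h5 (abs_nonneg a3)
    linarith
  have e41 : |4 * a4 * θ ^ 3 * R| ≤ 4 * D := by
    have : |4 * a4 * θ ^ 3 * R| = 4 * (|a4| * (|θ| ^ 3 * R)) := by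
      rw [abs_mul, abs_mul, abs_mul, abs_of_nonneg hR0, abs_of_pos (by norm_num : (0 : ℝ) < 4),
        abs_pow]
      ring
    rw [this]
    have h5 : |θ| ^ 3 * R ≤ R ^ 4 := by
      calc |θ| ^ 3 * R ≤ R ^ 3 * R := mul_le_mul_of_nonneg_right hθ3 hR0
        _ = R ^ 4 := by ring
    have := mul_le_mul_of_nonneg_left h5 (abs_nonneg a4)
    linarith
  have e22 : |a2 * R ^ 2| ≤ D := by rwa [abs_mul, abs_of_nonneg (by positivity : (0 : ℝ) ≤ R ^ 2)]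
  have e32 : |3 * a3 * θ * R ^ 2| ≤ 3 * D := by
    have : |3 * a3 * θ * R ^ 2| = 3 * (|a3| * (|θ| * R ^ 2)) := by
      rw [abs_mul, abs_mul, abs_mul, abs_of_nonneg (by positivity : (0 : ℝ) ≤ R ^ 2),
        abs_of_pos (by norm_num : (0 : ℝ) < 3)]
      ring
    rw [this]
    have h5 : |θ| * R ^ 2 ≤ R ^ 3 := by
      calc |θ| * R ^ 2 ≤ R * R ^ 2 := mul_le_mul_of_nonneg_right hθ (by positivity)
        _ = R ^ 3 := by ring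
    have := mul_le_mul_of_nonneg_left h5 (abs_nonneg a3)
    linarith
  have e42 : |6 * a4 * θ ^ 2 * R ^ 2| ≤ 6 * D := by
    have : |6 * a4 * θ ^ 2 * R ^ 2| = 6 * (|a4| * (|θ| ^ 2 * R ^ 2)) := by
      rw [abs_mul, abs_mul, abs_mul, abs_of_nonneg (by positivity : (0 : ℝ) ≤ R ^ 2),
        abs_of_pos (by norm_num : (0 : ℝ) < 6), abs_pow]
      ring
    rw [this]
    have h5 : |θ| ^ 2 * R ^ 2 ≤ R ^ 4 := by
      calc |θ| ^ 2 * R ^ 2 ≤ R ^ 2 * R ^ 2 := mul_le_mul_of_nonneg_right hθ2 (by positivity)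
        _ = R ^ 4 := by ring
    have := mul_le_mul_of_nonneg_left h5 (abs_nonneg a4)
    linarith
  have e33 : |a3 * R ^ 3| ≤ D := by rwa [abs_mul, abs_of_nonneg (by positivity : (0 : ℝ) ≤ R ^ 3)]
  have e43 : |4 * a4 * θ * R ^ 3| ≤ 4 * D := by
    have : |4 * a4 * θ * R ^ 3| = 4 * (|a4| * (|θ| * R ^ 3)) := by
      rw [abs_mul, abs_mul, abs_mul, abs_of_nonneg (by positivity : (0 : ℝ) ≤ R ^ 3),
        abs_of_pos (by norm_num : (0 : ℝ) < 4)]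
      ring
    rw [this]
    have h5 : |θ| * R ^ 3 ≤ R ^ 4 := by
      calc |θ| * R ^ 3 ≤ R * R ^ 3 := mul_le_mul_of_nonneg_right hθ (by positivity)
        _ = R ^ 4 := by ring
    have := mul_le_mul_of_nonneg_left h5 (abs_nonneg a4)
    linarith
  have e44 : |a4 * R ^ 4| ≤ D := by rwa [abs_mul, abs_of_nonneg (by positivity : (0 : ℝ) ≤ R ^ 4)]
  simp only [abs_neg]
  refine ⟨?_, ?_, ?_, e44⟩
  · have := abs_add_le (a1 * R + 2 * a2 * θ * R + 3 * a3 * θ ^ 2 * R) (4 * a4 * θ ^ 3 * R)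
    have := abs_add_le (a1 * R + 2 * a2 * θ * R) (3 * a3 * θ ^ 2 * R)
    have := abs_add_le (a1 * R) (2 * a2 * θ * R)
    linarith
  · have := abs_add_le (a2 * R ^ 2 + 3 * a3 * θ * R ^ 2) (6 * a4 * θ ^ 2 * R ^ 2)
    have := abs_add_le (a2 * R ^ 2) (3 * a3 * θ * R ^ 2)
    linarith
  · have := abs_add_le (a3 * R ^ 3) (4 * a4 * θ * R ^ 3)
    linarith

theorem patch_value_bound {D R θ a1 a2 a3 a4 : ℝ} (hR : 1 ≤ R) (hθ : |θ| ≤ R)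
    (h1 : |a1| * R ≤ D) (h2 : |a2| * R ^ 2 ≤ D) (h3 : |a3| * R ^ 3 ≤ D) (h4 : |a4| * R ^ 4 ≤ D) :
    |-(a1 * θ + a2 * θ ^ 2 + a3 * θ ^ 3 + a4 * θ ^ 4)| ≤ 4 * D := by
  have hR0 : 0 ≤ R := by linarith
  have e1 : |a1 * θ| ≤ D := by
    rw [abs_mul]
    exact (mul_le_mul_of_nonneg_left hθ (abs_nonneg _)).trans h1
  have e2 : |a2 * θ ^ 2| ≤ D := by
    rw [abs_mul, abs_pow]
    exact (mul_le_mul_of_nonneg_left (pow_le_pow_left₀ (abs_nonneg _) hθ 2)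
      (abs_nonneg _)).trans h2
  have e3 : |a3 * θ ^ 3| ≤ D := by
    rw [abs_mul, abs_pow]
    exact (mul_le_mul_of_nonneg_left (pow_le_pow_left₀ (abs_nonneg _) hθ 3)
      (abs_nonneg _)).trans h3
  have e4 : |a4 * θ ^ 4| ≤ D := by
    rw [abs_mul, abs_pow]
    exact (mul_le_mul_of_nonneg_left (pow_le_pow_left₀ (abs_nonneg _) hθ 4)
      (abs_nonneg _)).trans h4
  rw [abs_neg]
  have := abs_add_le (a1 * θ + a2 * θ ^ 2 + a3 * θ ^ 3) (a4 * θ ^ 4)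
  have := abs_add_le (a1 * θ + a2 * θ ^ 2) (a3 * θ ^ 3)
  have := abs_add_le (a1 * θ) (a2 * θ ^ 2)
  linarith

theorem patch_poly (D R θ a1 a2 a3 a4 : ℝ) (hD : 1 ≤ D) (hR : 1 ≤ R) (hθ : |θ| ≤ R)
    (h1 : |a1| * R ≤ D) (h2 : |a2| * R ^ 2 ≤ D) (h3 : |a3| * R ^ 3 ≤ D) (h4 : |a4| * R ^ 4 ≤ D) :
    ∃ (T : ℝ[X]) (d0 : ℤ), l1 T ≤ 27 * D ∧ l1 (T.comp (C D⁻¹ * X)) ≤ 27 ∧
      |(d0 : ℝ)| ≤ 5 * D ∧
      ∀ y : ℝ, T.eval y = -(a1 * (θ + R * y) + a2 * (θ + R * y) ^ 2 + a3 * (θ + R * y) ^ 3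
        + a4 * (θ + R * y) ^ 4) - d0 := by
  obtain ⟨b1, b2, b3, b4⟩ := patch_coeff_bound hR hθ h1 h2 h3 h4
  set g0 : ℝ := -(a1 * θ + a2 * θ ^ 2 + a3 * θ ^ 3 + a4 * θ ^ 4) with hg0
  set c1 : ℝ := -(a1 * R + 2 * a2 * θ * R + 3 * a3 * θ ^ 2 * R + 4 * a4 * θ ^ 3 * R) with hc1
  set c2 : ℝ := -(a2 * R ^ 2 + 3 * a3 * θ * R ^ 2 + 6 * a4 * θ ^ 2 * R ^ 2) with hc2
  set c3 : ℝ := -(a3 * R ^ 3 + 4 * a4 * θ * R ^ 3) with hc3
  set c4 : ℝ := -(a4 * R ^ 4) with hc4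
  have hD0 : 0 < D := by linarith
  have hc0 : |g0 - round g0| ≤ 1 / 2 := abs_sub_round g0
  have hX : l1 (X : ℝ[X]) ≤ 1 := l1_X.le
  have hDX : l1 (C D⁻¹ * X : ℝ[X]) ≤ D⁻¹ := by
    refine (l1_mul_le _ _).trans ?_
    rw [l1_C, l1_X, mul_one, abs_of_pos (by positivity)]
  refine ⟨C (g0 - round g0) + C c1 * X ^ 1 + C c2 * X ^ 2 + C c3 * X ^ 3 + C c4 * X ^ 4,
    round g0, ?_, ?_, ?_, ?_⟩
  · refine (patch_l1_quartic _ _ _ _ _ X 1 hX).trans ?_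
    simp only [one_pow, mul_one]
    linarith
  · have hcomp : (C (g0 - round g0) + C c1 * X ^ 1 + C c2 * X ^ 2 + C c3 * X ^ 3
        + C c4 * X ^ 4 : ℝ[X]).comp (C D⁻¹ * X)
        = C (g0 - round g0) + C c1 * (C D⁻¹ * X) ^ 1 + C c2 * (C D⁻¹ * X) ^ 2
          + C c3 * (C D⁻¹ * X) ^ 3 + C c4 * (C D⁻¹ * X) ^ 4 := by
      simp only [add_comp, mul_comp, pow_comp, C_comp, X_comp]
    rw [hcomp]
    refine (patch_l1_quartic _ _ _ _ _ _ D⁻¹ hDX).trans ?_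
    have hi1 : D⁻¹ ≤ 1 := inv_le_one_of_one_le₀ hD
    have hi0 : 0 < D⁻¹ := by positivity
    have hpow : ∀ n : ℕ, D⁻¹ ^ (n + 1) ≤ D⁻¹ := by
      intro n
      rw [pow_succ]
      have : D⁻¹ ^ n ≤ 1 := pow_le_one₀ hi0.le hi1
      nlinarith
    have hDD : D * D⁻¹ = 1 := mul_inv_cancel₀ hD0.ne'
    have k1 : |c1| * D⁻¹ ^ 1 ≤ 10 := by
      calc |c1| * D⁻¹ ^ 1 ≤ (10 * D) * D⁻¹ :=
            mul_le_mul b1 (hpow 0) (by positivity) (by positivity)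
        _ = 10 := by rw [mul_assoc, hDD, mul_one]
    have k2 : |c2| * D⁻¹ ^ 2 ≤ 10 := by
      calc |c2| * D⁻¹ ^ 2 ≤ (10 * D) * D⁻¹ :=
            mul_le_mul b2 (hpow 1) (by positivity) (by positivity)
        _ = 10 := by rw [mul_assoc, hDD, mul_one]
    have k3 : |c3| * D⁻¹ ^ 3 ≤ 5 := by
      calc |c3| * D⁻¹ ^ 3 ≤ (5 * D) * D⁻¹ :=
            mul_le_mul b3 (hpow 2) (by positivity) (by positivity)
        _ = 5 := by rw [mul_assoc, hDD, mul_one]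
    have k4 : |c4| * D⁻¹ ^ 4 ≤ 1 := by
      calc |c4| * D⁻¹ ^ 4 ≤ D * D⁻¹ :=
            mul_le_mul b4 (hpow 3) (by positivity) (by positivity)
        _ = 1 := hDD
    linarith
  · have hg : |g0| ≤ 4 * D := patch_value_bound hR hθ h1 h2 h3 h4
    have h5 : |(round g0 : ℝ)| ≤ |g0| + |g0 - round g0| := by
      have h6 : (round g0 : ℝ) = g0 - (g0 - round g0) := by ring
      calc |(round g0 : ℝ)| = |g0 - (g0 - round g0)| := by rw [← h6]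
        _ ≤ |g0| + |g0 - round g0| := abs_sub _ _
    linarith
  · intro y
    simp only [eval_add, eval_mul, eval_C, eval_pow, eval_X]
    rw [hg0, hc1, hc2, hc3, hc4]
    ring

end Pool.Agent.LibHLP
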