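import Pool.Agent.LibHLP.GcdCount
import Pool.Agent.LibHU21.P1

set_option autoImplicit false

open Polynomial

namespace Pool.Agent.LibHLP

/-- The second step (helper21, LibHU21.P1). -/
theorem power_count (n : ℕ) (hn : n = 3 ∨ n = 4) : ∃ N0 : ℝ, 1 < N0 ∧ ∀ N : ℝ, N0 ≤ N →
    ∀ (m : ℕ) (H : ℝ) (k : ℕ → ℤ) (z₀ : ℤ) (U V : ℤ[X]), 1 ≤ H → (∀ e : ℤ, |e ^ n| ≠ |k 0|) →
    U.natDegree ≤ m → V.natDegree ≤ m → (∀ i, |(U.coeff i : ℝ)| ≤ H) →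
    (∀ i, |(V.coeff i : ℝ)| ≤ H) → (U ≠ 0 ∨ V ≠ 0) → (∀ i < n, |(k i : ℝ)| ≤ H) →
    |(z₀ : ℝ)| ≤ H → (n : ℝ) * m + 1 ≤ N ^ (0.1 : ℝ) →
    ((n : ℝ) + 2) * (m + 1) ^ n * H ^ (n + 1) ≤ Real.exp (N ^ (0.1 : ℝ)) →
    ∀ T : Finset ℤ, (∀ t ∈ T, ∀ t' ∈ T, |((t - t' : ℤ) : ℝ)| ≤ N) →
    (∀ t ∈ T, t ∈ goodT n k z₀ U V) → (T.card : ℝ) ≤ m + N ^ (0.81 : ℝ) :=
  LibHU.power_count n hn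

end Pool.Agent.LibHLP
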