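import Pool.Agent.LibHLP.DefsU
import Pool.Agent.LibHLP.AuxPairV
import Pool.Agent.LibHLP.PatchPoly
import Pool.Agent.LibHLP.PowerCount

set_option autoImplicit false

open Polynomial Filter

namespace Pool.Agent.LibHLP

/-- The size conditions for large `G`. -/
theorem patchU_sizes : ∃ G2 : ℝ, 1 < G2 ∧ ∀ G : ℝ, G2 ≤ G → ∀ s m : ℕ, 7 ≤ s → m ≤ s →
    (s : ℝ) ≤ G ^ (0.08 : ℝ) → (4 : ℝ) * m + 1 ≤ (110 * G) ^ (0.1 : ℝ) ∧
    ((4 : ℝ) + 2) * (m + 1) ^ 4 * (G ^ (3 * s + 1)) ^ (4 + 1) ≤ Real.exp ((110 * G) ^ (0.1 : ℝ)) ∧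
    (m : ℝ) + (110 * G) ^ (0.81 : ℝ) ≤ G ^ (0.815 : ℝ) ∧ (5 : ℝ) ≤ G := by
  have h1 : ∀ᶠ G : ℝ in atTop, Real.log G ≤ G ^ (0.005 : ℝ) := by
    have := (isLittleO_log_rpow_atTop (r := 0.005) (by norm_num)).bound
      (show (0 : ℝ) < 1 by norm_num)
    filter_upwards [this, eventually_ge_atTop 1] with G hG hG1
    rw [one_mul, Real.norm_eq_abs, Real.norm_eq_abs, abs_of_nonneg (Real.log_nonneg hG1),
      abs_of_nonneg (by positivity)] at hG
    exact hG
  have h2 : ∀ᶠ G : ℝ in atTop, (200 : ℝ) ≤ G ^ (0.005 : ℝ) :=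
    (tendsto_rpow_atTop (by norm_num)).eventually_ge_atTop 200
  obtain ⟨G2, hG2⟩ := eventually_atTop.1 ((h1.and h2).and (eventually_ge_atTop 5))
  refine ⟨max G2 2, lt_of_lt_of_le (by norm_num) (le_max_right _ _), ?_⟩
  intro G hG s m hs7 hms hs
  obtain ⟨⟨hlog, h200⟩, hG5⟩ := hG2 G ((le_max_left _ _).trans hG)
  have hG0 : 0 < G := by linarith
  have hG1 : 1 ≤ G := by linarith
  have hms' : (m : ℝ) ≤ s := by exact_mod_cast hms
  have e2 : G ^ (0.08 : ℝ) * G ^ (0.005 : ℝ) = G ^ (0.085 : ℝ) := by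
    rw [← Real.rpow_add hG0]; norm_num
  have e3 : G ^ (0.1 : ℝ) ≤ (110 * G) ^ (0.1 : ℝ) :=
    Real.rpow_le_rpow hG0.le (by linarith) (by norm_num)
  have e5 : G ^ (0.085 : ℝ) * G ^ (0.005 : ℝ) = G ^ (0.09 : ℝ) := by
    rw [← Real.rpow_add hG0]; norm_num
  have e6 : G ^ (0.09 : ℝ) ≤ G ^ (0.1 : ℝ) :=
    Real.rpow_le_rpow_of_exponent_le hG1 (by norm_num)
  have p8 : 1 ≤ G ^ (0.08 : ℝ) := Real.one_le_rpow hG1 (by norm_num)
  have p85 : 0 < G ^ (0.085 : ℝ) := Real.rpow_pos_of_pos hG0 _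
  have f4 : G ^ (0.08 : ℝ) ≤ G ^ (0.085 : ℝ) :=
    Real.rpow_le_rpow_of_exponent_le hG1 (by norm_num)
  have f5 : 200 * G ^ (0.085 : ℝ) ≤ G ^ (0.1 : ℝ) := by
    refine le_trans ?_ e6
    rw [← e5, mul_comm]
    exact mul_le_mul_of_nonneg_left h200 p85.le
  refine ⟨?_, ?_, ?_, hG5⟩
  · linarith
  · have hm1 : ((m : ℝ) + 1) ≤ Real.exp ((m : ℝ)) := by linarith [Real.add_one_le_exp (m : ℝ)]
    have hm4 : ((m : ℝ) + 1) ^ 4 ≤ Real.exp (4 * m) := by
      calc ((m : ℝ) + 1) ^ 4 ≤ (Real.exp (m : ℝ)) ^ 4 := pow_le_pow_left₀ (by positivity) hm1 4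
        _ = Real.exp (4 * m) := by rw [← Real.exp_nat_mul]; norm_num
    have h6 : ((4 : ℝ) + 2) ≤ Real.exp 6 := by linarith [Real.add_one_le_exp (6 : ℝ)]
    have hG' : (G ^ (3 * s + 1)) ^ (4 + 1) = Real.exp ((15 * s + 5) * Real.log G) := by
      rw [← pow_mul, ← Real.rpow_natCast, Real.rpow_def_of_pos hG0]
      congr 1
      push_cast
      ring
    rw [hG']
    calc ((4 : ℝ) + 2) * (m + 1) ^ 4 * Real.exp ((15 * s + 5) * Real.log G)
        ≤ Real.exp 6 * Real.exp (4 * m) * Real.exp ((15 * s + 5) * Real.log G) := by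
          gcongr
      _ = Real.exp (6 + 4 * m + (15 * s + 5) * Real.log G) := by
          rw [← Real.exp_add, ← Real.exp_add]
      _ ≤ Real.exp ((110 * G) ^ (0.1 : ℝ)) := by
          apply Real.exp_le_exp.2
          have hs7' : (7 : ℝ) ≤ s := by exact_mod_cast hs7
          have f1 : (15 * (s : ℝ) + 5) * Real.log G ≤ (15 * (s : ℝ) + 5) * G ^ (0.005 : ℝ) :=
            mul_le_mul_of_nonneg_left hlog (by positivity)
          have f2 : (15 * (s : ℝ) + 5) * G ^ (0.005 : ℝ) ≤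
              (20 * G ^ (0.08 : ℝ)) * G ^ (0.005 : ℝ) :=
            mul_le_mul_of_nonneg_right (by linarith) (by positivity)
          have f3 : (20 * G ^ (0.08 : ℝ)) * G ^ (0.005 : ℝ) = 20 * G ^ (0.085 : ℝ) := by
            rw [mul_assoc, e2]
          linarith
  · have q1 : (110 * G) ^ (0.81 : ℝ) ≤ 110 * G ^ (0.81 : ℝ) := by
      rw [Real.mul_rpow (by norm_num) hG0.le]
      apply mul_le_mul_of_nonneg_right _ (by positivity)
      calc (110 : ℝ) ^ (0.81 : ℝ) ≤ 110 ^ (1 : ℝ) :=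
            Real.rpow_le_rpow_of_exponent_le (by norm_num) (by norm_num)
        _ = 110 := Real.rpow_one _
    have q2 : G ^ (0.08 : ℝ) ≤ G ^ (0.81 : ℝ) :=
      Real.rpow_le_rpow_of_exponent_le hG1 (by norm_num)
    have q3 : G ^ (0.81 : ℝ) * G ^ (0.005 : ℝ) = G ^ (0.815 : ℝ) := by
      rw [← Real.rpow_add hG0]; norm_num
    have q4 : 0 < G ^ (0.81 : ℝ) := Real.rpow_pos_of_pos hG0 _
    have q5 : 200 * G ^ (0.81 : ℝ) ≤ G ^ (0.815 : ℝ) := by
      rw [← q3, mul_comm]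
      exact mul_le_mul_of_nonneg_left h200 q4.le
    linarith

/-- Few values of `d` on a patch, uniformly in `s`. -/
theorem patch_countU : ∃ G0 : ℝ, 1 < G0 ∧ ∀ G : ℝ, G0 ≤ G → ∀ s : ℕ, 7 ≤ s →
    (s : ℝ) ≤ G ^ (0.08 : ℝ) → ∀ R : ℝ, 1 ≤ R → ∀ a1 a2 a3 a4 : ℤ, (∀ e : ℤ, |e ^ 4| ≠ |a4|) →
    |(a1 : ℝ)| * R ≤ G ^ 20 →
    |(a2 : ℝ)| * R ^ 2 ≤ G ^ 20 → |(a3 : ℝ)| * R ^ 3 ≤ G ^ 20 → |(a4 : ℝ)| * R ^ 4 ≤ G ^ 20 →
    ∀ θ0 : ℝ, |θ0| ≤ R → (patchSet a1 a2 a3 a4 θ0 (R / G ^ 19) (G ^ s) (G ^ (s + 1))).Finite ∧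
      ((patchSet a1 a2 a3 a4 θ0 (R / G ^ 19) (G ^ s) (G ^ (s + 1))).ncard : ℝ)
        ≤ G ^ (0.815 : ℝ) := by
  obtain ⟨G1', hG1', haux⟩ := aux_pairV
  obtain ⟨N0, hN0, hpow⟩ := power_count 4 (Or.inr rfl)
  obtain ⟨G2, hG2, hsizes⟩ := patchU_sizes
  refine ⟨max (max G1' N0) G2, lt_of_lt_of_le hG1' ((le_max_left _ _).trans (le_max_left _ _)), ?_⟩
  intro G hG s hs7 hsN R hR a1 a2 a3 a4 ha4' h1 h2 h3 h4 θ0 hθ0
  have hGa : G1' ≤ G := ((le_max_left _ _).trans (le_max_left _ _)).trans hG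
  have hGb : N0 ≤ G := ((le_max_right _ _).trans (le_max_left _ _)).trans hG
  have hGc : G2 ≤ G := (le_max_right _ _).trans hG
  have hG1 : 1 ≤ G := hG1'.le.trans hGa
  have hGpos : 0 < G := by linarith
  have ha4 : a4 ≠ 0 := by
    intro h
    exact ha4' 0 (by rw [h]; norm_num)
  have hR5 : R ≤ G ^ 5 := patch_R_le hG1 hR ha4 h4
  have hD : (1 : ℝ) ≤ G ^ 20 := one_le_pow₀ hG1
  obtain ⟨T, d0, hT1, hT2, hd0, hTe⟩ := patch_poly (G ^ 20) R θ0 a1 a2 a3 a4 hD hR hθ0 h1 h2 h3 h4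
  obtain ⟨m, u, v, hms, hne, huv, hsmall⟩ := haux G hGa s hs7 R hR hR5 θ0 hθ0 T hT1 hT2
  obtain ⟨hz1, hz2, hz3, hG5⟩ := hsizes G hGc s m hs7 hms hsN
  -- the polynomials
  set V : ℤ[X] := ∑ i ∈ Finset.range (m + 1), C (u i) * X ^ i with hV
  set U : ℤ[X] := ∑ i ∈ Finset.range (m + 1), C (-(v i)) * X ^ i with hU
  have hcoef : ∀ (w : ℕ → ℤ) (j : ℕ),
      (∑ i ∈ Finset.range (m + 1), C (w i) * X ^ i : ℤ[X]).coeff j
        = if j ≤ m then w j else 0 := by
    intro w j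
    rw [finsetSum_coeff]
    simp only [coeff_C_mul, coeff_X_pow]
    by_cases hj : j ≤ m
    · rw [Finset.sum_eq_single j]
      · simp [hj]
      · intro b _ hb
        rw [if_neg (Ne.symm hb), mul_zero]
      · intro hj'
        exact absurd (Finset.mem_range.2 (Nat.lt_succ_of_le hj)) hj'
    · rw [if_neg hj]
      refine Finset.sum_eq_zero fun i hi => ?_
      have : j ≠ i := by
        have := Finset.mem_range.1 hi
        omega
      rw [if_neg this, mul_zero]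
  have hdeg : ∀ w : ℕ → ℤ,
      (∑ i ∈ Finset.range (m + 1), C (w i) * X ^ i : ℤ[X]).natDegree ≤ m := by
    intro w
    rw [natDegree_le_iff_coeff_eq_zero]
    intro j hj
    rw [hcoef w j, if_neg (by omega)]
  have hH1 : (1 : ℝ) ≤ G ^ (3 * s + 1) := one_le_pow₀ hG1
  have hGH0 : (0 : ℝ) ≤ G ^ (3 * s + 1) := by linarith
  have hVc : ∀ i, |(V.coeff i : ℝ)| ≤ G ^ (3 * s + 1) := by
    intro i
    rw [hV, hcoef]
    split_ifs with hi
    · exact (huv i hi).1.trans (pow_le_pow_right₀ hG1 (Nat.le_succ _))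
    · simpa using hGH0
  have hUc : ∀ i, |(U.coeff i : ℝ)| ≤ G ^ (3 * s + 1) := by
    intro i
    rw [hU, hcoef (fun i => -(v i))]
    split_ifs with hi
    · push_cast
      rw [abs_neg]
      exact (huv i hi).2.trans (pow_le_pow_right₀ hG1 (Nat.le_succ _))
    · simpa using hGH0
  have hUV : U ≠ 0 ∨ V ≠ 0 := by
    obtain ⟨i, him, hi⟩ := hne
    rcases hi with hi | hi
    · right
      intro h0
      apply hi
      have := hcoef u i
      rw [← hV, h0, coeff_zero, if_pos him] at this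
      exact this.symm
    · left
      intro h0
      apply hi
      have := hcoef (fun i => -(v i)) i
      rw [← hU, h0, coeff_zero, if_pos him] at this
      have h5 : -(v i) = 0 := this.symm
      omega
  set k : ℕ → ℤ := fun i => if i = 0 then a4 else if i = 1 then a3 else if i = 2 then a2
    else a1 with hk
  -- the sizes of the coefficients of the pencil
  have hR1 : ∀ n : ℕ, (1 : ℝ) ≤ R ^ n := fun n => one_le_pow₀ hR
  have hG20 : G ^ 20 ≤ G ^ (3 * s + 1) := pow_le_pow_right₀ hG1 (by omega)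
  have hkH : ∀ i < 4, |(k i : ℝ)| ≤ G ^ (3 * s + 1) := by
    intro i hi
    have hle : ∀ (a : ℤ) (n : ℕ), |(a : ℝ)| * R ^ n ≤ G ^ 20 → |(a : ℝ)| ≤ G ^ (3 * s + 1) := by
      intro a n h
      exact ((le_mul_of_one_le_right (abs_nonneg _) (hR1 n)).trans h).trans hG20
    interval_cases i
    · simpa [hk] using hle a4 4 h4
    · simpa [hk] using hle a3 3 h3
    · simpa [hk] using hle a2 2 h2
    · simpa [hk] using hle a1 1 (by simpa using h1)
  have hd0' : |(d0 : ℝ)| ≤ G ^ (3 * s + 1) := by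
    refine hd0.trans ?_
    calc 5 * G ^ 20 ≤ G * G ^ 20 := by gcongr
      _ = G ^ 21 := by ring
      _ ≤ G ^ (3 * s + 1) := pow_le_pow_right₀ hG1 (by omega)
  -- the patch set is contained in a translate
  have hsub : patchSet a1 a2 a3 a4 θ0 (R / G ^ 19) (G ^ s) (G ^ (s + 1))
      ⊆ (fun t => d0 + t) '' {t | t ∈ goodT 4 k d0 U V ∧ |(t : ℝ)| ≤ 55 * G} := by
    rintro d ⟨p, q, hq0, hq1, hq2, hpq, hform⟩
    refine ⟨d - d0, ?_, by ring⟩
    have hqR : (q : ℝ) ≠ 0 := by exact_mod_cast hq0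
    have hcop : IsCoprime p q := by
      refine ⟨a4 * p ^ 3 + a3 * p ^ 2 * q + a2 * p * q ^ 2 + a1 * q ^ 3, d * q ^ 3, ?_⟩
      rw [← hform]
      ring
    set y : ℝ := ((p : ℝ) / q - θ0) / R with hy
    have hR0 : R ≠ 0 := by linarith
    have hRpos : 0 < R := by linarith
    have hyR : θ0 + R * y = (p : ℝ) / q := by
      rw [hy]
      field_simp
      ring
    have hy1 : |y| * G ^ 19 ≤ 1 := by
      rw [hy, abs_div, abs_of_pos hRpos, div_mul_eq_mul_div, div_le_one hRpos]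
      rwa [le_div_iff₀ (by positivity)] at hpq
    set r : ℝ := 1 / (q : ℝ) ^ 4 with hr
    have hr1 : |r| * G ^ (4 * s) ≤ 1 := by
      rw [hr, abs_div, abs_one, abs_pow, div_mul_eq_mul_div, one_mul,
        div_le_one (by positivity)]
      rw [mul_comm 4 s, pow_mul]
      exact pow_le_pow_left₀ (by positivity) hq1 4
    have hmain := hsmall y r hy1 hr1
    have hformR : (a4 : ℝ) * p ^ 4 + a3 * p ^ 3 * q + a2 * p ^ 2 * q ^ 2 + a1 * p * q ^ 3
        + d * q ^ 4 = 1 := by exact_mod_cast hform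
    have hinv : (1 : ℝ) / (q : ℝ) ^ 4 = a4 * ((p : ℝ) / q) ^ 4 + a3 * ((p : ℝ) / q) ^ 3
        + a2 * ((p : ℝ) / q) ^ 2 + a1 * ((p : ℝ) / q) + d := by
      rw [div_eq_iff (pow_ne_zero 4 hqR), ← hformR]
      field_simp
    have ht : T.eval y + r = ((d - d0 : ℤ) : ℝ) := by
      rw [hTe y, hyR, hr, hinv]
      push_cast
      ring
    -- the size of `t`
    have hG19 : (0 : ℝ) < G ^ 19 := by positivity
    have htau : |y| ≤ (G ^ 19)⁻¹ := by
      rw [← one_div, le_div_iff₀ hG19]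
      exact hy1
    have htau1 : (G ^ 19)⁻¹ ≤ 1 := inv_le_one_of_one_le₀ (one_le_pow₀ hG1)
    have hTy : |T.eval y| ≤ 27 + 27 * G := by
      have h5 := eval_T_le T (G ^ 20) ((G ^ 19)⁻¹) y hD hT1 hT2 htau htau1
      have h6 : 27 * G ^ 20 * (G ^ 19)⁻¹ = 27 * G := by
        field_simp
      linarith
    have hr2 : |r| ≤ 1 := by
      exact (le_mul_of_one_le_right (abs_nonneg r) (one_le_pow₀ hG1)).trans hr1
    have htsize : |((d - d0 : ℤ) : ℝ)| ≤ 55 * G := by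
      rw [← ht]
      have := abs_add_le (T.eval y) r
      linarith
    refine ⟨⟨p, q, hq0, hcop, ?_, ?_⟩, htsize⟩
    · -- the auxiliary identity
      rw [ht, hyR] at hmain
      set z : ℤ := ∑ i ∈ Finset.range (m + 1), (d - d0) ^ i * (u i * p + v i * q) with hz
      have hzR : (z : ℝ) = q * ∑ i ∈ Finset.range (m + 1), ((d - d0 : ℤ) : ℝ) ^ i *
          ((u i : ℝ) * ((p : ℝ) / q) + (v i : ℝ)) := by
        rw [hz]
        push_cast
        rw [Finset.mul_sum]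
        refine Finset.sum_congr rfl fun i _ => ?_
        field_simp
      have hz1 : |(z : ℝ)| < 1 := by
        rw [hzR, abs_mul]
        refine lt_of_le_of_lt ?_ hmain
        rw [mul_comm]
        exact mul_le_mul_of_nonneg_left hq2 (abs_nonneg _)
      have hz0 : z = 0 := by
        have : |z| < 1 := by exact_mod_cast hz1
        exact Int.abs_lt_one_iff.1 this
      have hVe : V.eval (d - d0) = ∑ i ∈ Finset.range (m + 1), u i * (d - d0) ^ i := by
        rw [hV, eval_finsetSum]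
        simp
      have hUe : U.eval (d - d0) = ∑ i ∈ Finset.range (m + 1), -(v i) * (d - d0) ^ i := by
        rw [hU, eval_finsetSum]
        simp
      rw [hVe, hUe]
      have h5 : (∑ i ∈ Finset.range (m + 1), u i * (d - d0) ^ i) * p
          - (∑ i ∈ Finset.range (m + 1), -(v i) * (d - d0) ^ i) * q = z := by
        rw [hz, Finset.sum_mul, Finset.sum_mul, ← Finset.sum_sub_distrib]
        refine Finset.sum_congr rfl fun i _ => ?_
        ring
      linarith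
    · have : ∑ i ∈ Finset.range 4, k i * (p ^ (4 - i) * q ^ i)
          = a4 * p ^ 4 + a3 * p ^ 3 * q + a2 * p ^ 2 * q ^ 2 + a1 * p * q ^ 3 := by
        simp [Finset.sum_range_succ, hk]
        ring
      rw [this, ← hform]
      ring
  set W : Set ℤ := {t | t ∈ goodT 4 k d0 U V ∧ |(t : ℝ)| ≤ 55 * G} with hW
  have hWfin : W.Finite := by
    refine (Set.finite_Icc (-⌊55 * G⌋) ⌊55 * G⌋).subset ?_
    rintro t ⟨_, ht⟩
    rw [abs_le] at ht
    rw [Set.mem_Icc]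
    constructor
    · have h5 : -t ≤ ⌊55 * G⌋ := Int.le_floor.2 (by push_cast; linarith [ht.1])
      omega
    · exact Int.le_floor.2 ht.2
  have hWcard : (W.ncard : ℝ) ≤ (m : ℝ) + (110 * G) ^ (0.81 : ℝ) := by
    rw [Set.ncard_eq_toFinset_card W hWfin]
    refine hpow (110 * G) (by linarith) m (G ^ (3 * s + 1)) k d0 U V hH1 ?_ (hdeg _) (hdeg _)
      hUc hVc hUV hkH hd0' ?_ ?_ hWfin.toFinset ?_ ?_
    · simpa [hk] using ha4'
    · exact_mod_cast hz1
    · exact_mod_cast hz2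
    · intro t ht t' ht'
      rw [Set.Finite.mem_toFinset] at ht ht'
      push_cast
      have := abs_sub (t : ℝ) (t' : ℝ)
      have h5 := ht.2
      have h6 := ht'.2
      linarith
    · intro t ht
      rw [Set.Finite.mem_toFinset] at ht
      exact ht.1
  have hfin2 : ((fun t => d0 + t) '' W).Finite := hWfin.image _
  refine ⟨hfin2.subset hsub, ?_⟩
  have hle : (patchSet a1 a2 a3 a4 θ0 (R / G ^ 19) (G ^ s) (G ^ (s + 1))).ncard ≤ W.ncard :=
    (Set.ncard_le_ncard hsub hfin2).trans (Set.ncard_image_le hWfin)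
  have hle' : ((patchSet a1 a2 a3 a4 θ0 (R / G ^ 19) (G ^ s) (G ^ (s + 1))).ncard : ℝ)
      ≤ W.ncard := by exact_mod_cast hle
  exact hle'.trans (hWcard.trans hz3)

end Pool.Agent.LibHLP
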